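import Pool.Agent.EK.Defs

/-!
# MODULE M: Mertens' theorem with `O(1)` error along `2^(2^J)`

Paper proof.

1. `group_bound`.  For `t ≥ 1` let `P_t` be the set of primes in `[2^t, 2^(t+1))`.  By `primorial_le_4_pow`
   (or `Chebyshev.theta_le_log4_mul_x`) `#P_t * log (2^t) ≤ θ(2^(t+1)) ≤ log 4 * 2^(t+1)`, so
   `#P_t ≤ 4 * 2^t / t` and `∑_{p ∈ P_t} 1/p ≤ 4/t`.  Hence `∑_{2^(2^i) ≤ p < 2^(2^(i+1))} 1/p
   ≤ ∑_{t = 2^i}^{2^(i+1)-1} 4/t ≤ 4`.
2. `mertens_first`: `∑_{p ≤ n} log p / p = log n + O(1)`.  `log n! = ∑_{d ≤ n} Λ(d) ⌊n/d⌋` (from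
   `ArithmeticFunction.vonMangoldt_sum`, or Legendre), `n log n - n ≤ log n! ≤ n log n`, and
   `0 ≤ ∑_{d≤n} Λ(d) (n/d - ⌊n/d⌋) ≤ ψ(n) ≤ C n` (`Chebyshev.psi_le_const_mul_self`), so
   `∑_{d≤n} Λ(d)/d = log n + O(1)`; prime powers `p^k`, `k ≥ 2`, contribute at most
   `∑_p log p/(p(p-1)) < ∞`.
   (One may also avoid `Λ`: `v_p(n!) ≥ ⌊n/p⌋` and `v_p(n!) ≤ n/p + n/(p(p-1))`.)
3. Dyadic Abel summation: let `E_t = ∑_{p < 2^t} log p/p - t log 2` (bounded by `C`) and
   `a_t = ∑_{p ∈ P_t} log p / p = log 2 + E_{t+1} - E_t`.  For `p ∈ P_t`,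
   `1/p = (log p/p) * (1/log p)` and `0 ≤ 1/(t log 2) - 1/log p ≤ 1/(t(t+1) log 2)`.  So
   `∑_{p∈P_t} 1/p = a_t/(t log 2) + O(1/t^2) = 1/t + (E_{t+1}-E_t)/(t log 2) + O(1/t^2)`; sum over
   `1 ≤ t < 2^J` (Abel summation for the middle term):
   `= H_{2^J - 1} + O(1) = J log 2 + O(1)`.
-/

namespace EK

open Finset

/-! ### Group bound -/

theorem card_dyadic (t : ℕ) (ht : 1 ≤ t) :
    (((Finset.Ico (2 ^ t) (2 ^ (t + 1))).filter Nat.Prime).card : ℝ) ≤ 4 * 2 ^ t / t := by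
  have ht0 : (0 : ℝ) < t := by exact_mod_cast ht
  have hl2 : 0 < Real.log 2 := Real.log_pos (by norm_num)
  have h1 : (((Finset.Ico (2 ^ t) (2 ^ (t + 1))).filter Nat.Prime).card : ℝ) * (t * Real.log 2)
      ≤ Chebyshev.theta ((2 : ℝ) ^ (t + 1)) := by
    have hfl : ⌊((2 : ℝ) ^ (t + 1))⌋₊ = 2 ^ (t + 1) := by
      have : ((2 : ℝ) ^ (t + 1)) = ((2 ^ (t + 1) : ℕ) : ℝ) := by push_cast; rfl
      rw [this, Nat.floor_natCast]
    unfold Chebyshev.theta
    rw [hfl]
    calc (((Finset.Ico (2 ^ t) (2 ^ (t + 1))).filter Nat.Prime).card : ℝ) * (t * Real.log 2)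
        = ∑ p ∈ (Finset.Ico (2 ^ t) (2 ^ (t + 1))).filter Nat.Prime, (t * Real.log 2) := by
          rw [Finset.sum_const, nsmul_eq_mul]
      _ ≤ ∑ p ∈ (Finset.Ico (2 ^ t) (2 ^ (t + 1))).filter Nat.Prime, Real.log p := by
          refine Finset.sum_le_sum fun p hp => ?_
          rw [Finset.mem_filter, Finset.mem_Ico] at hp
          have h2 : ((2 ^ t : ℕ) : ℝ) ≤ p := by exact_mod_cast hp.1.1
          calc (t : ℝ) * Real.log 2 = Real.log ((2 ^ t : ℕ) : ℝ) := by
                push_cast; rw [Real.log_pow]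
            _ ≤ Real.log p := Real.log_le_log (by positivity) h2
      _ ≤ _ := by
          refine Finset.sum_le_sum_of_subset_of_nonneg ?_ ?_
          · intro p hp
            rw [Finset.mem_filter, Finset.mem_Ico] at hp
            rw [Finset.mem_filter, Finset.mem_Ioc]
            exact ⟨⟨hp.2.pos, hp.1.2.le⟩, hp.2⟩
          · intro p hp _
            rw [Finset.mem_filter, Finset.mem_Ioc] at hp
            exact Real.log_nonneg (by exact_mod_cast hp.2.one_le)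
  have h2 := Chebyshev.theta_le_log4_mul_x (x := (2 : ℝ) ^ (t + 1)) (by positivity)
  have h4 : Real.log 4 = 2 * Real.log 2 := by
    rw [show (4 : ℝ) = 2 ^ 2 by norm_num, Real.log_pow]; norm_num
  rw [h4] at h2
  rw [le_div_iff₀ ht0]
  have h6 : 2 * Real.log 2 * (2 : ℝ) ^ (t + 1) = 4 * 2 ^ t * Real.log 2 := by
    rw [pow_succ]; ring
  have h5 : (((Finset.Ico (2 ^ t) (2 ^ (t + 1))).filter Nat.Prime).card : ℝ) * t * Real.log 2
      ≤ 4 * 2 ^ t * Real.log 2 := by
    rw [← h6, mul_assoc]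
    exact h1.trans h2
  exact le_of_mul_le_mul_right h5 hl2

theorem sum_inv_dyadic (t : ℕ) (ht : 1 ≤ t) :
    ∑ p ∈ (Finset.Ico (2 ^ t) (2 ^ (t + 1))).filter Nat.Prime, (1 / (p : ℝ)) ≤ 4 / t := by
  have h1 : ∑ p ∈ (Finset.Ico (2 ^ t) (2 ^ (t + 1))).filter Nat.Prime, (1 / (p : ℝ))
      ≤ ∑ p ∈ (Finset.Ico (2 ^ t) (2 ^ (t + 1))).filter Nat.Prime, (1 / (2 : ℝ) ^ t) := by
    refine Finset.sum_le_sum fun p hp => ?_
    rw [Finset.mem_filter, Finset.mem_Ico] at hp
    have h2 : ((2 : ℝ) ^ t) ≤ p := by exact_mod_cast hp.1.1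
    exact one_div_le_one_div_of_le (by positivity) h2
  refine h1.trans ?_
  rw [Finset.sum_const, nsmul_eq_mul]
  have h3 := card_dyadic t ht
  have ht0 : (0 : ℝ) < t := by exact_mod_cast ht
  have h2t : (0 : ℝ) < 2 ^ t := by positivity
  calc _ ≤ (4 * 2 ^ t / t) * (1 / (2 : ℝ) ^ t) :=
        mul_le_mul_of_nonneg_right h3 (by positivity)
    _ = 4 / t := by field_simp

/-- Dyadic decomposition of a sum over primes. -/
theorem sum_dyadic_split (f : ℕ → ℝ) (a b : ℕ) (hab : a ≤ b) :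
    ∑ p ∈ (Finset.Ico (2 ^ a) (2 ^ b)).filter Nat.Prime, f p
      = ∑ t ∈ Finset.Ico a b, ∑ p ∈ (Finset.Ico (2 ^ t) (2 ^ (t + 1))).filter Nat.Prime, f p := by
  induction b, hab using Nat.le_induction with
  | base => simp
  | succ b hab ih =>
    rw [Finset.sum_Ico_succ_top hab, ← ih, ← Finset.sum_union]
    · congr 1
      rw [← Finset.filter_union, Finset.Ico_union_Ico_eq_Ico]
      · exact Nat.pow_le_pow_right (by norm_num) hab
      · exact Nat.pow_le_pow_right (by norm_num) (Nat.le_succ b)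
    · rw [Finset.disjoint_left]
      intro p hp hp'
      rw [Finset.mem_filter, Finset.mem_Ico] at hp hp'
      omega

theorem group_bound (i : ℕ) :
    ∑ p ∈ (Finset.range (2 ^ 2 ^ (i + 1))).filter (fun p => p.Prime ∧ 2 ^ 2 ^ i ≤ p),
      (1 / (p : ℝ)) ≤ 4 := by
  have hset : (Finset.range (2 ^ 2 ^ (i + 1))).filter (fun p => p.Prime ∧ 2 ^ 2 ^ i ≤ p)
      = (Finset.Ico (2 ^ 2 ^ i) (2 ^ 2 ^ (i + 1))).filter Nat.Prime := by
    ext p
    simp only [Finset.mem_filter, Finset.mem_range, Finset.mem_Ico]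
    tauto
  rw [hset, sum_dyadic_split _ _ _ (Nat.pow_le_pow_right (by norm_num) (Nat.le_succ i))]
  have h1 : ∀ t ∈ Finset.Ico (2 ^ i) (2 ^ (i + 1)),
      ∑ p ∈ (Finset.Ico (2 ^ t) (2 ^ (t + 1))).filter Nat.Prime, (1 / (p : ℝ)) ≤ 4 / 2 ^ i := by
    intro t ht
    rw [Finset.mem_Ico] at ht
    have h2 : 1 ≤ t := le_trans Nat.one_le_two_pow ht.1
    refine (sum_inv_dyadic t h2).trans ?_
    have h3 : ((2 : ℝ) ^ i) ≤ t := by exact_mod_cast ht.1
    exact div_le_div_of_nonneg_left (by norm_num) (by positivity) h3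
  refine (Finset.sum_le_sum h1).trans ?_
  rw [Finset.sum_const, Nat.card_Ico, nsmul_eq_mul]
  have h4 : 2 ^ (i + 1) - 2 ^ i = 2 ^ i := by rw [pow_succ]; omega
  rw [h4]
  push_cast
  have : (0 : ℝ) < 2 ^ i := by positivity
  apply le_of_eq
  field_simp

/-! ### Mertens' first theorem -/

theorem log_factorial_eq (n : ℕ) :
    Real.log (n.factorial : ℝ) = ∑ p ∈ (Finset.range (n + 1)).filter Nat.Prime,
      ((n.factorial).factorization p : ℝ) * Real.log p := by
  rw [Real.log_nat_eq_sum_factorization]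
  rw [Finsupp.sum_of_support_subset _ _ _ (by simp)]
  intro p hp
  have hp' : p ∈ n.factorial.primeFactors := hp
  have hpp := Nat.prime_of_mem_primeFactors hp'
  have hpd := Nat.dvd_of_mem_primeFactors hp'
  rw [Finset.mem_filter, Finset.mem_range]
  exact ⟨Nat.lt_succ_of_le ((Nat.Prime.dvd_factorial hpp).1 hpd), hpp⟩

theorem mertens_first_upper (n : ℕ) (hn : 1 ≤ n) :
    ∑ p ∈ (Finset.range (n + 1)).filter Nat.Prime, Real.log p / p
      ≤ Real.log n + Real.log 4 := by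
  have hn0 : (0 : ℝ) < n := by exact_mod_cast hn
  have h1 : Real.log (n.factorial : ℝ) ≤ n * Real.log n := by
    calc Real.log (n.factorial : ℝ) ≤ Real.log ((n ^ n : ℕ) : ℝ) := by
          refine Real.log_le_log (by exact_mod_cast Nat.factorial_pos n) ?_
          exact_mod_cast Nat.factorial_le_pow n
      _ = n * Real.log n := by push_cast; rw [Real.log_pow]
  have h2 : n * ∑ p ∈ (Finset.range (n + 1)).filter Nat.Prime, Real.log p / p
      - ∑ p ∈ (Finset.range (n + 1)).filter Nat.Prime, Real.log p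
      ≤ Real.log (n.factorial : ℝ) := by
    rw [log_factorial_eq, Finset.mul_sum, ← Finset.sum_sub_distrib]
    refine Finset.sum_le_sum fun p hp => ?_
    rw [Finset.mem_filter, Finset.mem_range] at hp
    have hpp := hp.2
    have hp0 : (0 : ℝ) < p := by exact_mod_cast hpp.pos
    have hlog : 0 ≤ Real.log p := Real.log_nonneg (by exact_mod_cast hpp.one_le)
    have h3 : (n / p : ℕ) ≤ (n.factorial).factorization p := by
      have hfac := Nat.factorization_factorial hpp (n := n) (b := Nat.log p n + 2) (by omega)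
      rw [hfac]
      have : n / p = n / p ^ 1 := by rw [pow_one]
      rw [this]
      exact Finset.single_le_sum (f := fun i => n / p ^ i) (fun _ _ => Nat.zero_le _)
        (Finset.mem_Ico.2 ⟨le_rfl, by omega⟩)
    have h4 : (n : ℝ) / p - 1 ≤ ((n / p : ℕ) : ℝ) := by
      have := Nat.lt_floor_add_one ((n : ℝ) / p)
      rw [Nat.floor_div_eq_div] at this
      linarith
    have h5 : ((n / p : ℕ) : ℝ) ≤ ((n.factorial).factorization p : ℝ) := by exact_mod_cast h3
    have h6 : (n : ℝ) * (Real.log p / p) - Real.log p = ((n : ℝ) / p - 1) * Real.log p := by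
      field_simp
    rw [h6]
    exact mul_le_mul_of_nonneg_right (h4.trans h5) hlog
  have h3 : ∑ p ∈ (Finset.range (n + 1)).filter Nat.Prime, Real.log p ≤ Real.log 4 * n := by
    have h := Chebyshev.theta_le_log4_mul_x (x := (n : ℝ)) hn0.le
    refine le_trans (le_of_eq ?_) h
    unfold Chebyshev.theta
    rw [Nat.floor_natCast]
    refine Finset.sum_congr ?_ fun _ _ => rfl
    ext p
    simp only [Finset.mem_filter, Finset.mem_range, Finset.mem_Ioc]
    constructor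
    · rintro ⟨h1, h2⟩; exact ⟨⟨h2.pos, by omega⟩, h2⟩
    · rintro ⟨h1, h2⟩; exact ⟨by omega, h2⟩
  have h4 : n * ∑ p ∈ (Finset.range (n + 1)).filter Nat.Prime, Real.log p / p
      ≤ n * (Real.log n + Real.log 4) := by linarith
  exact le_of_mul_le_mul_left h4 hn0

theorem log_div_sub_le (p : ℕ) (hp : 2 ≤ p) :
    Real.log p * (1 / ((p : ℝ) - 1) - 1 / p) ≤ 4 * (1 / (p : ℝ) ^ (3 / 2 : ℝ)) := by
  have hp2 : (2 : ℝ) ≤ p := by exact_mod_cast hp
  have hp0 : (0 : ℝ) < p := by linarith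
  have h1 : Real.log p ≤ 2 * (p : ℝ) ^ (1 / 2 : ℝ) := by
    have h := Real.log_le_rpow_div hp0.le (ε := (1 / 2 : ℝ)) (by norm_num)
    linarith [h, (by ring : (p : ℝ) ^ (1 / 2 : ℝ) / (1 / 2) = 2 * (p : ℝ) ^ (1 / 2 : ℝ))]
  have h2 : 1 / ((p : ℝ) - 1) - 1 / p ≤ 2 / (p : ℝ) ^ (2 : ℝ) := by
    have h3 : 1 / ((p : ℝ) - 1) - 1 / p = 1 / (((p : ℝ) - 1) * p) := by
      have : (p : ℝ) - 1 ≠ 0 := by linarith
      field_simp
      ring
    rw [h3, Real.rpow_two, div_le_div_iff₀ (by nlinarith) (by positivity)]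
    nlinarith
  have h0 : 0 ≤ 1 / ((p : ℝ) - 1) - 1 / p := by
    rw [sub_nonneg]
    exact one_div_le_one_div_of_le (by linarith) (by linarith)
  have hx : (p : ℝ) ^ (2 : ℝ) = (p : ℝ) ^ (1 / 2 : ℝ) * (p : ℝ) ^ (3 / 2 : ℝ) := by
    rw [← Real.rpow_add hp0]; norm_num
  have ha : 0 < (p : ℝ) ^ (1 / 2 : ℝ) := Real.rpow_pos_of_pos hp0 _
  have hb : 0 < (p : ℝ) ^ (3 / 2 : ℝ) := Real.rpow_pos_of_pos hp0 _
  calc Real.log p * (1 / ((p : ℝ) - 1) - 1 / p)
      ≤ (2 * (p : ℝ) ^ (1 / 2 : ℝ)) * (2 / (p : ℝ) ^ (2 : ℝ)) := by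
        refine mul_le_mul h1 h2 h0 (by positivity)
    _ = 4 * (1 / (p : ℝ) ^ (3 / 2 : ℝ)) := by
        rw [hx]; field_simp; norm_num

theorem mertens_first_lower : ∃ C : ℝ, ∀ n : ℕ, 1 ≤ n →
    Real.log n - C ≤ ∑ p ∈ (Finset.range (n + 1)).filter Nat.Prime, Real.log p / p := by
  have hsum : Summable fun m : ℕ => 1 / (m : ℝ) ^ (3 / 2 : ℝ) :=
    Real.summable_one_div_nat_rpow.2 (by norm_num)
  refine ⟨1 + 4 * ∑' m : ℕ, 1 / (m : ℝ) ^ (3 / 2 : ℝ), fun n hn => ?_⟩
  have hn0 : (0 : ℝ) < n := by exact_mod_cast hn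
  have h1 : (n : ℝ) * Real.log n - n ≤ Real.log (n.factorial : ℝ) := by
    have h := Stirling.le_log_factorial_stirling (n := n) (by omega)
    have h2 : 0 ≤ Real.log n := Real.log_nonneg (by exact_mod_cast hn)
    have h3 : 0 ≤ Real.log (2 * Real.pi) := Real.log_nonneg (by
      have := Real.pi_gt_three; linarith)
    linarith
  have h2 : Real.log (n.factorial : ℝ)
      ≤ n * (∑ p ∈ (Finset.range (n + 1)).filter Nat.Prime, Real.log p / p
        + 4 * ∑' m : ℕ, 1 / (m : ℝ) ^ (3 / 2 : ℝ)) := by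
    have h3 : ∑ p ∈ (Finset.range (n + 1)).filter Nat.Prime, 4 * (1 / (p : ℝ) ^ (3 / 2 : ℝ))
        ≤ 4 * ∑' m : ℕ, 1 / (m : ℝ) ^ (3 / 2 : ℝ) := by
      rw [← Finset.mul_sum]
      refine mul_le_mul_of_nonneg_left ?_ (by norm_num)
      exact hsum.sum_le_tsum _ fun i _ => by positivity
    refine le_trans ?_ (mul_le_mul_of_nonneg_left (add_le_add_right h3 _) hn0.le)
    rw [log_factorial_eq, ← Finset.sum_add_distrib, Finset.mul_sum]
    refine Finset.sum_le_sum fun p hp => ?_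
    rw [Finset.mem_filter, Finset.mem_range] at hp
    have hpp := hp.2
    have hp2 : (2 : ℝ) ≤ p := by exact_mod_cast hpp.two_le
    have hp0 : (0 : ℝ) < p := by linarith
    have hlog : 0 ≤ Real.log p := Real.log_nonneg (by linarith)
    have h4 := Nat.factorization_factorial_le_div_pred hpp n
    have h5 : ((n.factorial).factorization p : ℝ) ≤ (n : ℝ) / ((p : ℝ) - 1) := by
      calc ((n.factorial).factorization p : ℝ) ≤ ((n / (p - 1) : ℕ) : ℝ) := by exact_mod_cast h4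
        _ ≤ (n : ℝ) / ((p - 1 : ℕ) : ℝ) := Nat.cast_div_le
        _ = (n : ℝ) / ((p : ℝ) - 1) := by
            rw [Nat.cast_sub hpp.one_le]; simp
    have h6 := log_div_sub_le p hpp.two_le
    calc ((n.factorial).factorization p : ℝ) * Real.log p
        ≤ ((n : ℝ) / ((p : ℝ) - 1)) * Real.log p := mul_le_mul_of_nonneg_right h5 hlog
      _ = n * (Real.log p / p + Real.log p * (1 / ((p : ℝ) - 1) - 1 / p)) := by ring
      _ ≤ _ := by
          refine mul_le_mul_of_nonneg_left ?_ hn0.le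
          linarith
  have h3 : (n : ℝ) * (Real.log n - 1 - 4 * ∑' m : ℕ, 1 / (m : ℝ) ^ (3 / 2 : ℝ))
      ≤ n * ∑ p ∈ (Finset.range (n + 1)).filter Nat.Prime, Real.log p / p := by
    nlinarith
  have h4 := le_of_mul_le_mul_left h3 hn0
  linarith

/-! ### Summation by parts -/

theorem abel_bound (w E : ℕ → ℝ) (C : ℝ) (hw : ∀ t, 0 ≤ w t) (hanti : ∀ t, w (t + 1) ≤ w t)
    (hE : ∀ t, |E t| ≤ C) (n : ℕ) :
    |∑ t ∈ Finset.range n, w t * (E (t + 1) - E t)| ≤ 2 * C * w 0 := by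
  have hC : 0 ≤ C := (abs_nonneg _).trans (hE 0)
  have key : ∀ n, |∑ t ∈ Finset.range n, w t * (E (t + 1) - E t) - w n * E n + w 0 * E 0|
      ≤ C * (w 0 - w n) := by
    intro n
    induction n with
    | zero => simp
    | succ n ih =>
      rw [Finset.sum_range_succ]
      have e : ∑ t ∈ Finset.range n, w t * (E (t + 1) - E t) + w n * (E (n + 1) - E n)
          - w (n + 1) * E (n + 1) + w 0 * E 0
          = (∑ t ∈ Finset.range n, w t * (E (t + 1) - E t) - w n * E n + w 0 * E 0)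
            + (w n - w (n + 1)) * E (n + 1) := by ring
      rw [e]
      refine (abs_add_le _ _).trans ?_
      have h1 : |(w n - w (n + 1)) * E (n + 1)| ≤ (w n - w (n + 1)) * C := by
        rw [abs_mul, abs_of_nonneg (by linarith [hanti n])]
        exact mul_le_mul_of_nonneg_left (hE _) (by linarith [hanti n])
      linarith
  have h1 := key n
  have h2 : |w n * E n| ≤ w n * C := by
    rw [abs_mul, abs_of_nonneg (hw n)]
    exact mul_le_mul_of_nonneg_left (hE n) (hw n)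
  have h3 : |w 0 * E 0| ≤ w 0 * C := by
    rw [abs_mul, abs_of_nonneg (hw 0)]
    exact mul_le_mul_of_nonneg_left (hE 0) (hw 0)
  rw [abs_le] at h1 h2 h3 ⊢
  constructor <;> nlinarith [h1.1, h1.2, h2.1, h2.2, h3.1, h3.2]

/-- `bt t = ∑_{p < 2^(t+1)} log p / p`. -/
noncomputable def bt (t : ℕ) : ℝ :=
  ∑ p ∈ (Finset.range (2 ^ (t + 1))).filter Nat.Prime, Real.log p / p

theorem bt_bound : ∃ C : ℝ, 0 ≤ C ∧ ∀ t : ℕ, |bt t - (t + 1) * Real.log 2| ≤ C := by
  obtain ⟨C0, hC0⟩ := mertens_first_lower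
  have hl2 : 0 < Real.log 2 := Real.log_pos (by norm_num)
  refine ⟨|C0| + Real.log 4 + Real.log 2, by positivity, fun t => ?_⟩
  have hp : 2 ≤ 2 ^ (t + 1) := by
    calc 2 = 2 ^ 1 := by norm_num
      _ ≤ 2 ^ (t + 1) := Nat.pow_le_pow_right (by norm_num) (by omega)
  have h1 : 1 ≤ 2 ^ (t + 1) - 1 := by omega
  have e : 2 ^ (t + 1) - 1 + 1 = 2 ^ (t + 1) := by omega
  have hu := mertens_first_upper (2 ^ (t + 1) - 1) h1
  have hl := hC0 (2 ^ (t + 1) - 1) h1
  rw [e] at hu hl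
  have hcast : ((2 ^ (t + 1) - 1 : ℕ) : ℝ) = 2 ^ (t + 1) - 1 := by
    rw [Nat.cast_sub (by omega)]; push_cast; ring
  have h2 : Real.log ((2 ^ (t + 1) - 1 : ℕ) : ℝ) ≤ (t + 1) * Real.log 2 := by
    have : (t + 1) * Real.log 2 = Real.log (2 ^ (t + 1)) := by
      rw [Real.log_pow]; push_cast; ring
    rw [this, hcast]
    have h3 : (2 : ℝ) ≤ 2 ^ (t + 1) := by exact_mod_cast hp
    exact Real.log_le_log (by linarith) (by linarith)
  have h3 : (t + 1) * Real.log 2 - Real.log 2 ≤ Real.log ((2 ^ (t + 1) - 1 : ℕ) : ℝ) := by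
    have : (t + 1) * Real.log 2 - Real.log 2 = Real.log (2 ^ t) := by
      rw [Real.log_pow]; ring
    rw [this, hcast]
    have h4 : (1 : ℝ) ≤ 2 ^ t := one_le_pow₀ (by norm_num)
    exact Real.log_le_log (by positivity) (by rw [pow_succ]; linarith)
  have hC := le_abs_self C0
  have h4 : 0 ≤ Real.log 4 := Real.log_nonneg (by norm_num)
  have h5 := abs_nonneg C0
  unfold bt
  rw [abs_le]
  constructor <;> linarith

theorem bt_succ_sub (t : ℕ) : bt (t + 1) - bt t
    = ∑ p ∈ (Finset.Ico (2 ^ (t + 1)) (2 ^ (t + 1 + 1))).filter Nat.Prime, Real.log p / p := by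
  unfold bt
  have h : (Finset.range (2 ^ (t + 1 + 1))).filter Nat.Prime
      = (Finset.range (2 ^ (t + 1))).filter Nat.Prime
        ∪ (Finset.Ico (2 ^ (t + 1)) (2 ^ (t + 1 + 1))).filter Nat.Prime := by
    rw [← Finset.filter_union]
    congr 1
    ext x
    have : 2 ^ (t + 1) ≤ 2 ^ (t + 1 + 1) := Nat.pow_le_pow_right (by norm_num) (by omega)
    simp only [Finset.mem_range, Finset.mem_union, Finset.mem_Ico]
    omega
  rw [h, Finset.sum_union]
  · ring
  · rw [Finset.disjoint_left]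
    intro p hp hp'
    rw [Finset.mem_filter, Finset.mem_range] at hp
    rw [Finset.mem_filter, Finset.mem_Ico] at hp'
    omega

theorem dyadic_two_sided (t : ℕ) :
    (bt (t + 1) - bt t) / ((t + 2) * Real.log 2)
      ≤ ∑ p ∈ (Finset.Ico (2 ^ (t + 1)) (2 ^ (t + 1 + 1))).filter Nat.Prime, (1 / (p : ℝ)) ∧
    ∑ p ∈ (Finset.Ico (2 ^ (t + 1)) (2 ^ (t + 1 + 1))).filter Nat.Prime, (1 / (p : ℝ))
      ≤ (bt (t + 1) - bt t) / ((t + 1) * Real.log 2) := by
  have hl2 : 0 < Real.log 2 := Real.log_pos (by norm_num)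
  have ht0 : (0 : ℝ) ≤ t := by positivity
  rw [bt_succ_sub, Finset.sum_div, Finset.sum_div]
  constructor
  · refine Finset.sum_le_sum fun p hp => ?_
    rw [Finset.mem_filter, Finset.mem_Ico] at hp
    have hp0 : (0 : ℝ) < p := by exact_mod_cast hp.2.pos
    have h1 : Real.log p ≤ (t + 2) * Real.log 2 := by
      have : ((t : ℝ) + 2) * Real.log 2 = Real.log ((2 ^ (t + 1 + 1) : ℕ) : ℝ) := by
        push_cast; rw [Real.log_pow]; push_cast; ring
      rw [this]
      exact Real.log_le_log hp0 (by exact_mod_cast hp.1.2.le)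
    rw [div_div, div_le_div_iff₀ (by positivity) hp0]
    nlinarith
  · refine Finset.sum_le_sum fun p hp => ?_
    rw [Finset.mem_filter, Finset.mem_Ico] at hp
    have hp0 : (0 : ℝ) < p := by exact_mod_cast hp.2.pos
    have h1 : (t + 1) * Real.log 2 ≤ Real.log p := by
      have : ((t : ℝ) + 1) * Real.log 2 = Real.log ((2 ^ (t + 1) : ℕ) : ℝ) := by
        push_cast; rw [Real.log_pow]; push_cast; ring
      rw [this]
      exact Real.log_le_log (by positivity) (by exact_mod_cast hp.1.1)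
    rw [div_div, div_le_div_iff₀ hp0 (by positivity)]
    nlinarith

theorem harmonic_sum (n : ℕ) : ∑ t ∈ Finset.range n, (1 / ((t : ℝ) + 1)) = (harmonic n : ℝ) := by
  unfold harmonic
  push_cast
  refine Finset.sum_congr rfl fun t _ => ?_
  rw [one_div]

theorem sum_prime_inv_eq (n : ℕ) :
    ∑ p ∈ (Finset.range (2 ^ (n + 1))).filter Nat.Prime, (1 / (p : ℝ))
      = ∑ t ∈ Finset.range n,
        ∑ p ∈ (Finset.Ico (2 ^ (t + 1)) (2 ^ (t + 1 + 1))).filter Nat.Prime, (1 / (p : ℝ)) := by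
  have h := sum_dyadic_split (fun p => 1 / (p : ℝ)) 1 (n + 1) (by omega)
  have h2 : (Finset.range (2 ^ (n + 1))).filter Nat.Prime
      = (Finset.Ico (2 ^ 1) (2 ^ (n + 1))).filter Nat.Prime := by
    ext p
    simp only [Finset.mem_filter, Finset.mem_range, Finset.mem_Ico]
    constructor
    · rintro ⟨h1, h2⟩; exact ⟨⟨by simpa using h2.two_le, h1⟩, h2⟩
    · rintro ⟨h1, h2⟩; exact ⟨h1.2, h2⟩
  rw [h2, h, Finset.range_eq_Ico, Finset.sum_Ico_add' (fun t =>
    ∑ p ∈ (Finset.Ico (2 ^ t) (2 ^ (t + 1))).filter Nat.Prime, (1 / (p : ℝ))) 0 n 1]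

theorem mertens_aux : ∃ C : ℝ, ∀ n : ℕ,
    |∑ p ∈ (Finset.range (2 ^ (n + 1))).filter Nat.Prime, (1 / (p : ℝ)) - Real.log (n + 1)| ≤ C := by
  obtain ⟨C, hC0, hC⟩ := bt_bound
  have hl2 : 0 < Real.log 2 := Real.log_pos (by norm_num)
  refine ⟨1 + 2 * C / Real.log 2, fun n => ?_⟩
  set E : ℕ → ℝ := fun t => bt t - (t + 1) * Real.log 2 with hE
  have hbt : ∀ t, bt (t + 1) - bt t = Real.log 2 + (E (t + 1) - E t) := by
    intro t; simp only [hE]; push_cast; ring
  have hA1 := abel_bound (fun t => 1 / ((t : ℝ) + 1)) E C (fun t => by positivity)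
    (fun t => by
      push_cast
      exact one_div_le_one_div_of_le (by positivity) (by linarith)) hC n
  have hA2 := abel_bound (fun t => 1 / ((t : ℝ) + 2)) E C (fun t => by positivity)
    (fun t => by
      push_cast
      exact one_div_le_one_div_of_le (by positivity) (by linarith)) hC n
  have hup : ∑ p ∈ (Finset.range (2 ^ (n + 1))).filter Nat.Prime, (1 / (p : ℝ))
      ≤ (harmonic n : ℝ) + (∑ t ∈ Finset.range n, 1 / ((t : ℝ) + 1) * (E (t + 1) - E t))
        / Real.log 2 := by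
    rw [sum_prime_inv_eq, ← harmonic_sum, Finset.sum_div, ← Finset.sum_add_distrib]
    refine Finset.sum_le_sum fun t _ => (dyadic_two_sided t).2.trans (le_of_eq ?_)
    rw [hbt]
    field_simp
  have hlo : (harmonic (n + 1) : ℝ) - 1
      + (∑ t ∈ Finset.range n, 1 / ((t : ℝ) + 2) * (E (t + 1) - E t)) / Real.log 2
      ≤ ∑ p ∈ (Finset.range (2 ^ (n + 1))).filter Nat.Prime, (1 / (p : ℝ)) := by
    have h1 : (harmonic (n + 1) : ℝ) - 1 = ∑ t ∈ Finset.range n, 1 / ((t : ℝ) + 2) := by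
      rw [← harmonic_sum, Finset.sum_range_succ']
      simp only [Nat.cast_zero, zero_add, div_one, add_sub_cancel_right]
      refine Finset.sum_congr rfl fun t _ => ?_
      push_cast; ring
    rw [h1, sum_prime_inv_eq, Finset.sum_div, ← Finset.sum_add_distrib]
    refine Finset.sum_le_sum fun t _ => le_trans (le_of_eq ?_) (dyadic_two_sided t).1
    rw [hbt]
    field_simp
  have hh1 : (harmonic n : ℝ) ≤ 1 + Real.log (n + 1) := by
    refine (harmonic_le_one_add_log n).trans ?_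
    rcases Nat.eq_zero_or_pos n with h | h
    · subst h; simp
    · have : Real.log n ≤ Real.log (n + 1) :=
        Real.log_le_log (by exact_mod_cast h) (by linarith)
      linarith
  have hh2 : Real.log (n + 1) ≤ (harmonic (n + 1) : ℝ) := by
    have h := log_add_one_le_harmonic (n + 1)
    have h3 : Real.log ((n : ℝ) + 1) ≤ Real.log ((n + 1 + 1 : ℕ) : ℝ) := by
      push_cast
      exact Real.log_le_log (by positivity) (by linarith)
    linarith
  simp only [Nat.cast_zero, zero_add, div_one, mul_one] at hA1 hA2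
  rw [abs_le] at hA1 hA2
  have h5 : (∑ t ∈ Finset.range n, 1 / ((t : ℝ) + 1) * (E (t + 1) - E t)) / Real.log 2
      ≤ 2 * C / Real.log 2 := div_le_div_of_nonneg_right hA1.2 hl2.le
  have h6 : -(2 * C / Real.log 2)
      ≤ (∑ t ∈ Finset.range n, 1 / ((t : ℝ) + 2) * (E (t + 1) - E t)) / Real.log 2 := by
    rw [← neg_div]
    refine div_le_div_of_nonneg_right ?_ hl2.le
    linarith [hA2.1]
  rw [abs_le]
  constructor <;> linarith

theorem mertens : ∃ C : ℝ, ∀ J : ℕ,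
    |∑ p ∈ (Finset.range (2 ^ 2 ^ J)).filter Nat.Prime, (1 / (p : ℝ)) - J * Real.log 2| ≤ C := by
  obtain ⟨C, hC⟩ := mertens_aux
  refine ⟨C, fun J => ?_⟩
  obtain ⟨n, hn⟩ : ∃ n, 2 ^ J = n + 1 := ⟨2 ^ J - 1, by have := Nat.one_le_two_pow (n := J); omega⟩
  have h := hC n
  have h2 : Real.log ((n : ℝ) + 1) = J * Real.log 2 := by
    have : ((n : ℝ) + 1) = 2 ^ J := by exact_mod_cast hn.symm
    rw [this, Real.log_pow]
  rw [h2, ← hn] at h
  exact h

end EK
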