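import Pool.Agent.EK.Defs

/-!
# MODULE E1: decomposition of the Beatty sequence into arithmetic progressions

Paper proof of `classes`.  Write `n = q k + r` (`k = n / q`, `r = n % q`).  Then
`⌊α n + β⌋ = a k + h_r(k)`, `h_r(k) = ⌊(α q - a) k + α r + β⌋`, and `h_r` is monotone in `k` (nondecreasing
if `α q ≥ a`, nonincreasing otherwise).  On `0 ≤ k ≤ N/q` it takes values in an integer interval of
at most `|αq-a| N/q + 2 ≤ N/(q (Q+1)) + 2` elements.  For each pair `(r, c)` the set
`K(r,c) = {k : n0 < q k + r ≤ N, h_r(k) = c}` is order-connected, i.e. an interval of integers, and for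
`k ∈ K(r,c)`, `m n = a k + c`.  For `p ∣ a`: `p ∣ m n ↔ p ∣ c`, so `U P (m n)` is constant on `K(r,c)`.
For `d` coprime to `a`, `d ∣ a k + c` iff `k` lies in one residue class modulo `d`, and the number of
`k ∈ K(r,c)` in a residue class modulo `d` is within `1` of `#K(r,c)/d` (`Int.Ico_filter_modEq_card`).
Sum over the pairs `(r,c)` on which `U P = j`: the total error is at most the number of pairs,
`≤ q (N/(q (Q+1)) + 2) = N/(Q+1) + 2q`.
-/

namespace EK

open Finset

/-- An interval of integers contains nearly the expected number of elements of a residue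
class. -/
theorem card_ordConnected (S : Finset ℤ) (hS : Set.OrdConnected (S : Set ℤ)) (d : ℕ) (hd : 0 < d)
    (v : ℤ) : |((S.filter (fun k => k ≡ v [ZMOD d])).card : ℝ) - S.card / d| ≤ 1 := by
  rcases S.eq_empty_or_nonempty with rfl | hne
  · simp
  set m := S.min' hne with hm
  set M := S.max' hne with hM
  have hmM : m ≤ M := S.min'_le _ (S.max'_mem hne)
  have hSI : S = Ico m (M + 1) := by
    ext k
    rw [mem_Ico]
    constructor
    · intro hk
      exact ⟨S.min'_le k hk, by linarith [S.le_max' k hk]⟩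
    · rintro ⟨h1, h2⟩
      have : k ∈ (S : Set ℤ) := hS.out (mem_coe.2 (S.min'_mem hne)) (mem_coe.2 (S.max'_mem hne))
        ⟨h1, by omega⟩
      exact mem_coe.1 this
  have hdz : (0 : ℤ) < (d : ℤ) := by exact_mod_cast hd
  have hdR : (0 : ℝ) < (d : ℝ) := by exact_mod_cast hd
  have hdQ : (0 : ℚ) < (d : ℚ) := by exact_mod_cast hd
  have h1 := Int.Ico_filter_modEq_card (a := m) (b := M + 1) hdz v
  have hcard : (S.card : ℝ) = (M : ℝ) + 1 - m := by
    rw [hSI, Int.card_Ico]
    have : (((M + 1 - m).toNat : ℤ) : ℝ) = ((M + 1 - m : ℤ) : ℝ) := by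
      rw [Int.toNat_of_nonneg (by omega)]
    rw [Int.cast_natCast] at this
    rw [this]; push_cast; ring
  rw [hcard]
  rw [hSI]
  set x : ℚ := (((M + 1 : ℤ) : ℚ) - v) / ((d : ℤ) : ℚ) with hx
  set y : ℚ := ((m : ℚ) - v) / ((d : ℤ) : ℚ) with hy
  have hxy : y ≤ x := by
    rw [hx, hy]
    push_cast
    apply div_le_div_of_nonneg_right _ hdQ.le
    have : (m : ℚ) ≤ (M : ℚ) := by exact_mod_cast hmM
    linarith
  have hcyx : ⌈y⌉ ≤ ⌈x⌉ := Int.ceil_le_ceil hxy
  rw [max_eq_left (by linarith)] at h1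
  have h2 : ((#{k ∈ Ico m (M + 1) | k ≡ v [ZMOD (d : ℤ)]} : ℤ) : ℚ) = (⌈x⌉ : ℚ) - ⌈y⌉ := by
    rw [h1]; push_cast; ring
  have h3 : |((#{k ∈ Ico m (M + 1) | k ≡ v [ZMOD (d : ℤ)]} : ℤ) : ℚ) - (x - y)| ≤ 1 := by
    rw [h2, abs_le]
    have a1 := Int.le_ceil x
    have a2 := Int.ceil_lt_add_one x
    have a3 := Int.le_ceil y
    have a4 := Int.ceil_lt_add_one y
    constructor <;> linarith
  have h4 : x - y = ((M : ℚ) + 1 - m) / d := by
    rw [hx, hy]; push_cast; field_simp; ring
  rw [h4] at h3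
  have h5 : |((#{k ∈ Ico m (M + 1) | k ≡ v [ZMOD (d : ℤ)]} : ℕ) : ℝ) - ((M : ℝ) + 1 - m) / d| ≤ 1 := by
    exact_mod_cast h3
  exact h5

/-- divisibility by a prime of `a` depends on `c` only -/
theorem U_eq_of_class {P : Finset ℕ} {a : ℕ} (hP : P ⊆ a.primeFactors) {m k c : ℤ}
    (hm : 0 < m) (hmk : m = a * k + c) :
    U P m.toNat = (P.filter (fun p : ℕ => (p : ℤ) ∣ c)).card := by
  unfold U
  congr 1
  apply Finset.filter_congr
  intro p hp
  have hpa : (p : ℤ) ∣ (a : ℤ) := by
    exact_mod_cast Nat.dvd_of_mem_primeFactors (hP hp)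
  have h1 : (p ∣ m.toNat) ↔ ((p : ℤ) ∣ m) := by
    rw [← Int.natCast_dvd_natCast, Int.toNat_of_nonneg hm.le]
  rw [h1, hmk]
  exact Int.dvd_add_right (hpa.mul_right k)

/-- the value of `h_r(k)` -/
theorem floor_class (α β : ℝ) (a q n : ℕ) (hq : 0 < q) :
    ⌊α * n + β⌋ - a * ((n / q : ℕ) : ℤ) =
      ⌊(α * q - a) * ((n / q : ℕ) : ℝ) + α * ((n % q : ℕ) : ℝ) + β⌋ := by
  have h1 : (n : ℝ) = q * ((n / q : ℕ) : ℝ) + ((n % q : ℕ) : ℝ) := by
    exact_mod_cast (Nat.div_add_mod n q).symm
  have h2 : (α * q - a) * ((n / q : ℕ) : ℝ) + α * ((n % q : ℕ) : ℝ) + β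
      = (α * n + β) - ((a * ((n / q : ℕ) : ℤ) : ℤ) : ℝ) := by
    rw [h1, Int.cast_mul, Int.cast_natCast, Int.cast_natCast]
    ring
  rw [h2, Int.floor_sub_intCast]

theorem classes (α β : ℝ) (N n0 a q Q d : ℕ) (hq : 0 < q) (ha : 0 < a)
    (happ : |α * q - a| ≤ 1 / ((Q : ℝ) + 1))
    (hpos : ∀ n ∈ Finset.Ioc n0 N, 0 < ⌊α * n + β⌋)
    (P : Finset ℕ) (hP : P ⊆ a.primeFactors) (hd : 0 < d) (hda : Nat.Coprime d a) (j : ℕ) :
    |(((Finset.Ioc n0 N).filter (fun n : ℕ => U P (⌊α * n + β⌋.toNat) = j ∧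
          d ∣ ⌊α * n + β⌋.toNat)).card : ℝ)
        - ((Finset.Ioc n0 N).filter (fun n : ℕ => U P (⌊α * n + β⌋.toNat) = j)).card / d|
      ≤ N / ((Q : ℝ) + 1) + 3 * q := by
  classical
  have hqR : (0 : ℝ) < q := by exact_mod_cast hq
  have hQR : (0 : ℝ) < (Q : ℝ) + 1 := by positivity
  have hdR : (0 : ℝ) < (d : ℝ) := by exact_mod_cast hd
  set key : ℕ → ℕ × ℤ := fun n => (n % q, ⌊α * n + β⌋ - a * ((n / q : ℕ) : ℤ)) with hkey
  set T := (Finset.Ioc n0 N).image key with hT
  set A := (Finset.Ioc n0 N).filter (fun n : ℕ => U P (⌊α * n + β⌋.toNat) = j ∧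
          d ∣ ⌊α * n + β⌋.toNat) with hA
  set B := (Finset.Ioc n0 N).filter (fun n : ℕ => U P (⌊α * n + β⌋.toNat) = j) with hB
  have hAT : ∀ n ∈ A, key n ∈ T := fun n hn => mem_image_of_mem _ (mem_of_mem_filter n hn)
  have hBT : ∀ n ∈ B, key n ∈ T := fun n hn => mem_image_of_mem _ (mem_of_mem_filter n hn)
  have hcA := card_eq_sum_card_fiberwise (f := key) (s := A) (t := T) hAT
  have hcB := card_eq_sum_card_fiberwise (f := key) (s := B) (t := T) hBT
  -- each class
  have hclass : ∀ t ∈ T, |((#{n ∈ A | key n = t} : ℕ) : ℝ) - (#{n ∈ B | key n = t} : ℕ) / d| ≤ 1 := by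
    rintro ⟨r, c⟩ ht
    set Bt := {n ∈ B | key n = (r, c)} with hBt
    set At := {n ∈ A | key n = (r, c)} with hAt
    have hmemB : ∀ n, n ∈ Bt ↔ (n0 < n ∧ n ≤ N) ∧ U P (⌊α * n + β⌋.toNat) = j ∧ n % q = r ∧
        ⌊α * n + β⌋ - a * ((n / q : ℕ) : ℤ) = c := by
      intro n
      simp only [hBt, hB, hkey, mem_filter, mem_Ioc, Prod.mk.injEq]
      tauto
    have hmemA : ∀ n, n ∈ At ↔ n ∈ Bt ∧ d ∣ ⌊α * n + β⌋.toNat := by
      intro n
      simp only [hAt, hBt, hA, hB, mem_filter]
      tauto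
    set g : ℕ → ℤ := fun n => ((n / q : ℕ) : ℤ) with hg
    have hinj : Set.InjOn g (Bt : Set ℕ) := by
      intro n hn n' hn' hnn
      have h1 := (hmemB n).1 (mem_coe.1 hn)
      have h2 := (hmemB n').1 (mem_coe.1 hn')
      have h3 : n / q = n' / q := by
        simp only [hg] at hnn
        exact_mod_cast hnn
      rw [← Nat.div_add_mod n q, ← Nat.div_add_mod n' q, h3, h1.2.2.1, h2.2.2.1]
    set K := Bt.image g with hK
    have hcK : K.card = Bt.card := card_image_of_injOn hinj
    have hKo : Set.OrdConnected (K : Set ℤ) := by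
      refine ⟨?_⟩
      intro k1 hk1 k2 hk2 k hk
      rw [mem_coe, hK, mem_image] at hk1 hk2
      obtain ⟨n1, hn1, rfl⟩ := hk1
      obtain ⟨n2, hn2, rfl⟩ := hk2
      have b1 := (hmemB n1).1 hn1
      have b2 := (hmemB n2).1 hn2
      have hr : r < q := by rw [← b1.2.2.1]; exact Nat.mod_lt _ hq
      have hk0 : 0 ≤ k := le_trans (Int.natCast_nonneg _) hk.1
      obtain ⟨k', rfl⟩ := Int.eq_ofNat_of_zero_le hk0
      have hk1 : n1 / q ≤ k' := by
        have := hk.1; simp only [hg] at this; exact_mod_cast this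
      have hk2 : k' ≤ n2 / q := by
        have := hk.2; simp only [hg] at this; exact_mod_cast this
      have e1 : q * (n1 / q) + r = n1 := by rw [← b1.2.2.1]; exact Nat.div_add_mod n1 q
      have e2 : q * (n2 / q) + r = n2 := by rw [← b2.2.2.1]; exact Nat.div_add_mod n2 q
      set n := q * k' + r with hn
      have hnq : n / q = k' := by
        rw [hn, Nat.mul_add_div hq, Nat.div_eq_of_lt hr, add_zero]
      have hnr : n % q = r := by
        rw [hn, Nat.mul_add_mod, Nat.mod_eq_of_lt hr]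
      have hn1' : n1 ≤ n := by
        rw [← e1, hn]; exact Nat.add_le_add_right (Nat.mul_le_mul_left q hk1) r
      have hn2' : n ≤ n2 := by
        rw [← e2, hn]; exact Nat.add_le_add_right (Nat.mul_le_mul_left q hk2) r
      have hnI : n0 < n ∧ n ≤ N := ⟨lt_of_lt_of_le b1.1.1 hn1', le_trans hn2' b2.1.2⟩
      have c1 := b1.2.2.2
      have c2 := b2.2.2.2
      rw [floor_class α β a q n1 hq, b1.2.2.1] at c1
      rw [floor_class α β a q n2 hq, b2.2.2.1] at c2
      have hc : ⌊α * n + β⌋ - a * ((n / q : ℕ) : ℤ) = c := by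
        rw [floor_class α β a q n hq, hnq, hnr]
        have q1 : ((n1 / q : ℕ) : ℝ) ≤ (k' : ℝ) := by exact_mod_cast hk1
        have q2 : (k' : ℝ) ≤ ((n2 / q : ℕ) : ℝ) := by exact_mod_cast hk2
        rcases le_total 0 (α * q - a) with hs | hs
        · apply le_antisymm
          · rw [← c2]
            apply Int.floor_le_floor
            nlinarith
          · rw [← c1]
            apply Int.floor_le_floor
            nlinarith
        · apply le_antisymm
          · rw [← c1]
            apply Int.floor_le_floor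
            nlinarith
          · rw [← c2]
            apply Int.floor_le_floor
            nlinarith
      have hU : U P (⌊α * n + β⌋.toNat) = j := by
        rw [U_eq_of_class (k := ((n / q : ℕ) : ℤ)) (c := c) hP (hpos n (mem_Ioc.2 hnI))
          (by linarith)]
        rw [← b1.2.1, U_eq_of_class (k := ((n1 / q : ℕ) : ℤ)) (c := c) hP
          (hpos n1 (mem_Ioc.2 b1.1)) (by linarith [b1.2.2.2])]
      rw [mem_coe, hK, mem_image]
      refine ⟨n, (hmemB n).2 ⟨hnI, hU, hnr, hc⟩, ?_⟩
      simp only [hg, hnq]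
    -- the residue class
    obtain ⟨v, hv⟩ : ∃ v : ℤ, ∀ k : ℤ, (d : ℤ) ∣ a * k + c ↔ k ≡ v [ZMOD d] := by
      have hcop : IsCoprime (a : ℤ) (d : ℤ) := Nat.isCoprime_iff_coprime.2 hda.symm
      obtain ⟨x, y, hxy⟩ := hcop
      refine ⟨-x * c, fun k => ?_⟩
      rw [Int.modEq_iff_dvd]
      constructor
      · rintro ⟨e, he⟩
        refine ⟨-(x * e) - y * k, ?_⟩
        linear_combination (-x) * he + k * hxy
      · rintro ⟨e, he⟩
        refine ⟨-(a * e) + y * c, ?_⟩
        linear_combination (-(a : ℤ)) * he + (-c) * hxy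
    have hcA' : At.card = (K.filter (fun k => k ≡ v [ZMOD d])).card := by
      have : K.filter (fun k => k ≡ v [ZMOD d]) = At.image g := by
        ext k
        simp only [mem_filter, mem_image, hK]
        constructor
        · rintro ⟨⟨n, hn, rfl⟩, h2⟩
          refine ⟨n, (hmemA n).2 ⟨hn, ?_⟩, rfl⟩
          have b := (hmemB n).1 hn
          have hp := hpos n (mem_Ioc.2 b.1)
          rw [← Int.natCast_dvd_natCast, Int.toNat_of_nonneg hp.le]
          have h3 := (hv _).2 h2
          have h4 : (a : ℤ) * g n + c = ⌊α * n + β⌋ := by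
            simp only [hg]; linarith [b.2.2.2]
          rwa [h4] at h3
        · rintro ⟨n, hn, rfl⟩
          obtain ⟨h1, h2⟩ := (hmemA n).1 hn
          refine ⟨⟨n, h1, rfl⟩, ?_⟩
          have b := (hmemB n).1 h1
          have hp := hpos n (mem_Ioc.2 b.1)
          rw [← Int.natCast_dvd_natCast, Int.toNat_of_nonneg hp.le] at h2
          apply (hv _).1
          have h4 : (a : ℤ) * g n + c = ⌊α * n + β⌋ := by
            simp only [hg]; linarith [b.2.2.2]
          rwa [h4]
      rw [this, card_image_of_injOn]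
      exact hinj.mono (fun n hn => mem_coe.2 ((hmemA n).1 (mem_coe.1 hn)).1)
    rw [hcA', ← hcK]
    exact card_ordConnected K hKo d hd v
  -- the number of classes
  have hTcard : (T.card : ℝ) ≤ N / ((Q : ℝ) + 1) + 3 * q := by
    set L : ℝ := (N : ℝ) / (q * ((Q : ℝ) + 1)) with hL
    have hL0 : 0 ≤ L := by positivity
    -- intervals of values
    obtain ⟨lo, hi, hlohi, hcard⟩ : ∃ lo hi : ℕ → ℤ,
        (∀ n ∈ Ioc n0 N, lo (n % q) ≤ ⌊α * n + β⌋ - a * ((n / q : ℕ) : ℤ) ∧
          ⌊α * n + β⌋ - a * ((n / q : ℕ) : ℤ) ≤ hi (n % q)) ∧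
        ∀ r, ((hi r - lo r : ℤ) : ℝ) ≤ L + 1 := by
      have hyk : ∀ n ∈ Ioc n0 N, |(α * q - a) * ((n / q : ℕ) : ℝ)| ≤ L := by
        intro n hn
        rw [mem_Ioc] at hn
        rw [abs_mul, abs_of_nonneg (by positivity : (0 : ℝ) ≤ ((n / q : ℕ) : ℝ))]
        have h1 : ((n / q : ℕ) : ℝ) ≤ (N : ℝ) / q := by
          refine (Nat.cast_div_le).trans ?_
          apply div_le_div_of_nonneg_right _ hqR.le
          exact_mod_cast hn.2
        calc |α * q - a| * ((n / q : ℕ) : ℝ) ≤ 1 / ((Q : ℝ) + 1) * ((N : ℝ) / q) :=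
              mul_le_mul happ h1 (by positivity) (by positivity)
          _ = L := by rw [hL]; field_simp
      rcases le_total 0 (α * q - a) with hs | hs
      · refine ⟨fun r => ⌊α * r + β⌋, fun r => ⌊α * r + β + L⌋, ?_, ?_⟩
        · intro n hn
          rw [floor_class α β a q n hq]
          have h1 := hyk n hn
          have h2 : 0 ≤ (α * q - a) * ((n / q : ℕ) : ℝ) := mul_nonneg hs (by positivity)
          rw [abs_of_nonneg h2] at h1
          constructor
          · apply Int.floor_le_floor; linarith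
          · apply Int.floor_le_floor; linarith
        · intro r
          push_cast
          have := Int.floor_le (α * r + β + L)
          have := Int.lt_floor_add_one (α * r + β)
          linarith
      · refine ⟨fun r => ⌊α * r + β - L⌋, fun r => ⌊α * r + β⌋, ?_, ?_⟩
        · intro n hn
          rw [floor_class α β a q n hq]
          have h1 := hyk n hn
          have h2 : (α * q - a) * ((n / q : ℕ) : ℝ) ≤ 0 :=
            mul_nonpos_of_nonpos_of_nonneg hs (by positivity)
          rw [abs_of_nonpos h2] at h1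
          constructor
          · apply Int.floor_le_floor; linarith
          · apply Int.floor_le_floor; linarith
        · intro r
          push_cast
          have := Int.floor_le (α * r + β)
          have := Int.lt_floor_add_one (α * r + β - L)
          linarith
    have hTsub : T ⊆ (range q).biUnion (fun r => (Icc (lo r) (hi r)).image (fun c => (r, c))) := by
      intro t ht
      rw [hT, mem_image] at ht
      obtain ⟨n, hn, rfl⟩ := ht
      rw [mem_biUnion]
      refine ⟨n % q, mem_range.2 (Nat.mod_lt _ hq), ?_⟩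
      rw [mem_image]
      exact ⟨_, mem_Icc.2 (hlohi n hn), rfl⟩
    have hcr : ∀ r, (((Icc (lo r) (hi r)).image (fun c => ((r, c) : ℕ × ℤ))).card : ℝ) ≤ L + 2 := by
      intro r
      have h1 : ((Icc (lo r) (hi r)).image (fun c => ((r, c) : ℕ × ℤ))).card ≤
          (hi r + 1 - lo r).toNat := by
        rw [← Int.card_Icc]; exact card_image_le
      have h2 : (((hi r + 1 - lo r).toNat : ℕ) : ℝ) ≤ L + 2 := by
        rcases le_total 0 (hi r + 1 - lo r) with h3 | h3
        · have h4 : (((hi r + 1 - lo r).toNat : ℤ) : ℝ) = ((hi r + 1 - lo r : ℤ) : ℝ) := by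
            rw [Int.toNat_of_nonneg h3]
          rw [Int.cast_natCast] at h4
          rw [h4]
          have h5 := hcard r
          push_cast at h5 ⊢
          linarith
        · rw [Int.toNat_of_nonpos h3]; push_cast; linarith
      exact le_trans (by exact_mod_cast h1) h2
    have h1 : T.card ≤ ∑ r ∈ range q, ((Icc (lo r) (hi r)).image (fun c => ((r, c) : ℕ × ℤ))).card :=
      (card_le_card hTsub).trans card_biUnion_le
    have h2 : (T.card : ℝ) ≤ ∑ r ∈ range q, (L + 2) := by
      have : (T.card : ℝ) ≤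
          ∑ r ∈ range q, (((Icc (lo r) (hi r)).image (fun c => ((r, c) : ℕ × ℤ))).card : ℝ) := by
        exact_mod_cast h1
      exact this.trans (sum_le_sum fun r _ => hcr r)
    rw [sum_const, card_range, nsmul_eq_mul] at h2
    have h3 : (q : ℝ) * (L + 2) = N / ((Q : ℝ) + 1) + 2 * q := by
      rw [hL]; field_simp
    rw [h3] at h2
    linarith
  -- conclusion
  calc |((#A : ℕ) : ℝ) - (#B : ℕ) / d|
      = |∑ t ∈ T, (((#{n ∈ A | key n = t} : ℕ) : ℝ) - (#{n ∈ B | key n = t} : ℕ) / d)| := by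
        rw [hcA, hcB, sum_sub_distrib]
        push_cast
        rw [sum_div]
    _ ≤ ∑ t ∈ T, |((#{n ∈ A | key n = t} : ℕ) : ℝ) - (#{n ∈ B | key n = t} : ℕ) / d| :=
        abs_sum_le_sum_abs _ _
    _ ≤ ∑ t ∈ T, (1 : ℝ) := sum_le_sum hclass
    _ = T.card := by simp
    _ ≤ _ := hTcard

end EK
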