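import Pool.Agent.EK.Defs

/-!
# MODULE E2: how often a divisor of `a` divides `⌊α n + β⌋`, for `α` close to `a/q`

Proof of `count_dvd`: on a block `n = q k + r`, `r < q`, the number `⌊α n + β⌋` is congruent mod `g`
to `⌊g (i + f) / q + ε⌋` with `i = (b r + u) mod q` running once through `0, …, q - 1`,
`0 ≤ f < 1` and `|ε| ≤ 1 / q`; hence the number of `r` is within `3` of `q / g`.
-/

namespace EK

open Finset

/-- The map `r ↦ (b r + u) mod q`. -/
private def fN (b : ℕ) (u : ℤ) (q r : ℕ) : ℕ := (((b : ℤ) * r + u) % q).toNat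

private lemma fN_cast (b : ℕ) (u : ℤ) (q r : ℕ) (hq : 0 < q) :
    ((fN b u q r : ℕ) : ℤ) = ((b : ℤ) * r + u) % q := by
  unfold fN
  exact Int.toNat_of_nonneg (Int.emod_nonneg _ (by exact_mod_cast hq.ne'))

private lemma fN_lt (b : ℕ) (u : ℤ) (q r : ℕ) (hq : 0 < q) : fN b u q r < q := by
  have h := fN_cast b u q r hq
  have h2 := Int.emod_lt_of_pos ((b : ℤ) * r + u) (by exact_mod_cast hq : (0 : ℤ) < q)
  rw [← h] at h2
  exact_mod_cast h2

private lemma fN_inj (b : ℕ) (u : ℤ) (q : ℕ) (hq : 0 < q) (hb : Nat.Coprime b q) :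
    Set.InjOn (fN b u q) (Finset.range q) := by
  intro r hr s hs h
  simp only [Finset.coe_range, Set.mem_Iio] at hr hs
  have h1 : ((b : ℤ) * r + u) % q = ((b : ℤ) * s + u) % q := by
    rw [← fN_cast b u q r hq, ← fN_cast b u q s hq, h]
  have h2 : (q : ℤ) ∣ ((b : ℤ) * s + u) - ((b : ℤ) * r + u) := by
    exact (show ((b : ℤ) * r + u) ≡ ((b : ℤ) * s + u) [ZMOD q] from h1).dvd
  have h3 : (q : ℤ) ∣ (b : ℤ) * (s - r) := by
    have : ((b : ℤ) * s + u) - ((b : ℤ) * r + u) = (b : ℤ) * (s - r) := by ring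
    rwa [this] at h2
  have h4 : (q : ℤ) ∣ ((s : ℤ) - r) := by
    apply IsCoprime.dvd_of_dvd_mul_left _ h3
    exact (Nat.isCoprime_iff_coprime.mpr hb).symm
  obtain ⟨c, hc⟩ := h4
  have hr' : (r : ℤ) < q := by exact_mod_cast hr
  have hs' : (s : ℤ) < q := by exact_mod_cast hs
  have hc0 : c = 0 := by
    by_contra hne
    have : (q : ℤ) ≤ |(s : ℤ) - r| := by
      rw [hc, abs_mul]
      have h1c : (1 : ℤ) ≤ |c| := Int.one_le_abs hne
      have hqa : |(q : ℤ)| = q := abs_of_nonneg (by positivity)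
      rw [hqa]
      nlinarith [(by positivity : (0 : ℤ) ≤ (q : ℤ))]
    have h5 : |(s : ℤ) - r| < q := by
      rw [abs_lt]
      constructor <;> omega
    omega
  rw [hc0] at hc
  omega

private lemma fN_surj (b : ℕ) (u : ℤ) (q : ℕ) (hq : 0 < q) (hb : Nat.Coprime b q) (i : ℕ)
    (hi : i < q) : ∃ r < q, fN b u q r = i := by
  have h1 : (Finset.range q).image (fN b u q) = Finset.range q := by
    apply Finset.eq_of_subset_of_card_le
    · intro x hx
      obtain ⟨r, _, rfl⟩ := Finset.mem_image.1 hx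
      exact Finset.mem_range.2 (fN_lt b u q r hq)
    · rw [Finset.card_image_of_injOn (fN_inj b u q hq hb)]
  have h2 : i ∈ (Finset.range q).image (fN b u q) := by
    rw [h1]; exact Finset.mem_range.2 hi
  obtain ⟨r, hr, h⟩ := Finset.mem_image.1 h2
  exact ⟨r, Finset.mem_range.1 hr, h⟩

/-- Count on one block. -/
private lemma block (α β : ℝ) (a q g k : ℕ) (hq : 0 < q) (hg : 0 < g)
    (hga : g ∣ a) (hcop : Nat.Coprime a q) (happ : |α * q - a| ≤ 1 / (q : ℝ)) :
    |(((Finset.range q).filter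
      (fun r : ℕ => (g : ℤ) ∣ ⌊α * ((q * k + r : ℕ) : ℝ) + β⌋)).card : ℝ) - (q : ℝ) / g| ≤ 3 := by
  obtain ⟨b, rfl⟩ := hga
  have hb : Nat.Coprime b q := Nat.Coprime.coprime_mul_left hcop
  have hq' : (0 : ℝ) < q := by exact_mod_cast hq
  have hg' : (0 : ℝ) < g := by exact_mod_cast hg
  have hg1 : (1 : ℝ) ≤ g := by exact_mod_cast hg
  set γ : ℝ := ((α * q - ((g * b : ℕ) : ℝ)) * k + β) / g with hγ
  set u : ℤ := ⌊γ * q⌋ with hu
  set f : ℝ := γ * q - u with hf
  have hf0 : 0 ≤ f := by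
    have := Int.floor_le (γ * q); rw [hf]; linarith
  have hf1 : f < 1 := by
    have := Int.lt_floor_add_one (γ * q); rw [hf]; linarith
  -- the key identity
  have key : ∀ r < q, ∃ (t : ℤ) (ε : ℝ), |ε| ≤ 1 / q ∧
      α * ((q * k + r : ℕ) : ℝ) + β
        = (g * (((b * k : ℕ) : ℤ) + t) : ℤ) + (g * ((fN b u q r : ℝ) + f) / q + ε) := by
    intro r hr
    refine ⟨((b : ℤ) * r + u) / q, (α - ((g * b : ℕ) : ℝ) / q) * r, ?_, ?_⟩
    · have hr' : (r : ℝ) ≤ q := by exact_mod_cast hr.le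
      have h1 : (α - ((g * b : ℕ) : ℝ) / q) * r = (α * q - ((g * b : ℕ) : ℝ)) * (r / q) := by
        field_simp
      rw [h1, abs_mul]
      have h2 : |(r : ℝ) / q| ≤ 1 := by
        rw [abs_of_nonneg (by positivity), div_le_one hq']
        exact hr'
      calc |α * q - ((g * b : ℕ) : ℝ)| * |(r : ℝ) / q| ≤ (1 / q) * 1 := by
            apply mul_le_mul happ h2 (abs_nonneg _) (by positivity)
        _ = 1 / q := by ring
    · have h1 : (((fN b u q r : ℕ) : ℤ) : ℝ) = ((b : ℝ) * r + u) - q * ((((b : ℤ) * r + u) / q : ℤ) : ℝ) := by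
        rw [fN_cast b u q r hq]
        have := Int.emod_add_mul_ediv ((b : ℤ) * r + u) q
        have h2 : ((b : ℤ) * r + u) % q = ((b : ℤ) * r + u) - q * (((b : ℤ) * r + u) / q) := by
          linarith
        rw [h2]
        push_cast
        ring
      have h3 : (fN b u q r : ℝ) = ((b : ℝ) * r + u) - q * ((((b : ℤ) * r + u) / q : ℤ) : ℝ) := by
        rw [← h1]; push_cast; ring
      rw [h3, hf, hγ]
      push_cast
      field_simp
      ring
  set m : ℕ := q / g with hm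
  have hm1 : (m : ℝ) ≤ q / g := Nat.cast_div_le
  have hm2 : (q : ℝ) / g < m + 1 := by
    rw [div_lt_iff₀ hg']
    have : q < (m + 1) * g := by
      rw [hm]
      have := Nat.lt_div_mul_add (a := q) hg
      nlinarith
    exact_mod_cast this
  rw [abs_le]
  constructor
  · -- lower bound
    have hsub : Finset.Icc 1 (m - 2) ⊆ ((Finset.range q).filter
        (fun r : ℕ => (g : ℤ) ∣ ⌊α * ((q * k + r : ℕ) : ℝ) + β⌋)).image (fN b u q) := by
      intro i hi
      rw [Finset.mem_Icc] at hi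
      have hmq : m ≤ q := Nat.div_le_self _ _
      obtain ⟨r, hr, hri⟩ := fN_surj b u q hq hb i (by omega)
      refine Finset.mem_image.2 ⟨r, Finset.mem_filter.2 ⟨Finset.mem_range.2 hr, ?_⟩, hri⟩
      obtain ⟨t, ε, hε, hy⟩ := key r hr
      rw [hy, Int.floor_intCast_add, hri]
      have h0 : ⌊(g : ℝ) * ((i : ℝ) + f) / q + ε⌋ = 0 := by
        rw [Int.floor_eq_iff]
        rw [abs_le] at hε
        have hi1 : (1 : ℝ) ≤ i := by exact_mod_cast hi.1
        have hi2 : (i : ℝ) + 2 ≤ q / g := by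
          have : (i : ℝ) + 2 ≤ m := by
            have : i + 2 ≤ m := by omega
            exact_mod_cast this
          linarith
        have hi3 : (g : ℝ) * ((i : ℝ) + 2) ≤ q := by
          rw [le_div_iff₀ hg'] at hi2
          linarith
        constructor
        · have h1 : 1 / (q : ℝ) ≤ g * ((i : ℝ) + f) / q := by
            apply div_le_div_of_nonneg_right _ hq'.le
            nlinarith
          simp only [Int.cast_zero]
          linarith
        · have h1 : (g : ℝ) * ((i : ℝ) + f) / q < g * ((i : ℝ) + 1) / q := by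
            apply div_lt_div_of_pos_right _ hq'
            nlinarith
          have h2 : (g : ℝ) * ((i : ℝ) + 1) / q + 1 / q ≤ 1 := by
            rw [← add_div, div_le_one hq']
            nlinarith
          simp only [Int.cast_zero]
          linarith
      rw [h0, add_zero]
      exact Dvd.intro _ rfl
    have h1 := (Finset.card_le_card hsub).trans Finset.card_image_le
    rw [Nat.card_Icc] at h1
    have h2 : ((m : ℝ)) - 2 ≤ ((m - 2 + 1 - 1 : ℕ) : ℝ) := by
      have : (m : ℤ) - 2 ≤ ((m - 2 + 1 - 1 : ℕ) : ℤ) := by omega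
      exact_mod_cast this
    have h3 : ((m - 2 + 1 - 1 : ℕ) : ℝ) ≤ (((Finset.range q).filter
        (fun r : ℕ => (g : ℤ) ∣ ⌊α * ((q * k + r : ℕ) : ℝ) + β⌋)).card : ℝ) := by
      exact_mod_cast h1
    linarith
  · -- upper bound
    have hsub : ((Finset.range q).filter
        (fun r : ℕ => (g : ℤ) ∣ ⌊α * ((q * k + r : ℕ) : ℝ) + β⌋)).image (fN b u q)
          ⊆ insert (q - 1) (Finset.range (m + 2)) := by
      intro i hi
      obtain ⟨r, hr, hri⟩ := Finset.mem_image.1 hi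
      rw [Finset.mem_filter, Finset.mem_range] at hr
      obtain ⟨hr, hdvd⟩ := hr
      obtain ⟨t, ε, hε, hy⟩ := key r hr
      rw [hy, Int.floor_intCast_add, hri] at hdvd
      have hdvd' : (g : ℤ) ∣ ⌊(g : ℝ) * ((i : ℝ) + f) / q + ε⌋ :=
        (Int.dvd_add_right (Dvd.intro _ rfl)).1 hdvd
      have hiq : i < q := hri ▸ fN_lt b u q r hq
      by_contra hcon
      rw [Finset.mem_insert, Finset.mem_range, not_or] at hcon
      obtain ⟨hc1, hc2⟩ := hcon
      obtain ⟨w, hw⟩ := hdvd'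
      rw [abs_le] at hε
      have hfl := Int.floor_le ((g : ℝ) * ((i : ℝ) + f) / q + ε)
      have hfu := Int.lt_floor_add_one ((g : ℝ) * ((i : ℝ) + f) / q + ε)
      rw [hw] at hfl hfu
      push_cast at hfl hfu
      have hi2 : (m : ℝ) + 2 ≤ i := by
        have : m + 2 ≤ i := by omega
        exact_mod_cast this
      have hi3 : (q : ℝ) / g + 1 ≤ i := by linarith
      have hi4 : (i : ℝ) + 2 ≤ q := by
        have : i + 2 ≤ q := by omega
        exact_mod_cast this
      -- y' ≥ 1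
      have hy1 : (1 : ℝ) ≤ (g : ℝ) * ((i : ℝ) + f) / q + ε := by
        have h1 : (g : ℝ) * ((q : ℝ) / g + 1) / q ≤ (g : ℝ) * ((i : ℝ) + f) / q := by
          apply div_le_div_of_nonneg_right _ hq'.le
          apply mul_le_mul_of_nonneg_left _ hg'.le
          linarith
        have h2 : (g : ℝ) * ((q : ℝ) / g + 1) / q = 1 + g / q := by
          field_simp
        have h3 : 1 / (q : ℝ) ≤ g / q := div_le_div_of_nonneg_right hg1 hq'.le
        linarith
      have hy2 : (g : ℝ) * ((i : ℝ) + f) / q + ε < g := by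
        have h1 : (g : ℝ) * ((i : ℝ) + f) / q < g * ((q : ℝ) - 1) / q := by
          apply div_lt_div_of_pos_right _ hq'
          apply mul_lt_mul_of_pos_left _ hg'
          linarith
        have h2 : (g : ℝ) * ((q : ℝ) - 1) / q + 1 / q ≤ g := by
          rw [← add_div, div_le_iff₀ hq']
          nlinarith
        linarith
      have hw1 : 0 < w := by
        by_contra hneg
        have : (w : ℝ) ≤ 0 := by exact_mod_cast not_lt.1 hneg
        nlinarith
      have hw2 : (1 : ℝ) ≤ w := by exact_mod_cast hw1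
      nlinarith
    have h1 := Finset.card_le_card hsub
    have hinj : Set.InjOn (fN b u q) ((Finset.range q).filter
        (fun r : ℕ => (g : ℤ) ∣ ⌊α * ((q * k + r : ℕ) : ℝ) + β⌋)) :=
      (fN_inj b u q hq hb).mono (by
        intro x hx
        exact Finset.mem_coe.2 (Finset.mem_filter.1 (Finset.mem_coe.1 hx)).1)
    rw [Finset.card_image_of_injOn hinj] at h1
    have h2 := h1.trans (Finset.card_insert_le _ _)
    rw [Finset.card_range] at h2
    have h3 : ((((Finset.range q).filter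
        (fun r : ℕ => (g : ℤ) ∣ ⌊α * ((q * k + r : ℕ) : ℝ) + β⌋)).card : ℕ) : ℝ) ≤ ((m + 2 + 1 : ℕ) : ℝ) := by
      exact Nat.cast_le.2 h2
    have h4 : ((m + 2 + 1 : ℕ) : ℝ) = (m : ℝ) + 3 := by push_cast; ring
    rw [h4] at h3
    linarith

private lemma blocks (α β : ℝ) (a q g : ℕ) (hq : 0 < q) (hg : 0 < g)
    (hga : g ∣ a) (hcop : Nat.Coprime a q) (happ : |α * q - a| ≤ 1 / (q : ℝ)) (K : ℕ) :
    |(((Finset.range (q * K)).filter
      (fun n : ℕ => (g : ℤ) ∣ ⌊α * (n : ℝ) + β⌋)).card : ℝ) - K * ((q : ℝ) / g)| ≤ 3 * K := by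
  induction K with
  | zero => simp
  | succ K ih =>
    have hsplit : ((Finset.range (q * (K + 1))).filter
        (fun n : ℕ => (g : ℤ) ∣ ⌊α * (n : ℝ) + β⌋)).card
        = ((Finset.range (q * K)).filter (fun n : ℕ => (g : ℤ) ∣ ⌊α * (n : ℝ) + β⌋)).card
          + ((Finset.range q).filter
            (fun r : ℕ => (g : ℤ) ∣ ⌊α * ((q * K + r : ℕ) : ℝ) + β⌋)).card := by
      rw [Finset.card_filter, Finset.card_filter, Finset.card_filter, Nat.mul_succ,
        Finset.sum_range_add]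
    rw [hsplit]
    have h := block α β a q g K hq hg hga hcop happ
    rw [Nat.cast_add, Nat.cast_succ]
    rw [abs_le] at *
    constructor <;> linarith [h.1, h.2, ih.1, ih.2]

theorem count_dvd (α β : ℝ) (N n0 a q g : ℕ) (hq : 0 < q) (hg : 0 < g) (hga : g ∣ a)
    (hcop : Nat.Coprime a q) (happ : |α * q - a| ≤ 1 / (q : ℝ)) :
    |(((Finset.Ioc n0 N).filter (fun n : ℕ => (g : ℤ) ∣ ⌊α * n + β⌋)).card : ℝ) - N / g|
      ≤ 3 * ((N : ℝ) / q + 1) + 2 * q + n0 + 1 := by
  have hq' : (0 : ℝ) < q := by exact_mod_cast hq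
  have hg' : (0 : ℝ) < g := by exact_mod_cast hg
  have hg1 : (1 : ℝ) ≤ g := by exact_mod_cast hg
  set K : ℕ := N / q with hK
  have hb := blocks α β a q g hq hg hga hcop happ (K + 1)
  have hlt : N < q * (K + 1) := by
    have := Nat.lt_div_mul_add (a := N) hq
    rw [hK]; nlinarith
  have hle : q * K ≤ N := Nat.mul_div_le N q
  have hKq : (K : ℝ) ≤ N / q := Nat.cast_div_le
  set A := (Finset.Ioc n0 N).filter (fun n : ℕ => (g : ℤ) ∣ ⌊α * n + β⌋) with hA
  set B := (Finset.range (q * (K + 1))).filter (fun n : ℕ => (g : ℤ) ∣ ⌊α * (n : ℝ) + β⌋) with hB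
  have hAB : A ⊆ B := by
    intro n hn
    rw [hA, Finset.mem_filter, Finset.mem_Ioc] at hn
    rw [hB, Finset.mem_filter, Finset.mem_range]
    exact ⟨by omega, hn.2⟩
  have hBA : B ⊆ A ∪ (Finset.range (n0 + 1) ∪ Finset.Ico (N + 1) (q * (K + 1))) := by
    intro n hn
    rw [hB, Finset.mem_filter, Finset.mem_range] at hn
    rw [Finset.mem_union, Finset.mem_union, Finset.mem_range, Finset.mem_Ico, hA, Finset.mem_filter,
      Finset.mem_Ioc]
    by_cases h1 : n < n0 + 1
    · exact Or.inr (Or.inl h1)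
    · by_cases h2 : N + 1 ≤ n
      · exact Or.inr (Or.inr ⟨h2, hn.1⟩)
      · exact Or.inl ⟨⟨by omega, by omega⟩, hn.2⟩
  have h1 : (A.card : ℝ) ≤ B.card := by exact_mod_cast Finset.card_le_card hAB
  have h2 : (B.card : ℝ) ≤ A.card + (n0 + 1 + q) := by
    have h3 := (Finset.card_le_card hBA).trans (Finset.card_union_le _ _)
    have h4 := Finset.card_union_le (Finset.range (n0 + 1)) (Finset.Ico (N + 1) (q * (K + 1)))
    rw [Finset.card_range, Nat.card_Ico] at h4
    have h5 : q * (K + 1) - (N + 1) ≤ q := by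
      rw [Nat.mul_succ]; omega
    have h6 : B.card ≤ A.card + (n0 + 1 + q) := by omega
    exact_mod_cast h6
  have h7 : ((K + 1 : ℕ) : ℝ) * ((q : ℝ) / g) - N / g ≤ q := by
    have : ((K + 1 : ℕ) : ℝ) * ((q : ℝ) / g) - N / g = ((K + 1 : ℕ) * (q : ℝ) - N) / g := by
      field_simp
    rw [this, div_le_iff₀ hg']
    have h8 : ((K + 1 : ℕ) : ℝ) * q - N ≤ q := by
      have : (q : ℝ) * K ≤ N := by exact_mod_cast hle
      push_cast
      nlinarith
    nlinarith
  have h9 : 0 ≤ ((K + 1 : ℕ) : ℝ) * ((q : ℝ) / g) - N / g := by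
    have : ((K + 1 : ℕ) : ℝ) * ((q : ℝ) / g) - N / g = ((K + 1 : ℕ) * (q : ℝ) - N) / g := by
      field_simp
    rw [this]
    apply div_nonneg _ hg'.le
    have : (N : ℝ) < (q : ℝ) * ((K + 1 : ℕ) : ℝ) := by exact_mod_cast hlt
    nlinarith
  push_cast at hb h7 h9
  rw [abs_le] at *
  constructor <;> nlinarith

private lemma sq_le_two_pow (n : ℕ) : n ^ 2 ≤ 2 * 2 ^ n := by
  induction n with
  | zero => norm_num
  | succ n ih =>
    rcases Nat.lt_or_ge n 3 with h | h
    · interval_cases n <;> norm_num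
    · have : (n + 1) ^ 2 ≤ 2 * n ^ 2 := by nlinarith
      calc (n + 1) ^ 2 ≤ 2 * n ^ 2 := this
        _ ≤ 2 * (2 * 2 ^ n) := by omega
        _ = 2 * 2 ^ (n + 1) := by ring

private lemma card_sq_le (a : ℕ) (ha : 0 < a) (P : Finset ℕ) (hP : P ⊆ a.primeFactors) :
    P.card ^ 2 ≤ 2 * a := by
  have h1 : 2 ^ P.card ≤ ∏ p ∈ P, p := by
    apply Finset.pow_card_le_prod
    intro p hp
    exact (Nat.prime_of_mem_primeFactors (hP hp)).two_le
  have h2 : ∏ p ∈ P, p ∣ a := by
    exact (Finset.prod_dvd_prod_of_subset _ _ _ hP).trans (Nat.prod_primeFactors_dvd a)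
  have h3 : ∏ p ∈ P, p ≤ a := Nat.le_of_dvd ha h2
  have := sq_le_two_pow P.card
  omega

/-- First and second moment of the number of elements of `P ⊆ a.primeFactors` dividing
`⌊α n + β⌋`. The constant `C` depends on `α` and `n0` only. -/
theorem sum_U (α : ℝ) (hα : 0 < α) (n0 : ℕ) : ∃ C : ℝ, 0 < C ∧
    ∀ (β : ℝ) (N a q : ℕ), 0 < q → q ^ 2 ≤ N → 0 < a → Nat.Coprime a q →
      |α * q - a| ≤ 1 / (q : ℝ) → (∀ n ∈ Finset.Ioc n0 N, 0 < ⌊α * n + β⌋) →
      ∀ P ⊆ a.primeFactors,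
        |∑ n ∈ Finset.Ioc n0 N, (U P (⌊α * n + β⌋.toNat) : ℝ) - N * recip P| ≤ C * N ∧
        ∑ n ∈ Finset.Ioc n0 N, (U P (⌊α * n + β⌋.toNat) : ℝ) ^ 2 ≤ C * N * (1 + recip P) ^ 2 := by
  refine ⟨2 * (α + 1) * (n0 + 9) + 1, by positivity, ?_⟩
  intro β N a q hq hqN ha hcop happ hpos P hP
  have hq' : (0 : ℝ) < q := by exact_mod_cast hq
  have hq1 : (1 : ℝ) ≤ q := by exact_mod_cast hq
  have hqN' : (q : ℝ) ^ 2 ≤ N := by exact_mod_cast hqN
  have hN0 : (0 : ℝ) ≤ N := Nat.cast_nonneg N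
  set E : ℝ := 3 * ((N : ℝ) / q + 1) + 2 * q + n0 + 1 with hE
  have hE0 : 0 ≤ E := by positivity
  -- error bound
  have haq : (a : ℝ) ≤ (α + 1) * q := by
    rw [abs_le] at happ
    have : 1 / (q : ℝ) ≤ 1 := by rw [div_le_one hq']; exact hq1
    nlinarith [happ.1]
  have hcard : ((P.card : ℝ)) ^ 2 ≤ 2 * ((α + 1) * q) := by
    have := card_sq_le a ha P hP
    have h2 : ((P.card : ℝ)) ^ 2 ≤ 2 * a := by exact_mod_cast this
    linarith
  have herr : ((P.card : ℝ)) ^ 2 * E ≤ 2 * (α + 1) * (n0 + 9) * N := by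
    have h1 : ((P.card : ℝ)) ^ 2 * E ≤ 2 * ((α + 1) * q) * E := mul_le_mul_of_nonneg_right hcard hE0
    have h2 : 2 * ((α + 1) * q) * E
        = 2 * (α + 1) * (3 * N + 2 * (q : ℝ) ^ 2 + (n0 + 4) * q) := by
      rw [hE]; field_simp; ring
    have h3 : (q : ℝ) ≤ N := by nlinarith
    have h4 : 3 * (N : ℝ) + 2 * (q : ℝ) ^ 2 + (n0 + 4) * q ≤ (n0 + 9) * N := by
      have : ((n0 : ℝ) + 4) * q ≤ (n0 + 4) * N := by
        apply mul_le_mul_of_nonneg_left h3 (by positivity)
      nlinarith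
    rw [h2] at h1
    calc ((P.card : ℝ)) ^ 2 * E ≤ 2 * (α + 1) * (3 * N + 2 * (q : ℝ) ^ 2 + (n0 + 4) * q) := h1
      _ ≤ 2 * (α + 1) * ((n0 + 9) * N) := by
          apply mul_le_mul_of_nonneg_left h4 (by positivity)
      _ = _ := by ring
  have hcard1 : (P.card : ℝ) ≤ (P.card : ℝ) ^ 2 := by
    have : P.card ≤ P.card ^ 2 := Nat.le_self_pow (by norm_num) _
    exact_mod_cast this
  -- divisibility translation
  have hdvd : ∀ n ∈ Finset.Ioc n0 N, ∀ p : ℕ, p ∣ ⌊α * (n : ℝ) + β⌋.toNat ↔ (p : ℤ) ∣ ⌊α * (n : ℝ) + β⌋ := by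
    intro n hn p
    have h := hpos n hn
    rw [← Int.natCast_dvd_natCast, Int.toNat_of_nonneg h.le]
  have hrecip0 : 0 ≤ recip P := by
    unfold recip; positivity
  have hUcast : ∀ n ∈ Finset.Ioc n0 N, (U P (⌊α * (n : ℝ) + β⌋.toNat) : ℝ)
      = ∑ p ∈ P, if (p : ℤ) ∣ ⌊α * (n : ℝ) + β⌋ then (1 : ℝ) else 0 := by
    intro n hn
    unfold U
    rw [Finset.card_filter]
    push_cast
    apply Finset.sum_congr rfl
    intro p _
    simp only [hdvd n hn p]
  constructor
  · rw [Finset.sum_congr rfl hUcast, Finset.sum_comm]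
    unfold recip
    rw [Finset.mul_sum, ← Finset.sum_sub_distrib]
    refine (Finset.abs_sum_le_sum_abs _ _).trans ?_
    have h1 : ∀ p ∈ P, |∑ n ∈ Finset.Ioc n0 N, (if (p : ℤ) ∣ ⌊α * (n : ℝ) + β⌋ then (1 : ℝ) else 0)
        - N * (1 / (p : ℝ))| ≤ E := by
      intro p hp
      have hpp := Nat.prime_of_mem_primeFactors (hP hp)
      have hpa := Nat.dvd_of_mem_primeFactors (hP hp)
      have := count_dvd α β N n0 a q p hq hpp.pos hpa hcop happ
      rw [Finset.card_filter] at this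
      push_cast at this
      rw [mul_one_div]
      exact this
    refine (Finset.sum_le_sum h1).trans ?_
    rw [Finset.sum_const, nsmul_eq_mul]
    have : (P.card : ℝ) * E ≤ (P.card : ℝ) ^ 2 * E := mul_le_mul_of_nonneg_right hcard1 hE0
    nlinarith
  · have hsq : ∀ n ∈ Finset.Ioc n0 N, (U P (⌊α * (n : ℝ) + β⌋.toNat) : ℝ) ^ 2
        = ∑ p ∈ P, ∑ p' ∈ P, if ((p : ℤ) ∣ ⌊α * (n : ℝ) + β⌋ ∧ (p' : ℤ) ∣ ⌊α * (n : ℝ) + β⌋)
            then (1 : ℝ) else 0 := by
      intro n hn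
      rw [hUcast n hn, sq, Finset.sum_mul_sum]
      apply Finset.sum_congr rfl
      intro p _
      apply Finset.sum_congr rfl
      intro p' _
      by_cases h1 : (p : ℤ) ∣ ⌊α * (n : ℝ) + β⌋ <;> by_cases h2 : (p' : ℤ) ∣ ⌊α * (n : ℝ) + β⌋ <;>
        simp [h1, h2]
    rw [Finset.sum_congr rfl hsq, Finset.sum_comm]
    have hcomm : ∀ p ∈ P, ∑ n ∈ Finset.Ioc n0 N, ∑ p' ∈ P,
        (if ((p : ℤ) ∣ ⌊α * (n : ℝ) + β⌋ ∧ (p' : ℤ) ∣ ⌊α * (n : ℝ) + β⌋) then (1 : ℝ) else 0)
        ≤ N * (1 / (p : ℝ)) + N * (1 / (p : ℝ)) * recip P + P.card * E := by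
      intro p hp
      rw [Finset.sum_comm]
      have hpp := Nat.prime_of_mem_primeFactors (hP hp)
      have hpa := Nat.dvd_of_mem_primeFactors (hP hp)
      have hp0 : (0 : ℝ) < p := by exact_mod_cast hpp.pos
      have h1 : ∀ p' ∈ P, ∑ n ∈ Finset.Ioc n0 N,
          (if ((p : ℤ) ∣ ⌊α * (n : ℝ) + β⌋ ∧ (p' : ℤ) ∣ ⌊α * (n : ℝ) + β⌋) then (1 : ℝ) else 0)
          ≤ (if p' = p then (N : ℝ) * (1 / (p : ℝ)) else 0) + N * (1 / (p : ℝ)) * (1 / (p' : ℝ)) + E := by
        intro p' hp'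
        have hpp' := Nat.prime_of_mem_primeFactors (hP hp')
        have hpa' := Nat.dvd_of_mem_primeFactors (hP hp')
        have hp0' : (0 : ℝ) < p' := by exact_mod_cast hpp'.pos
        by_cases heq : p' = p
        · subst heq
          rw [if_pos rfl]
          have := count_dvd α β N n0 a q p' hq hpp'.pos hpa' hcop happ
          rw [Finset.card_filter] at this
          push_cast at this
          simp only [and_self]
          rw [abs_le] at this
          have h3 : (0 : ℝ) ≤ N * (1 / (p' : ℝ)) * (1 / (p' : ℝ)) := by positivity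
          have h4 : (N : ℝ) / p' = N * (1 / (p' : ℝ)) := by rw [mul_one_div]
          linarith [this.2]
        · rw [if_neg heq]
          have hco : Nat.Coprime p p' := (Nat.coprime_primes hpp hpp').2 (fun h => heq h.symm)
          have hmul : p * p' ∣ a := Nat.Coprime.mul_dvd_of_dvd_of_dvd hco hpa hpa'
          have := count_dvd α β N n0 a q (p * p') hq (Nat.mul_pos hpp.pos hpp'.pos) hmul hcop happ
          rw [Finset.card_filter] at this
          push_cast at this
          rw [abs_le] at this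
          have h5 : ∀ n : ℕ, (((p : ℤ) ∣ ⌊α * (n : ℝ) + β⌋ ∧ (p' : ℤ) ∣ ⌊α * (n : ℝ) + β⌋)
              ↔ ((p : ℤ) * p' ∣ ⌊α * (n : ℝ) + β⌋)) := by
            intro n
            constructor
            · rintro ⟨h6, h7⟩
              exact IsCoprime.mul_dvd (Nat.isCoprime_iff_coprime.mpr hco) h6 h7
            · intro h6
              exact ⟨(Dvd.intro _ rfl).trans h6, (Dvd.intro_left _ rfl).trans h6⟩
          simp only [h5]
          have h4 : (N : ℝ) / (p * p') = N * (1 / (p : ℝ)) * (1 / (p' : ℝ)) := by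
            field_simp
          linarith [this.2]
      refine (Finset.sum_le_sum h1).trans ?_
      rw [Finset.sum_add_distrib, Finset.sum_add_distrib, Finset.sum_const, nsmul_eq_mul,
        Finset.sum_ite_eq' P p, if_pos hp, ← Finset.mul_sum]
      unfold recip
      exact le_refl _
    refine (Finset.sum_le_sum hcomm).trans ?_
    rw [Finset.sum_add_distrib, Finset.sum_add_distrib, Finset.sum_const, nsmul_eq_mul,
      ← Finset.sum_mul, ← Finset.mul_sum]
    have hr : ∑ p ∈ P, (1 / (p : ℝ)) = recip P := rfl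
    rw [hr]
    have h8 : (P.card : ℝ) * ((P.card : ℝ) * E) ≤ 2 * (α + 1) * (n0 + 9) * N := by
      calc (P.card : ℝ) * ((P.card : ℝ) * E) = (P.card : ℝ) ^ 2 * E := by ring
        _ ≤ _ := herr
    have hC : (0 : ℝ) ≤ 2 * (α + 1) * (n0 + 9) * N := by positivity
    have hone : (1 : ℝ) ≤ (1 + recip P) ^ 2 := by nlinarith
    have h10 : 2 * (α + 1) * (n0 + 9) * N ≤ 2 * (α + 1) * (n0 + 9) * N * (1 + recip P) ^ 2 := by
      nlinarith
    have h11 : N * recip P + N * recip P * recip P ≤ N * (1 + recip P) ^ 2 := by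
      nlinarith [mul_nonneg hN0 hrecip0]
    calc N * recip P + N * recip P * recip P + (P.card : ℝ) * ((P.card : ℝ) * E)
        ≤ N * (1 + recip P) ^ 2 + 2 * (α + 1) * (n0 + 9) * N * (1 + recip P) ^ 2 := by linarith
      _ = (2 * (α + 1) * (n0 + 9) + 1) * N * (1 + recip P) ^ 2 := by ring

end EK
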