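import Pool.Agent.EK.Sieve
import Pool.Agent.EK.BeattyClass
import Pool.Agent.EK.BeattyCount

/-!
# MODULE Z1: from the sieve to the Poisson law
-/

namespace EK

open Finset

/-- All primes below `2^(2^i)`. -/
def AP (i : ℕ) : Finset ℕ := (Finset.range (2 ^ 2 ^ i)).filter Nat.Prime

/-- The prime divisors of `a` below `2^(2^i)`. -/
def DP (a i : ℕ) : Finset ℕ := a.primeFactors.filter (fun p => p < 2 ^ 2 ^ i)

theorem AP_eq {a : ℕ} (ha : a ≠ 0) (i : ℕ) : AP i = PT a i ∪ DP a i := by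
  ext p
  simp only [AP, DP, PT, Finset.mem_union, Finset.mem_filter, Finset.mem_range,
    Nat.mem_primeFactors]
  constructor
  · rintro ⟨h1, h2⟩
    by_cases h : p ∣ a
    · exact Or.inr ⟨⟨h2, h, ha⟩, h1⟩
    · exact Or.inl ⟨h1, h2, h⟩
  · rintro (⟨h1, h2, _⟩ | ⟨⟨h2, _, _⟩, h1⟩)
    · exact ⟨h1, h2⟩
    · exact ⟨h1, h2⟩

theorem AP_disj (a i : ℕ) : Disjoint (PT a i) (DP a i) := by
  rw [Finset.disjoint_left]
  intro p h1 h2
  simp only [DP, PT, Finset.mem_filter, Nat.mem_primeFactors] at h1 h2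
  exact h1.2.2 h2.1.2.1

theorem recip_union {S T : Finset ℕ} (h : Disjoint S T) : recip (S ∪ T) = recip S + recip T := by
  unfold recip; exact Finset.sum_union h

theorem recip_nonneg (S : Finset ℕ) : 0 ≤ recip S := by unfold recip; positivity

theorem recip_AP {a : ℕ} (ha : a ≠ 0) (i : ℕ) : recip (AP i) = recip (PT a i) + recip (DP a i) := by
  rw [AP_eq ha, recip_union (AP_disj a i)]

theorem recip_mono {S T : Finset ℕ} (h : S ⊆ T) : recip S ≤ recip T := by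
  unfold recip
  exact Finset.sum_le_sum_of_subset_of_nonneg h (fun _ _ _ => by positivity)

/-- Splitting according to the number of prime divisors from `P`. -/
theorem core_split (Ω : Finset ℕ) (m : ℕ → ℕ) (T P : Finset ℕ) (D : ℕ) (E0 E1 : ℝ)
    (hD : ∀ n ∈ Ω, U P (m n) ≤ D)
    (hs : ∀ j : ℕ, ∀ y : ℤ, |cm (Ω.filter (fun n => U P (m n) = j)) m T y -
      ((Ω.filter (fun n => U P (m n) = j)).card : ℝ) * cdf T y| ≤
        E0 + E1 * ((Ω.filter (fun n => U P (m n) = j)).card : ℝ)) (x : ℤ) :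
    |((Ω.filter (fun n => ((U T (m n) : ℤ) + (U P (m n) : ℤ)) ≤ x)).card : ℝ) -
      ∑ n ∈ Ω, cdf T (x - (U P (m n) : ℤ))| ≤ (D + 1) * E0 + E1 * Ω.card := by
  have hmaps : ∀ n ∈ Ω, U P (m n) ∈ Finset.range (D + 1) := fun n hn => by
    rw [Finset.mem_range]; have := hD n hn; omega
  have e1 : ((Ω.filter (fun n => ((U T (m n) : ℤ) + (U P (m n) : ℤ)) ≤ x)).card : ℝ) =
      ∑ j ∈ Finset.range (D + 1), cm (Ω.filter (fun n => U P (m n) = j)) m T (x - j) := by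
    rw [Finset.card_filter, Nat.cast_sum,
      ← Finset.sum_fiberwise_of_maps_to hmaps]
    apply Finset.sum_congr rfl
    intro j _
    unfold cm
    apply Finset.sum_congr rfl
    intro n hn
    have hj := (Finset.mem_filter.mp hn).2
    rw [hj]
    by_cases h : (U T (m n) : ℤ) + (j : ℤ) ≤ x
    · rw [if_pos h, if_pos (by omega)]; simp
    · rw [if_neg h, if_neg (by omega)]; simp
  have e2 : ∑ n ∈ Ω, cdf T (x - (U P (m n) : ℤ)) = ∑ j ∈ Finset.range (D + 1),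
      ((Ω.filter (fun n => U P (m n) = j)).card : ℝ) * cdf T (x - j) := by
    rw [← Finset.sum_fiberwise_of_maps_to hmaps]
    apply Finset.sum_congr rfl
    intro j _
    rw [← nsmul_eq_mul, ← Finset.sum_const]
    apply Finset.sum_congr rfl
    intro n hn
    rw [(Finset.mem_filter.mp hn).2]
  have e3 : (Ω.card : ℝ) = ∑ j ∈ Finset.range (D + 1),
      ((Ω.filter (fun n => U P (m n) = j)).card : ℝ) := by
    rw [Finset.card_eq_sum_card_fiberwise hmaps]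
    push_cast
    rfl
  rw [e1, e2, ← Finset.sum_sub_distrib]
  calc |∑ j ∈ Finset.range (D + 1), (cm (Ω.filter (fun n => U P (m n) = j)) m T (x - j) -
        ((Ω.filter (fun n => U P (m n) = j)).card : ℝ) * cdf T (x - j))|
      ≤ ∑ j ∈ Finset.range (D + 1), |cm (Ω.filter (fun n => U P (m n) = j)) m T (x - j) -
        ((Ω.filter (fun n => U P (m n) = j)).card : ℝ) * cdf T (x - j)| :=
        Finset.abs_sum_le_sum_abs _ _
    _ ≤ ∑ j ∈ Finset.range (D + 1), (E0 + E1 * ((Ω.filter (fun n => U P (m n) = j)).card : ℝ)) :=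
        Finset.sum_le_sum fun j _ => hs j _
    _ = (D + 1) * E0 + E1 * Ω.card := by
        rw [Finset.sum_add_distrib, ← Finset.mul_sum, ← e3]
        simp

/-- Averaging the Poisson distribution function over a random shift. -/
theorem core_shift (Ω : Finset ℕ) (A : ℕ → ℕ) (T : Finset ℕ) {N CB C1 s : ℝ}
    (hμ : 0 < recip T) (hs0 : 0 ≤ s) (hN : 0 ≤ N)
    (hB : ∀ k : ℤ, |cdf T k - poisCdf (recip T) k| ≤ CB / √(recip T))
    (hN1 : (Ω.card : ℝ) ≤ N) {n0 : ℝ} (hN2 : N - n0 ≤ Ω.card)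
    (h1 : |∑ n ∈ Ω, (A n : ℝ) - N * s| ≤ C1 * N)
    (h2 : ∑ n ∈ Ω, (A n : ℝ) ^ 2 ≤ C1 * N * (1 + s) ^ 2) (x : ℤ) :
    |∑ n ∈ Ω, cdf T (x - (A n : ℤ)) - N * poisCdf (recip T + s) x| ≤
      n0 + N * (CB / √(recip T)) + 2 * C1 * N / √(recip T) +
        C1 * N * (1 + s) ^ 2 / recip T + N * s ^ 2 / recip T := by
  set μ := recip T with hμd
  have hsq : 0 < √μ := Real.sqrt_pos.mpr hμ
  have hCB : 0 ≤ CB / √μ := le_trans (abs_nonneg _) (hB 0)
  have a1 : |∑ n ∈ Ω, cdf T (x - (A n : ℤ)) - ∑ n ∈ Ω, poisCdf μ (x - (A n : ℤ))| ≤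
      N * (CB / √μ) := by
    rw [← Finset.sum_sub_distrib]
    calc _ ≤ ∑ n ∈ Ω, |cdf T (x - (A n : ℤ)) - poisCdf μ (x - (A n : ℤ))| :=
          Finset.abs_sum_le_sum_abs _ _
      _ ≤ ∑ n ∈ Ω, CB / √μ := Finset.sum_le_sum fun n _ => hB _
      _ = Ω.card * (CB / √μ) := by rw [Finset.sum_const, nsmul_eq_mul]
      _ ≤ N * (CB / √μ) := by gcongr
  have a2 : |∑ n ∈ Ω, poisCdf μ (x - (A n : ℤ)) -
      ((Ω.card : ℝ) * poisCdf μ x - (∑ n ∈ Ω, (A n : ℝ)) * pois μ x)| ≤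
      C1 * N * (1 + s) ^ 2 / μ := by
    have e : (Ω.card : ℝ) * poisCdf μ x - (∑ n ∈ Ω, (A n : ℝ)) * pois μ x =
        ∑ n ∈ Ω, (poisCdf μ x - A n * pois μ x) := by
      rw [Finset.sum_sub_distrib, Finset.sum_const, nsmul_eq_mul, Finset.sum_mul]
    rw [e, ← Finset.sum_sub_distrib]
    calc _ ≤ ∑ n ∈ Ω, |poisCdf μ (x - (A n : ℤ)) - (poisCdf μ x - A n * pois μ x)| :=
          Finset.abs_sum_le_sum_abs _ _
      _ ≤ ∑ n ∈ Ω, (A n : ℝ) ^ 2 / μ := Finset.sum_le_sum fun n _ => poisCdf_shift hμ x (A n)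
      _ = (∑ n ∈ Ω, (A n : ℝ) ^ 2) / μ := by rw [Finset.sum_div]
      _ ≤ C1 * N * (1 + s) ^ 2 / μ := by gcongr
  have hp0 := pois_nonneg hμ.le x
  have hp1 := pois_le hμ x
  have hc0 := poisCdf_nonneg hμ.le x
  have hc1 := poisCdf_le_one hμ.le x
  have a3 : |(∑ n ∈ Ω, (A n : ℝ)) * pois μ x - N * s * pois μ x| ≤ 2 * C1 * N / √μ := by
    rw [← sub_mul, abs_mul, abs_of_nonneg hp0]
    have hC1N : 0 ≤ C1 * N := le_trans (abs_nonneg _) h1
    calc _ ≤ (C1 * N) * (2 / √μ) := by gcongr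
      _ = 2 * C1 * N / √μ := by ring
  have a4 : |(Ω.card : ℝ) * poisCdf μ x - N * poisCdf μ x| ≤ n0 := by
    rw [← sub_mul, abs_mul, abs_of_nonneg hc0, abs_sub_comm, abs_of_nonneg (by linarith)]
    have : (N - Ω.card) * poisCdf μ x ≤ (N - Ω.card) * 1 := by
      apply mul_le_mul_of_nonneg_left hc1; linarith
    linarith
  have a5 : |N * poisCdf (μ + s) x - N * (poisCdf μ x - s * pois μ x)| ≤ N * s ^ 2 / μ := by
    rw [← mul_sub, abs_mul, abs_of_nonneg hN]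
    have := poisCdf_step' hμ hs0 x
    calc _ ≤ N * (s ^ 2 / μ) := by gcongr
      _ = N * s ^ 2 / μ := by ring
  rw [abs_le] at a1 a2 a3 a4 a5 ⊢
  constructor <;> linarith [a1.1, a1.2, a2.1, a2.2, a3.1, a3.2, a4.1, a4.2, a5.1, a5.2]

/-- Dirichlet approximation in the form used below. -/
theorem dirichlet (α : ℝ) (hα : 0 < α) : ∃ N0 : ℕ, ∀ N ≥ N0, ∃ a q Q : ℕ, 0 < q ∧ q ^ 2 ≤ N ∧
    0 < a ∧ Nat.Coprime a q ∧ |α * q - a| ≤ 1 / (q : ℝ) ∧ |α * q - a| ≤ 1 / ((Q : ℝ) + 1) ∧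
    (N : ℝ) / ((Q : ℝ) + 1) + 3 * q ≤ 4 * √N ∧ (a : ℝ) ≤ α * √N + 1 := by
  obtain ⟨K, hK⟩ := exists_nat_gt (1 / α)
  refine ⟨K ^ 2 + 1, fun N hN => ?_⟩
  set Q := Nat.sqrt N with hQ
  have hKQ : K ≤ Q := by
    rw [hQ, Nat.le_sqrt']; omega
  have hNpos : 0 < N := by omega
  have hQpos : 0 < Q := Nat.sqrt_pos.mpr hNpos
  obtain ⟨r, hr1, hr2⟩ := Real.exists_rat_abs_sub_le_and_den_le α hQpos
  have hden : 0 < r.den := r.den_pos
  have hdenR : (0 : ℝ) < r.den := by exact_mod_cast hden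
  have hQR : (0 : ℝ) < Q := by exact_mod_cast hQpos
  have h1 : |α * r.den - r.num| ≤ 1 / ((Q : ℝ) + 1) := by
    have e : α * r.den - r.num = (α - r) * r.den := by
      have : (r : ℝ) = r.num / r.den := by
        rw [← Rat.cast_natCast, ← Rat.cast_intCast, ← Rat.cast_div, Rat.num_div_den]
      rw [this]
      field_simp
    rw [e, abs_mul, abs_of_pos hdenR]
    calc |α - r| * r.den ≤ (1 / ((Q + 1) * r.den)) * r.den := by gcongr
      _ = 1 / ((Q : ℝ) + 1) := by field_simp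
  have hαK : 1 / α < Q + 1 := by
    have : (K : ℝ) ≤ Q := by exact_mod_cast hKQ
    linarith
  have hαQ : 1 / ((Q : ℝ) + 1) < α := by
    rw [div_lt_iff₀ hα] at hαK
    rw [div_lt_iff₀ (by positivity)]
    linarith
  have hnum : 0 < r.num := by
    by_contra h
    push Not at h
    have h2 : (r.num : ℝ) ≤ 0 := by exact_mod_cast h
    have h3 := (abs_le.mp h1).2
    have h4 : α ≤ α * r.den := by
      have : (1 : ℝ) ≤ r.den := by exact_mod_cast hden
      nlinarith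
    linarith
  have hnn : ((r.num.toNat : ℕ) : ℤ) = r.num := Int.toNat_of_nonneg hnum.le
  have hnnR : ((r.num.toNat : ℕ) : ℝ) = (r.num : ℝ) := by
    rw [← Int.cast_natCast, hnn]
  have hqQ : (r.den : ℝ) ≤ Q := by exact_mod_cast hr2
  have hQs : (Q : ℝ) ≤ √N := by
    apply Real.le_sqrt_of_sq_le
    have : Q ^ 2 ≤ N := Nat.sqrt_le' N
    exact_mod_cast this
  have hQs2 : √N < (Q : ℝ) + 1 := by
    rw [Real.sqrt_lt' (by positivity)]
    have : N < (Q + 1) ^ 2 := Nat.lt_succ_sqrt' N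
    exact_mod_cast this
  refine ⟨r.num.toNat, r.den, Q, hden, ?_, ?_, ?_, ?_, ?_, ?_, ?_⟩
  · calc r.den ^ 2 ≤ Q ^ 2 := Nat.pow_le_pow_left hr2 2
      _ ≤ N := Nat.sqrt_le' N
  · omega
  · have := r.reduced
    rwa [show r.num.toNat = r.num.natAbs by omega]
  · rw [hnnR]
    refine h1.trans ?_
    apply one_div_le_one_div_of_le hdenR
    linarith
  · rw [hnnR]; exact h1
  · have h2 : (N : ℝ) / ((Q : ℝ) + 1) ≤ √N := by
      rw [div_le_iff₀ (by positivity)]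
      have h3 : (N : ℝ) = √N * √N := (Real.mul_self_sqrt (Nat.cast_nonneg N)).symm
      calc (N : ℝ) = √N * √N := h3
        _ ≤ √N * (Q + 1) := by gcongr
    linarith
  · rw [hnnR]
    have h3 := (abs_le.mp h1).1
    have h4 : 1 / ((Q : ℝ) + 1) ≤ 1 := by
      rw [div_le_one (by positivity)]
      linarith
    have h5 : α * r.den ≤ α * √N := by gcongr; linarith
    linarith

end EK
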