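import Pool.Agent.EK.Assembly

/-!
# MODULE Z2: the number of small prime factors of a Beatty sequence against the Poisson law
-/

namespace EK

open Finset

theorem pow_card_primeFactors_le {a : ℕ} (ha : a ≠ 0) : 2 ^ a.primeFactors.card ≤ a := by
  have h1 : 2 ^ a.primeFactors.card ≤ ∏ p ∈ a.primeFactors, p := by
    apply Finset.pow_card_le_prod
    intro p hp
    exact (Nat.prime_of_mem_primeFactors hp).two_le
  exact h1.trans (Nat.le_of_dvd (Nat.pos_of_ne_zero ha) (Nat.prod_primeFactors_dvd a))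

theorem recip_DP_le {CM : ℝ} (hM : ∀ J : ℕ, |recip (AP J) - J * Real.log 2| ≤ CM) {a : ℕ}
    (J i0 : ℕ) (hcard : a.primeFactors.card ≤ 2 ^ 2 ^ i0) :
    recip (DP a J) ≤ i0 + CM + 1 := by
  have hsub : DP a J ⊆ AP i0 ∪ a.primeFactors.filter (fun p => 2 ^ 2 ^ i0 ≤ p) := by
    intro p hp
    simp only [DP, Finset.mem_filter] at hp
    rw [Finset.mem_union]
    by_cases h : p < 2 ^ 2 ^ i0
    · left
      simp only [AP, Finset.mem_filter, Finset.mem_range]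
      exact ⟨h, Nat.prime_of_mem_primeFactors hp.1⟩
    · right
      rw [Finset.mem_filter]
      exact ⟨hp.1, not_lt.mp h⟩
  have h1 : recip (DP a J) ≤ recip (AP i0) +
      recip (a.primeFactors.filter (fun p => 2 ^ 2 ^ i0 ≤ p)) := by
    refine (recip_mono hsub).trans ?_
    unfold recip
    rw [← Finset.sum_union_inter]
    have : 0 ≤ ∑ p ∈ AP i0 ∩ a.primeFactors.filter (fun p => 2 ^ 2 ^ i0 ≤ p), 1 / (p : ℝ) := by
      positivity
    linarith
  have h2 : recip (a.primeFactors.filter (fun p => 2 ^ 2 ^ i0 ≤ p)) ≤ 1 := by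
    unfold recip
    calc ∑ p ∈ a.primeFactors.filter (fun p => 2 ^ 2 ^ i0 ≤ p), 1 / (p : ℝ)
        ≤ ∑ p ∈ a.primeFactors.filter (fun p => 2 ^ 2 ^ i0 ≤ p), 1 / ((2 ^ 2 ^ i0 : ℕ) : ℝ) := by
          apply Finset.sum_le_sum
          intro p hp
          have := (Finset.mem_filter.mp hp).2
          apply one_div_le_one_div_of_le
          · positivity
          · exact_mod_cast this
      _ = (a.primeFactors.filter (fun p => 2 ^ 2 ^ i0 ≤ p)).card * (1 / ((2 ^ 2 ^ i0 : ℕ) : ℝ)) := by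
          rw [Finset.sum_const, nsmul_eq_mul]
      _ ≤ ((2 ^ 2 ^ i0 : ℕ) : ℝ) * (1 / ((2 ^ 2 ^ i0 : ℕ) : ℝ)) := by
          gcongr
          exact (Finset.card_filter_le _ _).trans hcard
      _ = 1 := by
          have : ((2 ^ 2 ^ i0 : ℕ) : ℝ) ≠ 0 := by positivity
          field_simp
  have h3 := (abs_le.mp (hM i0)).2
  have h4 : (i0 : ℝ) * Real.log 2 ≤ i0 := by
    have : Real.log 2 ≤ 1 := by linarith [Real.log_two_lt_d9]
    have h0 : (0 : ℝ) ≤ i0 := Nat.cast_nonneg _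
    nlinarith
  linarith

/-- `(K + log J)^2 ≤ √J` for large `J`. -/
theorem clog_sq_le (K : ℝ) (hK : 0 ≤ K) : ∃ J0 : ℕ, ∀ J ≥ J0,
    (K + (Nat.clog 2 (J + 15) : ℝ)) ^ 2 ≤ √(J : ℝ) := by
  have hlim : Filter.Tendsto (fun n : ℕ => ((n : ℝ) ^ 4 / 2 ^ n)) Filter.atTop (nhds 0) :=
    tendsto_pow_const_div_const_pow_of_one_lt 4 (by norm_num)
  have hev : ∀ᶠ n : ℕ in Filter.atTop, (n : ℝ) ^ 4 / 2 ^ n < 1 / (3 * (K + 1) ^ 4) := by
    apply hlim.eventually_lt_const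
    positivity
  obtain ⟨I, hI⟩ := Filter.eventually_atTop.mp hev
  refine ⟨2 ^ (I + 1) + 30, fun J hJ => ?_⟩
  set i0 := Nat.clog 2 (J + 15) with hi0
  have h1 : J + 15 ≤ 2 ^ i0 := Nat.le_pow_clog (by norm_num) _
  have h2 : 2 ^ (i0 - 1) < J + 15 :=
    Nat.pow_pred_clog_lt_self (b := 2) (x := J + 15) (by norm_num) (by omega)
  have hi0pos : 1 ≤ i0 := Nat.clog_pos (b := 2) (n := J + 15) (by norm_num) (by omega)
  have h3 : 2 ^ i0 = 2 * 2 ^ (i0 - 1) := by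
    rw [← pow_succ']; congr 1
  have h4 : 2 ^ i0 ≤ 3 * J := by
    have h30 : 30 ≤ J := le_trans (Nat.le_add_left _ _) hJ
    rw [h3]
    omega
  have h5 : I ≤ i0 := by
    have h6 : 2 ^ I < 2 ^ i0 := by
      have : 2 ^ (I + 1) = 2 * 2 ^ I := by rw [pow_succ']
      have h7 : 0 < 2 ^ I := by positivity
      omega
    exact ((Nat.pow_lt_pow_iff_right (by norm_num)).mp h6).le
  have h6 := hI i0 h5
  have hi0R : (1 : ℝ) ≤ i0 := by exact_mod_cast hi0pos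
  have h7 : (K + (i0 : ℝ)) ^ 4 ≤ ((K + 1) * i0) ^ 4 := by
    apply pow_le_pow_left₀ (by positivity)
    nlinarith
  have h8 : (K + (i0 : ℝ)) ^ 4 ≤ J := by
    have h9 : (i0 : ℝ) ^ 4 < 1 / (3 * (K + 1) ^ 4) * 2 ^ i0 := by
      rwa [div_lt_iff₀ (by positivity)] at h6
    have h10 : (2 : ℝ) ^ i0 ≤ 3 * J := by exact_mod_cast h4
    calc (K + (i0 : ℝ)) ^ 4 ≤ ((K + 1) * i0) ^ 4 := h7
      _ = (K + 1) ^ 4 * (i0 : ℝ) ^ 4 := by ring
      _ ≤ (K + 1) ^ 4 * (1 / (3 * (K + 1) ^ 4) * (3 * J)) := by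
          apply mul_le_mul_of_nonneg_left _ (by positivity)
          refine h9.le.trans ?_
          gcongr
      _ = J := by field_simp
  apply Real.le_sqrt_of_sq_le
  rw [← pow_mul]
  exact h8

/-- The remainder of the sieve is negligible. -/
theorem term_bound (J N : ℕ) (hN : 2 ^ 2 ^ (J + 14) ≤ N) :
    (2 : ℝ) ^ (J + 16) * (2 ^ (13 * J + 3) * 2 ^ (4 * (66 + 16) * 2 ^ J) * (4 * √(N : ℝ))) ≤
      N / 2 ^ J := by
  have hs : (2 : ℝ) ^ 2 ^ (J + 13) ≤ √(N : ℝ) := by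
    apply Real.le_sqrt_of_sq_le
    have : ((2 : ℝ) ^ 2 ^ (J + 13)) ^ 2 = 2 ^ 2 ^ (J + 14) := by
      rw [← pow_mul]; congr 1
    rw [this]
    exact_mod_cast hN
  have hJ : J < 2 ^ J := Nat.lt_two_pow_self
  have hexp : (J + 16) + (13 * J + 3) + 4 * (66 + 16) * 2 ^ J + 2 + J ≤ 2 ^ (J + 13) := by
    have : 2 ^ (J + 13) = 8192 * 2 ^ J := by rw [pow_add]; ring
    rw [this]
    omega
  rw [le_div_iff₀ (by positivity)]
  have e : (2 : ℝ) ^ (J + 16) * (2 ^ (13 * J + 3) * 2 ^ (4 * (66 + 16) * 2 ^ J) * (4 * √(N : ℝ))) *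
      2 ^ J = 2 ^ ((J + 16) + (13 * J + 3) + 4 * (66 + 16) * 2 ^ J + 2 + J) * √(N : ℝ) := by
    have e0 : (2 : ℝ) ^ ((J + 16) + (13 * J + 3) + 4 * (66 + 16) * 2 ^ J + 2 + J) =
        2 ^ (J + 16) * 2 ^ (13 * J + 3) * 2 ^ (4 * (66 + 16) * 2 ^ J) * 2 ^ 2 * 2 ^ J := by
      simp only [← pow_add]
    rw [e0]
    ring
  rw [e]
  calc (2 : ℝ) ^ ((J + 16) + (13 * J + 3) + 4 * (66 + 16) * 2 ^ J + 2 + J) * √(N : ℝ)
      ≤ 2 ^ 2 ^ (J + 13) * √(N : ℝ) := by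
        gcongr
        norm_num
    _ ≤ √(N : ℝ) * √(N : ℝ) := by gcongr
    _ = N := Real.mul_self_sqrt (Nat.cast_nonneg N)


/-- The bound for the model mass functions required by the sieve. -/
theorem eta_bound : ∃ K : ℝ, 1 ≤ K ∧ ∀ CM : ℝ, (∀ J : ℕ, |recip (AP J) - J * Real.log 2| ≤ CM) →
    ∃ J0 : ℕ, ∀ J ≥ J0, ∀ a : ℕ, a ≠ 0 → (1 + recip (DP a J)) ^ 2 ≤ √(J : ℝ) →
      (J : ℝ) / 4 ≤ recip (PT a J) ∧
      ∀ i < J, ∀ x, pmf (PT a i) x ≤ K / √(J : ℝ) * 2 ^ (20 * (J - i)) := by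
  obtain ⟨CP, hCP, hpmf⟩ := pmf_le
  refine ⟨max 1 (3 * CP), le_max_left _ _, fun CM hM => ?_⟩
  obtain ⟨K1, hK1⟩ := exists_nat_gt CM
  refine ⟨256 ^ 2 + 100 * K1 + 1, fun J hJ a ha hs => ?_⟩
  have hJR : (256 : ℝ) ^ 2 + 100 * CM + 1 ≤ J := by
    have : ((256 ^ 2 + 100 * K1 + 1 : ℕ) : ℝ) ≤ J := by exact_mod_cast hJ
    push_cast at this
    linarith
  have hJpos : (0 : ℝ) < J := by
    have hCM : 0 ≤ CM := le_trans (abs_nonneg _) (hM 0)
    nlinarith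
  have hsJ : 0 < √(J : ℝ) := Real.sqrt_pos.mpr hJpos
  set s := recip (DP a J) with hsd
  have hs0 : 0 ≤ s := recip_nonneg _
  have hCM : 0 ≤ CM := le_trans (abs_nonneg _) (hM 0)
  -- s ≤ J / 256
  have hs2 : s ≤ J / 256 := by
    have h1 : 1 + s ≤ √(J : ℝ) := by
      have : 1 + s ≤ (1 + s) ^ 2 := by nlinarith
      linarith
    have h2 : (256 : ℝ) ≤ √(J : ℝ) := by
      apply Real.le_sqrt_of_sq_le; nlinarith
    have h3 : √(J : ℝ) * √(J : ℝ) = J := Real.mul_self_sqrt hJpos.le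
    rw [le_div_iff₀ (by norm_num)]
    nlinarith
  have hlog : (0.69 : ℝ) ≤ Real.log 2 := by linarith [Real.log_two_gt_d9]
  have hrec : ∀ i ≤ J, 0.69 * (i : ℝ) - CM - J / 256 ≤ recip (PT a i) := by
    intro i hi
    have h1 := recip_AP ha i
    have h2 : recip (DP a i) ≤ s := by
      apply recip_mono
      intro p hp
      simp only [DP, Finset.mem_filter] at hp ⊢
      refine ⟨hp.1, lt_of_lt_of_le hp.2 ?_⟩
      exact Nat.pow_le_pow_right (by norm_num) (Nat.pow_le_pow_right (by norm_num) hi)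
    have h3 := (abs_le.mp (hM i)).1
    have h4 : 0.69 * (i : ℝ) ≤ i * Real.log 2 := by
      have : (0 : ℝ) ≤ i := Nat.cast_nonneg _
      nlinarith
    linarith
  refine ⟨?_, ?_⟩
  · have := hrec J (le_refl _)
    nlinarith
  · intro i hi x
    have hT2 : ∀ p ∈ PT a i, 2 ≤ p := fun p hp => (mem_PT.mp hp).2.1.two_le
    rcases le_or_gt J (2 * i) with h | h
    · have hiR : (J : ℝ) ≤ 2 * i := by exact_mod_cast h
      have h1 := hrec i hi.le
      have h2 : (J : ℝ) / 9 ≤ recip (PT a i) := by nlinarith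
      have h3 : 0 < recip (PT a i) := by linarith [div_pos hJpos (by norm_num : (0 : ℝ) < 9)]
      have h4 := hpmf (PT a i) hT2 h3 x
      have h5 : √(J : ℝ) / 3 ≤ √(recip (PT a i)) := by
        apply Real.le_sqrt_of_sq_le
        rw [div_pow, Real.sq_sqrt hJpos.le]
        linarith
      have h6 : CP / √(recip (PT a i)) ≤ max 1 (3 * CP) / √(J : ℝ) := by
        rw [div_le_div_iff₀ (by positivity) hsJ]
        have h7 : 3 * CP ≤ max 1 (3 * CP) := le_max_right _ _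
        nlinarith
      have h8 : (1 : ℝ) ≤ 2 ^ (20 * (J - i)) := one_le_pow₀ (by norm_num)
      have h9 : 0 ≤ max 1 (3 * CP) / √(J : ℝ) := by positivity
      calc pmf (PT a i) x ≤ CP / √(recip (PT a i)) := h4
        _ ≤ max 1 (3 * CP) / √(J : ℝ) := h6
        _ ≤ max 1 (3 * CP) / √(J : ℝ) * 2 ^ (20 * (J - i)) := le_mul_of_one_le_right h9 h8
    · have h1 : pmf (PT a i) x ≤ 1 := pmf_le_one (fun p hp => le_trans (by norm_num) (hT2 p hp)) x
      have h2 : √(J : ℝ) ≤ 2 ^ (20 * (J - i)) := by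
        have h3 : √(J : ℝ) ≤ J := by
          rw [Real.sqrt_le_left hJpos.le]
          nlinarith
        have h4 : J ≤ 2 ^ (20 * (J - i)) := by
          calc J ≤ 2 ^ J := Nat.lt_two_pow_self.le
            _ ≤ 2 ^ (20 * (J - i)) := Nat.pow_le_pow_right (by norm_num) (by omega)
        have h5 : (J : ℝ) ≤ 2 ^ (20 * (J - i)) := by exact_mod_cast h4
        linarith
      have h3 : (1 : ℝ) ≤ max 1 (3 * CP) := le_max_left _ _
      calc pmf (PT a i) x ≤ 1 := h1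
        _ = 1 / √(J : ℝ) * √(J : ℝ) := by field_simp
        _ ≤ max 1 (3 * CP) / √(J : ℝ) * 2 ^ (20 * (J - i)) := by gcongr

end EK
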