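import Pool.Agent.EK.Assembly2

/-!
# MODULE Z3: the number of small prime factors of a Beatty sequence against the Poisson law
-/

namespace EK

open Finset

theorem sq_le_two_pow {J M : ℕ} (h : J + J ≤ M) : J * J ≤ 2 ^ M := by
  have h1 : J < 2 ^ J := Nat.lt_two_pow_self
  calc J * J ≤ 2 ^ J * 2 ^ J := Nat.mul_le_mul h1.le h1.le
    _ = 2 ^ (J + J) := by rw [pow_add]
    _ ≤ 2 ^ M := Nat.pow_le_pow_right (by norm_num) h

theorem two_mul_le_two_pow {J k : ℕ} (hk : 1 ≤ k) : J + J ≤ 2 ^ (J + k) := by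
  have h1 : J < 2 ^ J := Nat.lt_two_pow_self
  have h2 : 2 ^ (J + 1) ≤ 2 ^ (J + k) := Nat.pow_le_pow_right (by norm_num) (by omega)
  rw [pow_succ] at h2
  omega

theorem tower_sq {J M N : ℕ} (k : ℕ) (hM : M = 2 ^ (J + k)) (hN : N < 2 ^ M) :
    N * N < 2 ^ 2 ^ (J + (k + 1)) := by
  have h : 2 ^ (J + (k + 1)) = M + M := by
    rw [hM, ← add_assoc, pow_succ]; ring
  rw [h, pow_add]
  exact Nat.mul_lt_mul'' hN hN

theorem sieve_beatty (α β : ℝ) {N n0 a q Q J : ℕ} {η E0 : ℝ} (hη : 0 ≤ η)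
    (hE0 : 2 ^ (13 * J + 3) * 2 ^ (4 * (66 + 16) * 2 ^ J) * (4 * √(N : ℝ)) = E0)
    (hq : 0 < q) (ha : 0 < a) (happQ : |α * q - a| ≤ 1 / ((Q : ℝ) + 1))
    (hR : (N : ℝ) / ((Q : ℝ) + 1) + 3 * q ≤ 4 * √N)
    (hpos : ∀ n ∈ Finset.Ioc n0 N, 0 < ⌊α * n + β⌋)
    (hmle : ∀ n ∈ Finset.Ioc n0 N, ⌊α * n + β⌋.toNat < 2 ^ 2 ^ (J + 16))
    {P : Finset ℕ} (hP : P ⊆ a.primeFactors)
    (hpmf : ∀ i < J, ∀ x, pmf (PT a i) x ≤ η * 2 ^ (20 * (J - i))) (j : ℕ) (y : ℤ) :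
    |cm ((Finset.Ioc n0 N).filter (fun n : ℕ => U P (⌊α * n + β⌋.toNat) = j))
        (fun n : ℕ => ⌊α * n + β⌋.toNat) (PT a J) y -
      (((Finset.Ioc n0 N).filter (fun n : ℕ => U P (⌊α * n + β⌋.toNat) = j)).card : ℝ) *
        cdf (PT a J) y| ≤
      E0 + 2 ^ 17 * η *
        (((Finset.Ioc n0 N).filter (fun n : ℕ => U P (⌊α * n + β⌋.toNat) = j)).card : ℝ) := by
  have h := sieve_main ((Finset.Ioc n0 N).filter (fun n : ℕ => U P (⌊α * n + β⌋.toNat) = j))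
    (fun n : ℕ => ⌊α * n + β⌋.toNat) (a := a) (c := 16) (J := J)
    (R := 4 * √(N : ℝ)) (η := η) hη
    (by
      intro n hn
      have hn' := (Finset.mem_filter.mp hn).1
      refine ⟨?_, hmle n hn'⟩
      have := hpos n hn'
      show 0 < ⌊α * n + β⌋.toNat
      omega)
    (by
      intro d hd hda
      have hc := classes α β N n0 a q Q d hq ha happQ hpos P hP hd hda j
      rw [Finset.filter_filter]
      exact hc.trans hR)
    hpmf y
  rw [hE0] at h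
  linarith

theorem sqrt_nat_le {J : ℕ} (hJ : 0 < J) : √(J : ℝ) ≤ J := by
  have hJR : (0 : ℝ) < J := by exact_mod_cast hJ
  rw [Real.sqrt_le_left hJR.le]
  have : (1 : ℝ) ≤ J := by exact_mod_cast hJ
  nlinarith

theorem t1_lem {c J N : ℕ} {E0 : ℝ} (h : c + 1 ≤ 2 ^ (J + 16)) (hE00 : 0 ≤ E0)
    (hE0 : 2 ^ (13 * J + 3) * 2 ^ (4 * (66 + 16) * 2 ^ J) * (4 * √(N : ℝ)) = E0)
    (hN : 2 ^ 2 ^ (J + 14) ≤ N) (hN0 : (0 : ℝ) < N) (hJ : 0 < J) :
    ((c : ℝ) + 1) * E0 ≤ N / √(J : ℝ) := by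
  have h2 := term_bound J N hN
  rw [hE0] at h2
  clear hN hE0
  have h1 : ((c : ℝ) + 1) * E0 ≤ 2 ^ (J + 16) * E0 := by
    apply mul_le_mul_of_nonneg_right _ hE00
    exact_mod_cast h
  have hJR : (0 : ℝ) < J := by exact_mod_cast hJ
  have hS0 : 0 < √(J : ℝ) := Real.sqrt_pos.mpr hJR
  have h3 : (N : ℝ) / 2 ^ J ≤ N / √(J : ℝ) := by
    apply div_le_div_of_nonneg_left hN0.le hS0
    have h5 : (J : ℝ) ≤ 2 ^ J := by exact_mod_cast (Nat.lt_two_pow_self (n := J)).le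
    exact (sqrt_nat_le hJ).trans h5
  exact h1.trans (h2.trans h3)

theorem collect {N J S μ s CB C1 K n0 PE E1 Ωc cnt sm pc : ℝ} (hNR : 0 < N) (hJR : 0 < J)
    (hS : S = √J) (hSS : S * S = J) (hS0 : 0 < S) (hμ : J / 4 ≤ μ) (hμ0 : 0 < μ) (hs0 : 0 ≤ s)
    (hs1 : (1 + s) ^ 2 ≤ S) (hCB : 0 ≤ CB) (hC1 : 0 ≤ C1) (hK : 1 ≤ K) (t1 : PE ≤ N / S)
    (hn0 : 0 ≤ n0) (hn0J : n0 ≤ J) (hJ1 : 1 ≤ J) (hJN : J * J ≤ N) (hΩ : Ωc ≤ N)
    (hE1 : E1 = 2 ^ 17 * (K / S)) (g1 : |cnt - sm| ≤ PE + E1 * Ωc)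
    (g2 : |sm - N * pc| ≤ n0 + N * (CB / √μ) + 2 * C1 * N / √μ +
        C1 * N * (1 + s) ^ 2 / μ + N * s ^ 2 / μ) :
    |cnt - N * pc| ≤ (2 ^ 17 * K + 2 * CB + 8 * C1 + 6) * N / S := by
  have t2 : E1 * Ωc ≤ 2 ^ 17 * K * (N / S) := by
    rw [hE1]
    calc 2 ^ 17 * (K / S) * Ωc ≤ 2 ^ 17 * (K / S) * N := by gcongr
      _ = 2 ^ 17 * K * (N / S) := by ring
  have hinvμ : S / 2 ≤ √μ := by
    apply Real.le_sqrt_of_sq_le
    have : (S / 2) ^ 2 = J / 4 := by rw [div_pow, sq, hSS]; norm_num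
    rw [this]; exact hμ
  have t3 : N * (CB / √μ) ≤ 2 * CB * (N / S) := by
    have h1 : CB / √μ ≤ CB / (S / 2) := by gcongr
    calc N * (CB / √μ) ≤ N * (CB / (S / 2)) := by gcongr
      _ = 2 * CB * (N / S) := by field_simp
  have t4 : 2 * C1 * N / √μ ≤ 4 * C1 * (N / S) := by
    calc 2 * C1 * N / √μ ≤ 2 * C1 * N / (S / 2) := by gcongr
      _ = 4 * C1 * (N / S) := by field_simp; ring
  have t5 : C1 * N * (1 + s) ^ 2 / μ ≤ 4 * C1 * (N / S) := by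
    calc C1 * N * (1 + s) ^ 2 / μ ≤ C1 * N * S / (J / 4) := by gcongr
      _ = 4 * C1 * (N / S) := by
          rw [← hSS]; field_simp
  have t6 : N * s ^ 2 / μ ≤ 4 * (N / S) := by
    have h1 : s ^ 2 ≤ S := by
      refine le_trans ?_ hs1
      apply pow_le_pow_left₀ hs0; linarith
    calc N * s ^ 2 / μ ≤ N * S / (J / 4) := by gcongr
      _ = 4 * (N / S) := by
          rw [← hSS]; field_simp
  have t7 : n0 ≤ N / S := by
    rw [le_div_iff₀ hS0]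
    have h4 : S ≤ J := by
      rw [hS, Real.sqrt_le_left hJR.le]
      nlinarith
    calc n0 * S ≤ J * J := by gcongr
      _ ≤ N := hJN
  have hgoal : (2 ^ 17 * K + 2 * CB + 8 * C1 + 6) * N / S =
      2 ^ 17 * K * (N / S) + 2 * CB * (N / S) + 4 * C1 * (N / S) + 4 * C1 * (N / S) +
        4 * (N / S) + N / S + N / S := by ring
  rw [hgoal]
  rw [abs_le] at g1 g2 ⊢
  constructor <;> linarith [g1.1, g1.2, g2.1, g2.2]

set_option maxHeartbeats 1000000 in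
theorem beatty_poisson (α β : ℝ) (hα : 0 < α) : ∃ (C : ℝ) (n0 J0 : ℕ), 0 < C ∧
    (∀ n : ℕ, n0 < n → 0 < ⌊α * n + β⌋) ∧
    ∀ J ≥ J0, ∀ N : ℕ, 2 ^ 2 ^ (J + 14) ≤ N → N < 2 ^ 2 ^ (J + 15) →
      (∀ n ∈ Finset.Ioc n0 N, ⌊α * n + β⌋.toNat < 2 ^ 2 ^ (J + 16)) ∧
      ∀ x : ℤ, |(((Finset.Ioc n0 N).filter
          (fun n : ℕ => (U (AP J) (⌊α * n + β⌋.toNat) : ℤ) ≤ x)).card : ℝ) -
        N * poisCdf (recip (AP J)) x| ≤ C * N / √(J : ℝ) := by
  obtain ⟨CM, hM'⟩ := mertens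
  have hM : ∀ J : ℕ, |recip (AP J) - J * Real.log 2| ≤ CM := hM'
  have hCM : 0 ≤ CM := le_trans (abs_nonneg _) (hM 0)
  set n0 : ℕ := ⌈(1 + |β|) / α⌉₊ with hn0
  obtain ⟨C1, hC1, hsum⟩ := sum_U α hα n0
  obtain ⟨CB, hCB, hcdf⟩ := cdf_sub_poisCdf_le
  obtain ⟨K, hK, heta⟩ := eta_bound
  obtain ⟨J1, heta1⟩ := heta CM hM
  obtain ⟨N1, hdir⟩ := dirichlet α hα
  obtain ⟨J2, hclog⟩ := clog_sq_le (CM + 2) (by linarith)
  obtain ⟨A1, hA1⟩ := exists_nat_gt (α + |β| + 1)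
  have hpos : ∀ n : ℕ, n0 < n → 0 < ⌊α * n + β⌋ := by
    intro n hn
    have h1 : (1 + |β|) / α ≤ n0 := Nat.le_ceil _
    have h2 : (n0 : ℝ) < n := by exact_mod_cast hn
    have h3 : 1 + |β| ≤ α * n := by
      rw [div_le_iff₀ hα] at h1
      nlinarith
    have h4 : 1 ≤ α * n + β := by
      have := neg_abs_le β
      linarith
    have h5 : (1 : ℤ) ≤ ⌊α * n + β⌋ := Int.le_floor.mpr (by exact_mod_cast h4)
    omega
  refine ⟨2 ^ 17 * K + 2 * CB + 8 * C1 + 6, n0, max (max J1 J2) (max (max N1 A1) (n0 + 1)),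
    by positivity, hpos, ?_⟩
  intro J hJ N hN1' hN2'
  obtain ⟨M1, hM1⟩ : ∃ M : ℕ, 2 ^ 2 ^ (J + 14) = M := ⟨_, rfl⟩
  obtain ⟨M2, hM2⟩ : ∃ M : ℕ, 2 ^ (J + 15) = M := ⟨_, rfl⟩
  rw [hM1] at hN1'
  rw [hM2] at hN2'
  have hN1 : M1 ≤ N := hN1'
  have hN2 : N < 2 ^ M2 := hN2'
  clear hN1' hN2'
  have hJ1 : J1 ≤ J := le_trans (le_trans (le_max_left _ _) (le_max_left _ _)) hJ
  have hJ2 : J2 ≤ J := le_trans (le_trans (le_max_right _ _) (le_max_left _ _)) hJ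
  have hJN1 : N1 ≤ J :=
    le_trans (le_trans (le_trans (le_max_left _ _) (le_max_left _ _)) (le_max_right _ _)) hJ
  have hJA1 : A1 ≤ J :=
    le_trans (le_trans (le_trans (le_max_right _ _) (le_max_left _ _)) (le_max_right _ _)) hJ
  have hJn0 : n0 + 1 ≤ J := le_trans (le_trans (le_max_right _ _) (le_max_right _ _)) hJ
  have hJpos : 0 < J := by omega
  -- J ^ 2 ≤ N
  have hJN : J * J ≤ N := by
    refine le_trans ?_ hN1
    rw [← hM1]
    exact sq_le_two_pow (two_mul_le_two_pow (by norm_num))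
  have hJleN : J ≤ N := le_trans (by nlinarith) hJN
  have hNR : (0 : ℝ) < N := by exact_mod_cast (lt_of_lt_of_le hJpos hJleN)
  set m : ℕ → ℕ := fun n => ⌊α * n + β⌋.toNat with hm
  have hmle : ∀ n ∈ Finset.Ioc n0 N, m n < 2 ^ 2 ^ (J + 16) := by
    intro n hn
    rw [Finset.mem_Ioc] at hn
    have h1 : (m n : ℝ) ≤ α * n + β := by
      have h2 : ((m n : ℤ) : ℝ) = (⌊α * n + β⌋ : ℝ) := by
        rw [hm]; congr 1
        exact Int.toNat_of_nonneg (hpos n hn.1).le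
      have h3 := Int.floor_le (α * n + β)
      rw [← h2] at h3
      exact_mod_cast h3
    have hnN : (n : ℝ) ≤ N := by exact_mod_cast hn.2
    have hn1 : (1 : ℝ) ≤ N := by exact_mod_cast (le_trans hJpos hJleN)
    have hA1J : (A1 : ℝ) ≤ N := by exact_mod_cast (hJA1.trans hJleN)
    have h4 : (m n : ℝ) < N * N := by
      have := le_abs_self β
      have h5 : α * n ≤ α * N := by gcongr
      have h6 : |β| ≤ |β| * N := le_mul_of_one_le_right (abs_nonneg _) hn1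
      calc (m n : ℝ) ≤ α * N + |β| * N := by linarith
        _ < (α + |β| + 1) * N := by nlinarith
        _ ≤ N * N := by
            apply mul_le_mul_of_nonneg_right _ hNR.le
            linarith
    have h5 : m n < N * N := by exact_mod_cast h4
    exact h5.trans (tower_sq 15 hM2.symm hN2)
  refine ⟨hmle, fun x => ?_⟩
  obtain ⟨a, q, Q, hq, hqN, ha, hcop, happ, happQ, hR, haN⟩ := hdir N (hJN1.trans hJleN)
  have ha0 : a ≠ 0 := by omega
  set Ω := Finset.Ioc n0 N with hΩ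
  have hposΩ : ∀ n ∈ Ω, 0 < ⌊α * n + β⌋ := fun n hn => hpos n (Finset.mem_Ioc.mp hn).1
  set P := DP a J with hP
  have hPsub : P ⊆ a.primeFactors := Finset.filter_subset _ _
  -- the number of prime factors of a
  have haleN : a < 2 ^ M2 := by
    refine lt_of_le_of_lt ?_ hN2
    have h1 : (a : ℝ) ≤ N := by
      have h2 : α + 1 ≤ √(N : ℝ) := by
        apply Real.le_sqrt_of_sq_le
        have h3 : α + 1 ≤ J := by
          have : (A1 : ℝ) ≤ J := by exact_mod_cast hJA1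
          have := abs_nonneg β
          linarith
        have h4 : (J : ℝ) * J ≤ N := by exact_mod_cast hJN
        nlinarith
      have h3 : (1 : ℝ) ≤ √(N : ℝ) := by linarith
      have h4 : √(N : ℝ) * √(N : ℝ) = N := Real.mul_self_sqrt hNR.le
      nlinarith
    exact_mod_cast h1
  have hcardPF : a.primeFactors.card < M2 := by
    have h1 := (pow_card_primeFactors_le ha0).trans_lt haleN
    exact (Nat.pow_lt_pow_iff_right (by norm_num)).mp h1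
  have hDcard : P.card + 1 ≤ 2 ^ (J + 16) := by
    have h1 : P.card ≤ a.primeFactors.card := Finset.card_le_card hPsub
    have h2 : 2 ^ (J + 16) = 2 * 2 ^ (J + 15) := by rw [← pow_succ']
    rw [h2, hM2]
    omega
  -- s is small
  set s := recip P with hs
  have hs0 : 0 ≤ s := recip_nonneg _
  have hs1 : (1 + s) ^ 2 ≤ √(J : ℝ) := by
    have h1 : s ≤ (Nat.clog 2 (J + 15) : ℝ) + CM + 1 := by
      apply recip_DP_le hM
      refine hcardPF.le.trans ?_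
      rw [← hM2]
      apply Nat.pow_le_pow_right (by norm_num)
      exact Nat.le_pow_clog (by norm_num) _
    refine le_trans ?_ (hclog J hJ2)
    apply pow_le_pow_left₀ (by positivity)
    linarith
  obtain ⟨hμ, hpmf⟩ := heta1 J hJ1 a ha0 hs1
  set μ := recip (PT a J) with hμd
  have hJR : (0 : ℝ) < J := by exact_mod_cast hJpos
  have hμ0 : 0 < μ := lt_of_lt_of_le (by positivity) hμ
  set S := √(J : ℝ) with hS
  have hS0 : 0 < S := Real.sqrt_pos.mpr hJR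
  have hSS : S * S = J := Real.mul_self_sqrt hJR.le
  -- the sieve
  obtain ⟨E0, hE0⟩ : ∃ E0 : ℝ,
      2 ^ (13 * J + 3) * 2 ^ (4 * (66 + 16) * 2 ^ J) * (4 * √(N : ℝ)) = E0 := ⟨_, rfl⟩
  have hE00 : 0 ≤ E0 := by rw [← hE0]; positivity
  obtain ⟨E1, hE1⟩ : ∃ E1 : ℝ, E1 = 2 ^ 17 * (K / S) := ⟨_, rfl⟩
  have hsieve : ∀ j : ℕ, ∀ y : ℤ, |cm (Ω.filter (fun n => U P (m n) = j)) m (PT a J) y -
      ((Ω.filter (fun n => U P (m n) = j)).card : ℝ) * cdf (PT a J) y| ≤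
        E0 + E1 * ((Ω.filter (fun n => U P (m n) = j)).card : ℝ) := by
    intro j y
    rw [hE1]
    exact sieve_beatty α β (div_nonneg (by linarith) hS0.le) hE0 hq ha happQ hR hposΩ hmle
      hPsub hpmf j y
  have hD : ∀ n ∈ Ω, U P (m n) ≤ P.card := fun n _ => Finset.card_filter_le _ _
  have g1 := core_split Ω m (PT a J) P P.card E0 E1 hD hsieve x
  obtain ⟨hs2, hs3⟩ := hsum β N a q hq hqN ha hcop happ hposΩ P hPsub
  have hcardΩ : Ω.card = N - n0 := by rw [hΩ, Nat.card_Ioc]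
  have hn0N : n0 ≤ N := by omega
  have hcard1 : (Ω.card : ℝ) = N - n0 := by
    rw [hcardΩ, Nat.cast_sub hn0N]
  have g2 := core_shift Ω (fun n => U P (m n)) (PT a J) (N := N) (CB := CB) (C1 := C1) (s := s)
    hμ0 hs0 hNR.le (hcdf (PT a J) (fun p hp => (mem_PT.mp hp).2.1.two_le) hμ0)
    (by rw [hcard1]; linarith [(Nat.cast_nonneg n0 : (0 : ℝ) ≤ n0)]) (n0 := n0)
    (by rw [hcard1]) hs2 hs3 x
  have hrecAP : recip (AP J) = μ + s := recip_AP ha0 J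
  have hfil : (Ω.filter (fun n : ℕ => (U (AP J) (⌊α * n + β⌋.toNat) : ℤ) ≤ x)) =
      Ω.filter (fun n => ((U (PT a J) (m n) : ℤ) + (U P (m n) : ℤ)) ≤ x) := by
    apply Finset.filter_congr
    intro n _
    rw [AP_eq ha0, U_union (AP_disj a J)]
    push_cast
    rfl
  rw [hfil, hrecAP]
  have t0 := t1_lem hDcard hE00 hE0 (by rw [hM1]; exact hN1) hNR hJpos
  exact collect hNR hJR hS hSS hS0 hμ hμ0 hs0 hs1 hCB.le hC1.le hK t0 (Nat.cast_nonneg n0)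
    (by exact_mod_cast (by omega : n0 ≤ J)) (by exact_mod_cast hJpos) (by exact_mod_cast hJN)
    (by rw [hcard1]; linarith [(Nat.cast_nonneg n0 : (0 : ℝ) ≤ n0)]) hE1 g1 g2

end EK
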