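import Mathlib

/-!
# Erdős–Kac with optimal rate for Beatty sequences: shared definitions

* `EK.pois t k`, `EK.poisCdf t k`: mass function and distribution function of the Poisson
  law of parameter `t`, indexed by `k : ℤ`.
* `EK.ex T f`: expectation of `f (S_T)` where `S_T` is a sum of independent Bernoulli variables
  with parameters `1/p`, `p ∈ T`.
* `EK.pmf T x`, `EK.cdf T x`: mass function and distribution function of `S_T`.
-/

namespace EK

open Finset

/-- Poisson mass function on `ℤ` (zero at negative integers). -/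
noncomputable def pois (t : ℝ) (k : ℤ) : ℝ :=
  if 0 ≤ k then Real.exp (-t) * t ^ k.toNat / (k.toNat).factorial else 0

/-- Poisson distribution function on `ℤ`. -/
noncomputable def poisCdf (t : ℝ) (k : ℤ) : ℝ :=
  ∑ j ∈ Finset.range (k + 1).toNat, pois t (j : ℤ)

/-- Expectation of `f (S_T)`, where `S_T` is the number of successes in independent trials
indexed by `p ∈ T`, the trial `p` having success probability `1/p`. -/
noncomputable def ex (T : Finset ℕ) (f : ℤ → ℝ) : ℝ :=
  ∑ A ∈ T.powerset, (∏ p ∈ A, (1 / (p : ℝ))) * (∏ p ∈ T \ A, (1 - 1 / (p : ℝ))) * f (A.card : ℤ)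

/-- Mass function of `S_T`. -/
noncomputable def pmf (T : Finset ℕ) (x : ℤ) : ℝ := ex T (fun y => if y = x then 1 else 0)

/-- Distribution function of `S_T`. -/
noncomputable def cdf (T : Finset ℕ) (x : ℤ) : ℝ := ex T (fun y => if y ≤ x then 1 else 0)

/-- The sum of the reciprocals of the elements of `T`. -/
noncomputable def recip (T : Finset ℕ) : ℝ := ∑ p ∈ T, (1 / (p : ℝ))

/-- `U T n` is the number of elements of `T` dividing `n`. -/
def U (T : Finset ℕ) (n : ℕ) : ℕ := (T.filter (fun p => p ∣ n)).card

/-- The primes below `2^(2^i)` which do not divide `a`. -/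
def PT (a i : ℕ) : Finset ℕ := (Finset.range (2 ^ 2 ^ i)).filter (fun p => p.Prime ∧ ¬ p ∣ a)

end EK
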