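import Pool.Agent.EK.Poisson

/-!
# MODULE N: normal approximation of the Poisson law with optimal rate

Paper proof of `poisCdf_normal`.  For `k < 0` the left side is `Φ((k-t)/√t) ≤ Φ(-√t) ≤ C/√t`; for `k = 0`
it is at most `exp(-t) + Φ(-√t)`; for `t < 1` the bound is trivial (`C ≥ 2`); if `k ≥ 1` and `k ≤ t/2` or
`k ≥ 2t`, both distribution functions are within `C/t` of `0` or `1` (Chebyshev; or use the argument
below, where the range of `k` only matters in the last step).

Let `k ≥ 1`.  By `hasDerivAt_poisCdf` (derivative `-s^k e^(-s)/k!`, `poisCdf 0 k = 1`, limit `0` at infinity)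
`poisCdf t k = ∫_{s>t} s^k e^(-s)/k! ds = ∫_{s>t} w / ∫_{s>0} w`, where
`w s = exp (-(s - k - k log (s/k)))` for `s > 0`, `w s = 0` for `s ≤ 0`.  Put `g s = exp (-(s-k)^2/(2k))`, so
`Φ((k-t)/√k) = ∫_{s>t} g / ∫ g`, `∫ g = √(2πk)`.
CLAIM `∫ |w - g| ≤ C`.  Then `|∫_A w/∫w - ∫_A g/∫g| ≤ 2 ∫|w-g| / ∫g ≤ C/√k` for every `A`, i.e.
`|poisCdf t k - Φ((k-t)/√k)| ≤ C/√k`.  Finally replace `√k` by `√t`: for `t/2 ≤ k ≤ 2t`,
`|Φ(x/√k) - Φ(x/√t)| ≤ sup_u |u| φ(u) * |√t/√k - 1| * C` with `x = k - t`, at most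
`C |x| φ(c x/√t) |k - t| / t^(3/2) ≤ C/√t` (as `u^2 φ(c u)` is bounded).
Proof of the claim, `s = k + x`, `y = x/k`, `v = x - k log(1+y)`:
* `x ≥ 0`: `0 ≤ x²/(2k) - v ≤ x³/(3k²)` and `v ≥ x²/(2(k+x))`, so
  `0 ≤ w - g ≤ (x³/(3k²)) exp(-x²/(2(k+x))) ≤ (x³/(3k²)) (exp(-x²/(4k)) + exp(-x/4))`,
  with integral at most `(8k² + 1536)/(3k²) ≤ C`.
* `x < 0`: `0 ≤ g - w ≤ 8 (|x|³/k²) exp(-x²/(2k))` (for `|y| ≤ 1/2` because
  `0 ≤ v - x²/(2k) ≤ k |y|³/(3(1-|y|))`; for `|y| > 1/2` because `g - w ≤ g` and `1 ≤ 8|y|³`, `k ≥ 1`),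
  with integral at most `16`.
-/


namespace EK
open MeasureTheory ProbabilityTheory Real

theorem log_ub1 {y : ℝ} (hy : 0 ≤ y) : log (1 + y) ≤ y * (y + 2) / (2 * (y + 1)) := by
  have hmono : MonotoneOn (fun z : ℝ => z * (z + 2) / (2 * (z + 1)) - log (1 + z)) (Set.Ici 0) := by
    have hd : ∀ z : ℝ, 0 ≤ z → HasDerivAt (fun z : ℝ => z * (z + 2) / (2 * (z + 1)) - log (1 + z))
        (z ^ 2 / (2 * (z + 1) ^ 2)) z := by
      intro z hz
      have h1 : HasDerivAt (fun z : ℝ => z * (z + 2)) (1 * (z + 2) + z * 1) z :=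
        (hasDerivAt_id z).mul ((hasDerivAt_id z).add_const 2)
      have h2 : HasDerivAt (fun z : ℝ => 2 * (z + 1)) (2 * 1) z :=
        ((hasDerivAt_id z).add_const 1).const_mul 2
      have h3 : HasDerivAt (fun z : ℝ => log (1 + z)) (1 / (1 + z)) z := by
        have := ((hasDerivAt_id z).const_add 1).log (by simp; positivity)
        simpa using this
      have h4 := (h1.fun_div h2 (by positivity)).fun_sub h3
      refine h4.congr_deriv ?_
      have : (1:ℝ) + z ≠ 0 := by positivity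
      have : z + 1 ≠ 0 := by positivity
      field_simp
      ring
    apply monotoneOn_of_deriv_nonneg (convex_Ici 0)
    · intro z hz
      exact (hd z hz).continuousAt.continuousWithinAt
    · intro z hz
      rw [interior_Ici] at hz
      exact (hd z (le_of_lt hz)).differentiableAt.differentiableWithinAt
    · intro z hz
      rw [interior_Ici] at hz
      rw [(hd z (le_of_lt hz)).deriv]
      positivity
  have := hmono (Set.mem_Ici.2 le_rfl) (Set.mem_Ici.2 hy) hy
  simp at this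
  linarith

theorem log_ub2 {y : ℝ} (hy : 0 ≤ y) : log (1 + y) ≤ y - y ^ 2 / 2 + y ^ 3 / 3 := by
  have hmono : MonotoneOn (fun z : ℝ => z - z ^ 2 / 2 + z ^ 3 / 3 - log (1 + z)) (Set.Ici 0) := by
    have hd : ∀ z : ℝ, 0 ≤ z → HasDerivAt (fun z : ℝ => z - z ^ 2 / 2 + z ^ 3 / 3 - log (1 + z))
        (z ^ 3 / (1 + z)) z := by
      intro z hz
      have h3 : HasDerivAt (fun z : ℝ => log (1 + z)) (1 / (1 + z)) z := by
        have := ((hasDerivAt_id z).const_add 1).log (by simp; positivity)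
        simpa using this
      have h1 : HasDerivAt (fun z : ℝ => z - z ^ 2 / 2 + z ^ 3 / 3)
          (1 - (2 * z) / 2 + (3 * z ^ 2) / 3) z := by
        have a := hasDerivAt_id' z
        have b := (hasDerivAt_pow 2 z).div_const 2
        have c := (hasDerivAt_pow 3 z).div_const 3
        have := (a.fun_sub b).fun_add c
        simpa using this
      have h4 := h1.fun_sub h3
      refine h4.congr_deriv ?_
      have : (1:ℝ) + z ≠ 0 := by positivity
      field_simp
      ring
    apply monotoneOn_of_deriv_nonneg (convex_Ici 0)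
    · intro z hz
      exact (hd z hz).continuousAt.continuousWithinAt
    · intro z hz
      rw [interior_Ici] at hz
      exact (hd z (le_of_lt hz)).differentiableAt.differentiableWithinAt
    · intro z hz
      rw [interior_Ici] at hz
      rw [(hd z (le_of_lt hz)).deriv]
      have : (0:ℝ) < z := hz
      positivity
  have := hmono (Set.mem_Ici.2 le_rfl) (Set.mem_Ici.2 hy) hy
  simp at this
  linarith

theorem log_lb1 {y : ℝ} (hy : 0 ≤ y) : y - y ^ 2 / 2 ≤ log (1 + y) := by
  have h := Real.le_log_one_add_of_nonneg hy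
  refine le_trans ?_ h
  rw [le_div_iff₀ (by positivity)]
  nlinarith [pow_nonneg hy 3]

theorem nlog_lb {y : ℝ} (hy : 0 ≤ y) (hy1 : y < 1) : y + y ^ 2 / 2 ≤ - log (1 - y) := by
  have h := Real.hasSum_pow_div_log_of_abs_lt_one (x := y) (by rwa [abs_of_nonneg hy])
  have h2 := sum_le_hasSum (Finset.range 2) (fun i _ => by positivity) h
  simp [Finset.sum_range_succ] at h2
  norm_num at h2
  linarith

theorem nlog_ub {y : ℝ} (hy : 0 ≤ y) (hy1 : y ≤ 1 / 2) : - log (1 - y) ≤ y + y ^ 2 / 2 + 2 * y ^ 3 := by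
  have h := Real.abs_log_sub_add_sum_range_le (x := y) (by rw [abs_of_nonneg hy]; linarith) 2
  rw [abs_of_nonneg hy] at h
  have h2 : y ^ (2 + 1) / (1 - y) ≤ 2 * y ^ 3 := by
    rw [div_le_iff₀ (by linarith)]
    have h3 := pow_nonneg hy 3
    have h4 : 0 ≤ y ^ 3 * (1 - 2 * y) := mul_nonneg h3 (by linarith)
    norm_num
    nlinarith
  have h3 := (abs_le.1 (le_trans h h2)).1
  simp [Finset.sum_range_succ] at h3
  norm_num at h3
  linarith

/-- the majorant -/
noncomputable def maj (k x : ℝ) : ℝ := 16 * (|x| ^ 3 / k ^ 2) * exp (-(|x| / (4 * √k)))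

theorem one_sub_exp_le {d : ℝ} : 1 - exp (-d) ≤ d := by
  have := Real.add_one_le_exp (-d)
  linarith

theorem exp_sixteenth : exp (1 / 16 : ℝ) ≤ 2 := by
  have h : exp (1 / 16 : ℝ) ≤ exp (log 2) := by
    apply Real.exp_le_exp.2
    have := Real.log_two_gt_d9
    linarith
  rwa [Real.exp_log (by norm_num)] at h

theorem core_pos {k x : ℝ} (hk : 1 ≤ k) (hx : 0 ≤ x) :
    |exp (-(x - k * log (1 + x / k))) - exp (-(x ^ 2 / (2 * k)))| ≤ maj k x := by
  have hk0 : 0 < k := by linarith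
  have hy : 0 ≤ x / k := by positivity
  set v := x - k * log (1 + x / k) with hv
  have h1 : v ≤ x ^ 2 / (2 * k) := by
    have h := log_lb1 hy
    have h' : k * (x / k - (x / k) ^ 2 / 2) ≤ k * log (1 + x / k) := mul_le_mul_of_nonneg_left h hk0.le
    have e : k * (x / k - (x / k) ^ 2 / 2) = x - x ^ 2 / (2 * k) := by field_simp
    rw [e] at h'; rw [hv]; linarith
  have h2 : x ^ 2 / (2 * k) - v ≤ x ^ 3 / (3 * k ^ 2) := by
    have h := log_ub2 hy
    have h' : k * log (1 + x / k) ≤ k * (x / k - (x / k) ^ 2 / 2 + (x / k) ^ 3 / 3) :=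
      mul_le_mul_of_nonneg_left h hk0.le
    have e : k * (x / k - (x / k) ^ 2 / 2 + (x / k) ^ 3 / 3) = x - x ^ 2 / (2 * k) + x ^ 3 / (3 * k ^ 2) := by
      field_simp
    rw [e] at h'; rw [hv]; linarith
  have h3 : x ^ 2 / (2 * (k + x)) ≤ v := by
    have h := log_ub1 hy
    have h' : k * log (1 + x / k) ≤ k * (x / k * (x / k + 2) / (2 * (x / k + 1))) :=
      mul_le_mul_of_nonneg_left h hk0.le
    have e : k * (x / k * (x / k + 2) / (2 * (x / k + 1))) = x - x ^ 2 / (2 * (k + x)) := by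
      field_simp
      ring
    rw [e] at h'; rw [hv]; linarith
  have hr : 1 ≤ √k := by rw [Real.one_le_sqrt]; exact hk
  have hr2 : √k ^ 2 = k := Real.sq_sqrt hk0.le
  have h4 : x / (4 * √k) - 1 / 16 ≤ x ^ 2 / (2 * (k + x)) := by
    rcases le_total x k with hxk | hxk
    · have a : x ^ 2 / (4 * k) ≤ x ^ 2 / (2 * (k + x)) := by
        apply div_le_div_of_nonneg_left (by positivity) (by positivity) (by linarith)
      have b : x / (4 * √k) - 1 / 16 ≤ x ^ 2 / (4 * k) := by
        have e : x ^ 2 / (4 * k) = (x / (2 * √k)) ^ 2 := by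
          rw [div_pow, mul_pow, hr2]; norm_num
        have e2 : x / (4 * √k) = (x / (2 * √k)) / 2 := by field_simp; norm_num
        rw [e, e2]
        nlinarith [sq_nonneg (x / (2 * √k) - 1 / 4)]
      linarith
    · have hx0 : 0 < x := by linarith
      have a : x / 4 ≤ x ^ 2 / (2 * (k + x)) := by
        rw [div_le_div_iff₀ (by norm_num) (by positivity)]
        nlinarith
      have b : x / (4 * √k) ≤ x / 4 := by
        apply div_le_div_of_nonneg_left hx (by norm_num) (by linarith)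
      linarith
  have h5 : exp (-v) ≤ 2 * exp (-(x / (4 * √k))) := by
    calc exp (-v) ≤ exp (1 / 16 + -(x / (4 * √k))) := by
          apply Real.exp_le_exp.2; linarith
      _ = exp (1 / 16) * exp (-(x / (4 * √k))) := Real.exp_add _ _
      _ ≤ _ := mul_le_mul_of_nonneg_right exp_sixteenth (Real.exp_pos _).le
  have h6 : exp (-(x ^ 2 / (2 * k))) ≤ exp (-v) := Real.exp_le_exp.2 (by linarith)
  rw [abs_of_nonneg (by linarith)]
  have h7 : exp (-v) - exp (-(x ^ 2 / (2 * k))) = exp (-v) * (1 - exp (-(x ^ 2 / (2 * k) - v))) := by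
    rw [mul_sub, mul_one, ← Real.exp_add]; congr 2; ring
  rw [h7]
  have h8 : 1 - exp (-(x ^ 2 / (2 * k) - v)) ≤ x ^ 3 / (3 * k ^ 2) := le_trans one_sub_exp_le h2
  have h9 : 0 ≤ 1 - exp (-(x ^ 2 / (2 * k) - v)) := by
    have : exp (-(x ^ 2 / (2 * k) - v)) ≤ 1 := Real.exp_le_one_iff.2 (by linarith)
    linarith
  calc exp (-v) * (1 - exp (-(x ^ 2 / (2 * k) - v)))
      ≤ (2 * exp (-(x / (4 * √k)))) * (x ^ 3 / (3 * k ^ 2)) :=
        mul_le_mul h5 h8 h9 (by positivity)
    _ ≤ maj k x := by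
        unfold maj
        rw [abs_of_nonneg hx]
        have e : (2 * exp (-(x / (4 * √k)))) * (x ^ 3 / (3 * k ^ 2))
          = (2 / 3) * (x ^ 3 / k ^ 2) * exp (-(x / (4 * √k))) := by field_simp
        rw [e]
        apply mul_le_mul_of_nonneg_right _ (Real.exp_pos _).le
        apply mul_le_mul_of_nonneg_right (by norm_num) (by positivity)

theorem gauss_maj {k x : ℝ} (hk : 1 ≤ k) :
    exp (-(x ^ 2 / (2 * k))) ≤ 2 * exp (-(x / (4 * √k))) := by
  have hk0 : 0 < k := by linarith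
  have hr : 1 ≤ √k := by rw [Real.one_le_sqrt]; exact hk
  have hr2 : √k ^ 2 = k := Real.sq_sqrt hk0.le
  have h4 : x / (4 * √k) - 1 / 16 ≤ x ^ 2 / (2 * k) := by
    have e : x ^ 2 / (2 * k) = (x / √k) ^ 2 / 2 := by
      rw [div_pow, hr2]; field_simp
    have e2 : x / (4 * √k) = (x / √k) / 4 := by field_simp
    rw [e, e2]
    nlinarith [sq_nonneg (x / √k - 1 / 4)]
  calc exp (-(x ^ 2 / (2 * k))) ≤ exp (1 / 16 + -(x / (4 * √k))) := by
        apply Real.exp_le_exp.2; linarith
    _ = exp (1 / 16) * exp (-(x / (4 * √k))) := Real.exp_add _ _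
    _ ≤ _ := mul_le_mul_of_nonneg_right exp_sixteenth (Real.exp_pos _).le

theorem core_neg {k x : ℝ} (hk : 1 ≤ k) (hx : 0 ≤ x) (hxk : x < k) :
    |exp (-(-x - k * log (1 - x / k))) - exp (-(x ^ 2 / (2 * k)))| ≤ maj k x := by
  have hk0 : 0 < k := by linarith
  have hy : 0 ≤ x / k := by positivity
  have hy1 : x / k < 1 := (div_lt_one hk0).2 hxk
  set v := -x - k * log (1 - x / k) with hv
  have h1 : x ^ 2 / (2 * k) ≤ v := by
    have h := nlog_lb hy hy1
    have h' := mul_le_mul_of_nonneg_left h hk0.le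
    have e : k * (x / k + (x / k) ^ 2 / 2) = x + x ^ 2 / (2 * k) := by field_simp
    rw [e] at h'; rw [hv]; linarith
  have h6 : exp (-v) ≤ exp (-(x ^ 2 / (2 * k))) := Real.exp_le_exp.2 (by linarith)
  rw [abs_sub_comm, abs_of_nonneg (by linarith)]
  have h7 : exp (-(x ^ 2 / (2 * k))) - exp (-v)
      = exp (-(x ^ 2 / (2 * k))) * (1 - exp (-(v - x ^ 2 / (2 * k)))) := by
    rw [mul_sub, mul_one, ← Real.exp_add]; congr 2; ring
  rw [h7]
  have h9 : 0 ≤ 1 - exp (-(v - x ^ 2 / (2 * k))) := by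
    have : exp (-(v - x ^ 2 / (2 * k))) ≤ 1 := Real.exp_le_one_iff.2 (by linarith)
    linarith
  have h8 : 1 - exp (-(v - x ^ 2 / (2 * k))) ≤ 8 * (x ^ 3 / k ^ 2) := by
    rcases le_total (x / k) (1 / 2) with hh | hh
    · have h := nlog_ub hy hh
      have h' := mul_le_mul_of_nonneg_left h hk0.le
      have e : k * (x / k + (x / k) ^ 2 / 2 + 2 * (x / k) ^ 3) = x + x ^ 2 / (2 * k) + 2 * (x ^ 3 / k ^ 2) := by
        field_simp
      rw [e] at h'
      have h2 : v - x ^ 2 / (2 * k) ≤ 2 * (x ^ 3 / k ^ 2) := by rw [hv]; linarith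
      have h3 : 0 ≤ x ^ 3 / k ^ 2 := by positivity
      have h10 := @one_sub_exp_le (v - x ^ 2 / (2 * k))
      linarith
    · have h2 : 1 ≤ 8 * (x ^ 3 / k ^ 2) := by
        have a : k / 2 ≤ x := by
          rw [le_div_iff₀ hk0] at hh; linarith
        have b : (k / 2) ^ 3 ≤ x ^ 3 := pow_le_pow_left₀ (by positivity) a 3
        rw [mul_div_assoc', le_div_iff₀ (by positivity)]
        nlinarith [sq_nonneg k, mul_nonneg (sq_nonneg k) (by linarith : (0:ℝ) ≤ k - 1)]
      have h3 : 0 < exp (-(v - x ^ 2 / (2 * k))) := Real.exp_pos _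
      linarith
  calc exp (-(x ^ 2 / (2 * k))) * (1 - exp (-(v - x ^ 2 / (2 * k))))
      ≤ (2 * exp (-(x / (4 * √k)))) * (8 * (x ^ 3 / k ^ 2)) :=
        mul_le_mul (gauss_maj hk) h8 h9 (by positivity)
    _ = maj k x := by
        unfold maj
        rw [abs_of_nonneg hx]
        ring

theorem core_far {k x : ℝ} (hk : 1 ≤ k) (hxk : k ≤ x) :
    exp (-(x ^ 2 / (2 * k))) ≤ maj k x := by
  have hk0 : 0 < k := by linarith
  have hx : 0 ≤ x := by linarith
  have h2 : 1 ≤ 8 * (x ^ 3 / k ^ 2) := by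
    have b : k ^ 3 ≤ x ^ 3 := pow_le_pow_left₀ (by positivity) hxk 3
    rw [mul_div_assoc', le_div_iff₀ (by positivity)]
    nlinarith [sq_nonneg k, mul_nonneg (sq_nonneg k) (by linarith : (0:ℝ) ≤ k - 1)]
  calc exp (-(x ^ 2 / (2 * k))) ≤ 2 * exp (-(x / (4 * √k))) := gauss_maj hk
    _ ≤ (2 * exp (-(x / (4 * √k)))) * (8 * (x ^ 3 / k ^ 2)) := by
        apply le_mul_of_one_le_right (by positivity) h2
    _ = maj k x := by
        unfold maj
        rw [abs_of_nonneg hx]
        ring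

end EK

namespace EK
open MeasureTheory ProbabilityTheory Real Set Filter Topology

theorem integral_maj {k : ℝ} (hk : 1 ≤ k) : ∫ x : ℝ, maj k x = 49152 := by
  have hk0 : 0 < k := by linarith
  set a : ℝ := 1 / (4 * √k) with ha
  have hr : 0 < √k := Real.sqrt_pos.2 hk0
  have ha0 : 0 < a := by positivity
  have h1 : ∫ x : ℝ in Ioi 0, x ^ 3 * exp (-(a * x)) = 6 / a ^ 4 := by
    have h := Real.integral_rpow_mul_exp_neg_mul_Ioi (a := 4) (r := a) (by norm_num) ha0
    have e : Real.Gamma 4 = 6 := by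
      rw [show (4:ℝ) = ((3:ℕ):ℝ) + 1 by norm_num, Real.Gamma_nat_eq_factorial]
      norm_num [Nat.factorial]
    rw [e] at h
    have e2 : (1 / a) ^ (4 : ℝ) = 1 / a ^ 4 := by
      rw [show (4 : ℝ) = ((4 : ℕ) : ℝ) by norm_num, Real.rpow_natCast, div_pow, one_pow]
    rw [e2] at h
    have e3 : ∫ x : ℝ in Ioi 0, x ^ 3 * exp (-(a * x))
        = ∫ t : ℝ in Ioi 0, t ^ ((4 : ℝ) - 1) * exp (-(a * t)) := by
      refine setIntegral_congr_fun measurableSet_Ioi (fun t ht => ?_)
      have : t ^ ((4 : ℝ) - 1) = t ^ 3 := by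
        rw [show (4 : ℝ) - 1 = ((3 : ℕ) : ℝ) by norm_num, Real.rpow_natCast]
      simp only [this]
    rw [e3, h]; ring
  have h2 : ∫ x : ℝ, |x| ^ 3 * exp (-(a * |x|)) = 12 / a ^ 4 := by
    have := integral_comp_abs (f := fun x : ℝ => x ^ 3 * exp (-(a * x)))
    rw [this, h1]; ring
  have h3 : ∀ x : ℝ, maj k x = 16 / k ^ 2 * (|x| ^ 3 * exp (-(a * |x|))) := by
    intro x
    unfold maj
    rw [ha]
    have : |x| / (4 * √k) = 1 / (4 * √k) * |x| := by ring
    rw [this]; ring
  simp_rw [h3]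
  rw [integral_const_mul, h2, ha]
  have hr2 : √k ^ 4 = k ^ 2 := by
    have : √k ^ 2 = k := Real.sq_sqrt hk0.le
    calc √k ^ 4 = (√k ^ 2) ^ 2 := by ring
      _ = k ^ 2 := by rw [this]
  have : (1 / (4 * √k)) ^ 4 = 1 / (256 * k ^ 2) := by
    rw [div_pow, mul_pow, hr2]; norm_num
  rw [this]
  field_simp
  norm_num

theorem integrable_maj {k : ℝ} (hk : 1 ≤ k) : Integrable (maj k) := by
  by_contra h
  have h1 := integral_maj hk
  rw [integral_undef h] at h1
  norm_num at h1

theorem maj_nonneg (k x : ℝ) : 0 ≤ maj k x := by unfold maj; positivity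

theorem maj_abs (k x : ℝ) : maj k |x| = maj k x := by unfold maj; rw [abs_abs]

/-- Poisson mass as a function of the parameter, cut off at `0` -/
noncomputable def qf (k : ℕ) (s : ℝ) : ℝ := if 0 < s then pois s (k : ℤ) else 0

theorem pois_nat (t : ℝ) (k : ℕ) : pois t (k : ℤ) = exp (-t) * t ^ k / k.factorial := by
  unfold pois
  simp

theorem qf_bound {k : ℕ} (hk : 1 ≤ k) (s : ℝ) :
    |qf k s - pois (k : ℝ) (k : ℤ) * exp (-((s - k) ^ 2 / (2 * k)))|
      ≤ pois (k : ℝ) (k : ℤ) * maj k (s - k) := by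
  have hk1 : (1 : ℝ) ≤ k := by exact_mod_cast hk
  have hk0 : (0 : ℝ) < k := by linarith
  have hc : 0 ≤ pois (k : ℝ) (k : ℤ) := by rw [pois_nat]; positivity
  unfold qf
  split_ifs with hs
  · -- s > 0
    have e : pois s (k : ℤ) = pois (k : ℝ) (k : ℤ) * exp (-((s - k) - k * log (s / k))) := by
      rw [pois_nat, pois_nat]
      have h1 : exp (-((s - k) - k * log (s / k))) = exp (-s) * exp k * (s / k) ^ k := by
        have : (s / k) ^ k = exp (k * log (s / k)) := by
          rw [mul_comm, Real.exp_mul, Real.exp_log (by positivity), Real.rpow_natCast]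
        rw [this, ← Real.exp_add, ← Real.exp_add]; congr 1; ring
      rw [h1]
      have h2 : exp (-(k : ℝ)) * exp (k : ℝ) = 1 := by rw [← Real.exp_add]; simp
      rw [div_pow]
      have hkk : (k : ℝ) ^ k ≠ 0 := by positivity
      have hf : (k.factorial : ℝ) ≠ 0 := by positivity
      have h3 : exp (-(k : ℝ)) * (k : ℝ) ^ k / k.factorial * (exp (-s) * exp (k : ℝ) * (s ^ k / (k : ℝ) ^ k))
        = (exp (-(k : ℝ)) * exp (k : ℝ)) * (exp (-s) * s ^ k / k.factorial) := by
        field_simp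
      rw [h3, h2, one_mul]
    rw [e, ← mul_sub, abs_mul, abs_of_nonneg hc]
    apply mul_le_mul_of_nonneg_left _ hc
    rcases le_total (k : ℝ) s with h | h
    · have := core_pos (k := k) (x := s - k) hk1 (by linarith)
      have e2 : 1 + (s - k) / k = s / k := by field_simp; ring
      rwa [e2] at this
    · have := core_neg (k := k) (x := k - s) hk1 (by linarith) (by linarith)
      have e2 : 1 - (k - s) / k = s / k := by field_simp; ring
      have e3 : -(k - s) = s - k := by ring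
      have e4 : ((k : ℝ) - s) ^ 2 = (s - k) ^ 2 := by ring
      rw [e2, e3, e4, ← maj_abs, abs_sub_comm (k : ℝ) s, maj_abs] at this
      exact this
  · have hs : s ≤ 0 := not_lt.1 hs
    rw [zero_sub, abs_neg, abs_of_nonneg (by positivity)]
    apply mul_le_mul_of_nonneg_left _ hc
    have := core_far (k := k) (x := k - s) hk1 (by linarith)
    have e4 : ((k : ℝ) - s) ^ 2 = (s - k) ^ 2 := by ring
    rw [e4, ← maj_abs, abs_sub_comm (k : ℝ) s, maj_abs] at this
    exact this

theorem tendsto_poisCdf (k : ℤ) : Tendsto (fun s => poisCdf s k) atTop (𝓝 0) := by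
  unfold poisCdf
  have : (0 : ℝ) = ∑ j ∈ Finset.range (k + 1).toNat, (0 : ℝ) := by simp
  rw [this]
  apply tendsto_finsetSum
  intro j _
  have h1 : (fun s => pois s (j : ℤ)) = fun s => (s ^ j * exp (-s)) * (1 / (j.factorial : ℝ)) := by
    funext s; rw [pois_nat]; ring
  rw [h1]
  have := (Real.tendsto_pow_mul_exp_neg_atTop_nhds_zero j).mul_const (1 / (j.factorial : ℝ))
  simpa using this

theorem integrableOn_pois {t : ℝ} (ht : 0 ≤ t) (k : ℕ) :
    IntegrableOn (fun s => pois s (k : ℤ)) (Ioi t) := by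
  have h := integrableOn_Ioi_deriv_of_nonneg' (a := t) (g := fun s => - poisCdf s (k : ℤ))
    (g' := fun s => pois s (k : ℤ)) (l := 0)
    (fun x _ => by simpa using (hasDerivAt_poisCdf x (k : ℤ)).fun_neg)
    (fun x hx => pois_nonneg (le_trans ht (le_of_lt hx)) _)
    (by simpa using (tendsto_poisCdf (k : ℤ)).neg)
  exact h

theorem integral_pois {t : ℝ} (ht : 0 ≤ t) (k : ℕ) :
    ∫ s in Ioi t, pois s (k : ℤ) = poisCdf t (k : ℤ) := by
  have h := integral_Ioi_of_hasDerivAt_of_nonneg' (a := t) (g := fun s => - poisCdf s (k : ℤ))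
    (g' := fun s => pois s (k : ℤ)) (l := 0)
    (fun x _ => by simpa using (hasDerivAt_poisCdf x (k : ℤ)).fun_neg)
    (fun x hx => pois_nonneg (le_trans ht (le_of_lt hx)) _)
    (by simpa using (tendsto_poisCdf (k : ℤ)).neg)
  rw [h]; ring

theorem integral_qf_Ioi {t : ℝ} (ht : 0 ≤ t) (k : ℕ) :
    ∫ s in Ioi t, qf k s = poisCdf t (k : ℤ) := by
  rw [← integral_pois ht k]
  refine setIntegral_congr_fun measurableSet_Ioi (fun s hs => ?_)
  have : 0 < s := lt_of_le_of_lt ht hs
  simp [qf, this]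

theorem qf_eq_indicator (k : ℕ) : qf k = (Ioi (0 : ℝ)).indicator (fun s => pois s (k : ℤ)) := by
  funext s
  by_cases h : 0 < s
  · simp [qf, h]
  · simp [qf, h]

theorem integrable_qf (k : ℕ) : Integrable (qf k) := by
  rw [qf_eq_indicator, integrable_indicator_iff measurableSet_Ioi]
  exact integrableOn_pois le_rfl k

theorem integral_qf (k : ℕ) : ∫ s, qf k s = 1 := by
  rw [qf_eq_indicator, integral_indicator measurableSet_Ioi, integral_pois le_rfl k]
  exact poisCdf_zero (by positivity)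

end EK

namespace EK
open MeasureTheory ProbabilityTheory Real Set Filter Topology
open scoped NNReal ENNReal

/-- standard normal distribution function -/
noncomputable def Phi (x : ℝ) : ℝ := ProbabilityTheory.cdf (gaussianReal 0 1) x

theorem Phi_nonneg (x : ℝ) : 0 ≤ Phi x := cdf_nonneg _ _
theorem Phi_le_one (x : ℝ) : Phi x ≤ 1 := cdf_le_one _ _
theorem Phi_mono {x y : ℝ} (h : x ≤ y) : Phi x ≤ Phi y := monotone_cdf _ h
theorem Phi_eq (x : ℝ) : Phi x = (gaussianReal 0 1).real (Iic x) := cdf_eq_real _ _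

theorem real_gauss (μ : ℝ) {v : ℝ≥0} (hv : v ≠ 0) (s : Set ℝ) :
    (gaussianReal μ v).real s = ∫ x in s, gaussianPDFReal μ v x := by
  rw [Measure.real, gaussianReal_apply_eq_integral μ hv s, ENNReal.toReal_ofReal]
  exact integral_nonneg (fun x => gaussianPDFReal_nonneg _ _ _)

theorem Phi_eq_integral {k : ℕ} (hk : 1 ≤ k) (t : ℝ) :
    Phi ((k - t) / √k) = ∫ s in Ioi t, gaussianPDFReal k k s := by
  have hk0 : (0 : ℝ) < k := by exact_mod_cast hk
  have hr : 0 < √(k : ℝ) := Real.sqrt_pos.2 hk0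
  have hkv : (k : ℝ≥0) ≠ 0 := by exact_mod_cast (by omega : k ≠ 0)
  have h1 : gaussianReal (k : ℝ) (k : ℝ≥0)
      = ((gaussianReal 0 1).map (fun z => √(k : ℝ) * z)).map (fun z => (k : ℝ) - z) := by
    rw [gaussianReal_map_const_mul, gaussianReal_map_const_sub]
    congr 1
    · ring
    · ext
      simp [Real.sq_sqrt hk0.le]
  rw [← integral_Ici_eq_integral_Ioi, ← real_gauss _ hkv, h1,
    Measure.map_map (by fun_prop) (by fun_prop), Phi_eq, Measure.real, Measure.real,
    Measure.map_apply (by fun_prop) measurableSet_Ici]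
  congr 2
  ext z
  simp only [mem_Iic, mem_preimage, Function.comp, mem_Ici]
  rw [le_div_iff₀ hr]
  constructor <;> intro h <;> linarith

theorem pdf_eq {k : ℕ} (s : ℝ) :
    gaussianPDFReal k k s = (√(2 * π * k))⁻¹ * exp (-((s - k) ^ 2 / (2 * k))) := by
  rw [gaussianPDFReal]
  congr 2
  · simp
    ring

theorem set_compare {k : ℕ} (hk : 1 ≤ k) (S : Set ℝ) :
    |(∫ s in S, qf k s) - pois (k : ℝ) (k : ℤ) * √(2 * π * k) * ∫ s in S, gaussianPDFReal k k s|
      ≤ pois (k : ℝ) (k : ℤ) * 49152 := by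
  have hk1 : (1 : ℝ) ≤ k := by exact_mod_cast hk
  have hk0 : (0 : ℝ) < k := by linarith
  have hc : 0 ≤ pois (k : ℝ) (k : ℤ) := by rw [pois_nat]; positivity
  set c := pois (k : ℝ) (k : ℤ) with hcdef
  have hA : 0 < √(2 * π * k) := by positivity
  rw [← integral_const_mul, ← integral_sub (integrable_qf k).integrableOn
    ((integrable_gaussianPDFReal _ _).const_mul _).integrableOn]
  refine le_trans (abs_integral_le_integral_abs) ?_
  have hI : Integrable (fun s => c * maj k (s - k)) :=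
    ((integrable_maj hk1).comp_sub_right (k : ℝ)).const_mul c
  have h1 : ∫ s in S, |qf k s - c * √(2 * π * k) * gaussianPDFReal k k s|
      ≤ ∫ s in S, c * maj k (s - k) := by
    apply integral_mono_of_nonneg
    · exact ae_of_all _ (fun s => abs_nonneg _)
    · exact hI.integrableOn
    · refine ae_of_all _ (fun s => ?_)
      have := qf_bound hk s
      beta_reduce
      rw [pdf_eq]
      have e : c * √(2 * π * k) * ((√(2 * π * k))⁻¹ * exp (-((s - k) ^ 2 / (2 * k))))
        = c * exp (-((s - k) ^ 2 / (2 * k))) := by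
        field_simp
      simp only [e]
      exact this
  have h2 : ∫ s in S, c * maj k (s - k) ≤ ∫ s, c * maj k (s - k) := by
    apply setIntegral_le_integral hI
    exact ae_of_all _ (fun s => mul_nonneg hc (maj_nonneg _ _))
  have h3 : ∫ s, c * maj k (s - k) = c * 49152 := by
    rw [integral_const_mul, integral_sub_right_eq_self (fun x => maj (k : ℝ) x) (k : ℝ), integral_maj hk1]
  linarith

theorem poisCdf_normal_k {k : ℕ} (hk : 1 ≤ k) {t : ℝ} (ht : 0 ≤ t) :
    |poisCdf t (k : ℤ) - Phi ((k - t) / √k)| ≤ 196608 / √k := by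
  have hk1 : (1 : ℝ) ≤ k := by exact_mod_cast hk
  have hk0 : (0 : ℝ) < k := by linarith
  have hkv : (k : ℝ≥0) ≠ 0 := by exact_mod_cast (by omega : k ≠ 0)
  have hc : 0 ≤ pois (k : ℝ) (k : ℤ) := by rw [pois_nat]; positivity
  have h1 := set_compare hk (Ioi t)
  have h2 := set_compare hk univ
  rw [integral_qf_Ioi ht, ← Phi_eq_integral hk] at h1
  rw [Measure.restrict_univ, integral_qf, integral_gaussianPDFReal_eq_one _ hkv] at h2
  have h3 := pois_le hk0 (k : ℤ)
  set c := pois (k : ℝ) (k : ℤ) with hcdef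
  set A := √(2 * π * k)
  set P := Phi ((k - t) / √k) with hP
  have hP0 : 0 ≤ P := Phi_nonneg _
  have hP1 : P ≤ 1 := Phi_le_one _
  have h4 : |poisCdf t (k : ℤ) - P| ≤ |poisCdf t (k : ℤ) - c * A * P| + |1 - c * A * 1| * P := by
    have : poisCdf t (k : ℤ) - P = (poisCdf t (k : ℤ) - c * A * P) - (1 - c * A * 1) * P := by ring
    rw [this]
    refine le_trans (abs_sub _ _) ?_
    rw [abs_mul, abs_of_nonneg hP0]
  have h5 : |1 - c * A * 1| * P ≤ c * 49152 := by
    calc |1 - c * A * 1| * P ≤ |1 - c * A * 1| * 1 := mul_le_mul_of_nonneg_left hP1 (abs_nonneg _)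
      _ ≤ _ := by rw [mul_one]; exact h2
  have h6 : c * 49152 + c * 49152 ≤ 196608 / √k := by
    have : 196608 / √(k : ℝ) = (2 / √k) * 98304 := by ring
    rw [this]
    linarith
  linarith

theorem Phi_sub_le {a b M : ℝ} (hab : a ≤ b) (hM : ∀ s ∈ Ioc a b, gaussianPDFReal 0 1 s ≤ M) :
    Phi b - Phi a ≤ M * (b - a) := by
  have h1 : Phi b - Phi a = ∫ s in Ioc a b, gaussianPDFReal 0 1 s := by
    rw [Phi_eq, Phi_eq, ← real_gauss _ one_ne_zero]
    have : Iic b = Iic a ∪ Ioc a b := (Iic_union_Ioc_eq_Iic hab).symm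
    rw [this, measureReal_union (by
      rw [Set.disjoint_left]; intro x hx hx2; exact absurd hx2.1 (not_lt.2 hx)) measurableSet_Ioc]
    ring
  rw [h1]
  calc ∫ s in Ioc a b, gaussianPDFReal 0 1 s ≤ ∫ s in Ioc a b, M := by
        apply setIntegral_mono_on (integrable_gaussianPDFReal _ _).integrableOn
        · exact integrableOn_const (by simp)
        · exact measurableSet_Ioc
        · exact hM
    _ = M * (b - a) := by
        rw [setIntegral_const, smul_eq_mul, Measure.real, Real.volume_Ioc, ENNReal.toReal_ofReal (by linarith)]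
        ring

theorem sqrt_two_pi : 2 ≤ √(2 * π) := by
  apply Real.le_sqrt_of_sq_le
  nlinarith [Real.pi_gt_three]

theorem pdf_le_one (s : ℝ) : gaussianPDFReal 0 1 s ≤ 1 := by
  rw [gaussianPDFReal]
  have h1 : (√(2 * π * ((1 : ℝ≥0) : ℝ)))⁻¹ ≤ 1 := by
    apply inv_le_one_of_one_le₀
    have := sqrt_two_pi
    rw [NNReal.coe_one, mul_one]
    linarith
  have h2 : exp (-(s - 0) ^ 2 / (2 * ((1 : ℝ≥0) : ℝ))) ≤ 1 := by
    apply Real.exp_le_one_iff.2
    rw [NNReal.coe_one]
    have := sq_nonneg (s - 0)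
    apply div_nonpos_of_nonpos_of_nonneg (by linarith) (by norm_num)
  calc _ ≤ 1 * 1 := mul_le_mul h1 h2 (by positivity) (by norm_num)
    _ = 1 := one_mul 1

theorem pdf_le_sq {s : ℝ} (hs : s ≠ 0) : gaussianPDFReal 0 1 s ≤ 1 / s ^ 2 := by
  rw [gaussianPDFReal]
  have hs2 : 0 < s ^ 2 := by positivity
  have h1 : (√(2 * π * ((1 : ℝ≥0) : ℝ)))⁻¹ ≤ 1 / 2 := by
    rw [one_div]
    apply inv_anti₀ (by norm_num)
    have := sqrt_two_pi
    simpa using this
  have h2 : exp (-(s - 0) ^ 2 / (2 * ((1 : ℝ≥0) : ℝ))) ≤ 2 / s ^ 2 := by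
    have h3 := Real.add_one_le_exp (s ^ 2 / 2)
    have e : (-(s - 0) ^ 2 / (2 * ((1 : ℝ≥0) : ℝ))) = -(s ^ 2 / 2) := by simp; ring
    rw [e, Real.exp_neg, inv_eq_one_div, div_le_div_iff₀ (Real.exp_pos _) hs2]
    linarith
  calc _ ≤ (1 / 2) * (2 / s ^ 2) := mul_le_mul h1 h2 (by positivity) (by norm_num)
    _ = 1 / s ^ 2 := by field_simp

theorem Phi_lip (x y : ℝ) : |Phi x - Phi y| ≤ |x - y| := by
  rcases le_total x y with h | h
  · rw [abs_sub_comm, abs_sub_comm x y, abs_of_nonneg (sub_nonneg.2 (Phi_mono h)), abs_of_nonneg (sub_nonneg.2 h)]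
    simpa using Phi_sub_le h (fun s _ => pdf_le_one s)
  · rw [abs_of_nonneg (sub_nonneg.2 (Phi_mono h)), abs_of_nonneg (sub_nonneg.2 h)]
    simpa using Phi_sub_le h (fun s _ => pdf_le_one s)

theorem gauss_lip (x y : ℝ) :
    |ProbabilityTheory.cdf (gaussianReal 0 1) x - ProbabilityTheory.cdf (gaussianReal 0 1) y|
      ≤ |x - y| := Phi_lip x y

/-- for two numbers `a ≤ b` of the same sign, both of absolute value `≥ m > 0` -/
theorem Phi_decay {a b m : ℝ} (hm : 0 < m) (hab : a ≤ b) (h : m ≤ a ∨ b ≤ -m) :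
    Phi b - Phi a ≤ (b - a) / m ^ 2 := by
  have : Phi b - Phi a ≤ (1 / m ^ 2) * (b - a) := by
    apply Phi_sub_le hab
    intro s hs
    have hs1 : m ^ 2 ≤ s ^ 2 := by
      rcases h with h | h
      · have : m ≤ s := le_trans h (le_of_lt hs.1)
        exact pow_le_pow_left₀ hm.le this 2
      · have : m ≤ -s := by linarith [hs.2]
        have := pow_le_pow_left₀ hm.le this 2
        simpa using this
    have hs0 : s ≠ 0 := by
      rintro rfl
      have : 0 < m ^ 2 := by positivity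
      simp at hs1
      linarith
    refine le_trans (pdf_le_sq hs0) ?_
    apply one_div_le_one_div_of_le (by positivity) hs1
  calc _ ≤ _ := this
    _ = _ := by ring

theorem Phi_decay_abs {a b m : ℝ} (hm : 0 < m) (h : (m ≤ a ∧ m ≤ b) ∨ (a ≤ -m ∧ b ≤ -m)) :
    |Phi a - Phi b| ≤ |a - b| / m ^ 2 := by
  rcases le_total a b with hab | hab
  · rw [abs_sub_comm, abs_sub_comm a b, abs_of_nonneg (sub_nonneg.2 (Phi_mono hab)),
      abs_of_nonneg (sub_nonneg.2 hab)]
    exact Phi_decay hm hab (h.imp (fun x => x.1) (fun x => x.2))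
  · rw [abs_of_nonneg (sub_nonneg.2 (Phi_mono hab)), abs_of_nonneg (sub_nonneg.2 hab)]
    exact Phi_decay hm hab (h.imp (fun x => x.2) (fun x => x.1))

theorem gauss_cheb {y : ℝ} (hy : 0 < y) :
    (gaussianReal 0 1).real {z | y ≤ |z|} ≤ 1 / y ^ 2 := by
  have h := meas_ge_le_variance_div_sq (μ := gaussianReal 0 1) (X := id)
    (memLp_id_gaussianReal' 2 (by simp)) hy
  have e1 : (gaussianReal 0 1)[id] = 0 := by
    simpa using integral_id_gaussianReal (μ := 0) (v := 1)
  rw [e1, variance_id_gaussianReal] at h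
  simp only [id, sub_zero] at h
  rw [Measure.real]
  refine ENNReal.toReal_le_of_le_ofReal (by positivity) ?_
  simpa using h

theorem Phi_tail_neg {x y : ℝ} (hy : 0 < y) (hx : x ≤ -y) : Phi x ≤ 1 / y ^ 2 := by
  rw [Phi_eq]
  refine le_trans ?_ (gauss_cheb hy)
  refine measureReal_mono ?_ (measure_ne_top _ _)
  intro z hz
  have : z ≤ -y := le_trans hz hx
  show y ≤ |z|
  rw [abs_of_nonpos (by linarith)]
  linarith

theorem Phi_tail_pos {x y : ℝ} (hy : 0 < y) (hx : y ≤ x) : 1 - Phi x ≤ 1 / y ^ 2 := by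
  have h1 : 1 - Phi x = (gaussianReal 0 1).real (Ioi x) := by
    rw [Phi_eq, ← compl_Iic, probReal_compl_eq_one_sub measurableSet_Iic]
  rw [h1]
  refine le_trans ?_ (gauss_cheb hy)
  refine measureReal_mono ?_ (measure_ne_top _ _)
  intro z hz
  have : x < z := hz
  show y ≤ |z|
  rw [abs_of_nonneg (by linarith)]
  linarith

end EK

namespace EK
open MeasureTheory ProbabilityTheory Real Set Filter Topology
open scoped NNReal ENNReal

theorem poisCdf_small {t : ℝ} (ht : 0 < t) {k : ℕ} (hk : (k : ℝ) ≤ t / 2) :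
    poisCdf t (k : ℤ) ≤ 7 / t := by
  have h1 : poisCdf t (k : ℤ) ≤ exp (-t) * (2 ^ k * exp (t / 2)) := by
    unfold poisCdf
    have e : ((k : ℤ) + 1).toNat = k + 1 := by omega
    rw [e]
    have h2 : ∑ j ∈ Finset.range (k + 1), pois t (j : ℤ)
        ≤ ∑ j ∈ Finset.range (k + 1), exp (-t) * 2 ^ k * ((t / 2) ^ j / j.factorial) := by
      apply Finset.sum_le_sum
      intro j hj
      have hjk : j ≤ k := by simpa [Nat.lt_succ_iff] using hj
      rw [pois_nat]
      have h3 : t ^ j ≤ 2 ^ k * (t / 2) ^ j := by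
        have : t ^ j = 2 ^ j * (t / 2) ^ j := by rw [← mul_pow]; congr 1; ring
        rw [this]
        apply mul_le_mul_of_nonneg_right _ (by positivity)
        exact pow_le_pow_right₀ (by norm_num) hjk
      calc exp (-t) * t ^ j / j.factorial ≤ exp (-t) * (2 ^ k * (t / 2) ^ j) / j.factorial := by
            gcongr
        _ = _ := by ring
    refine le_trans h2 ?_
    rw [← Finset.mul_sum, mul_assoc]
    apply mul_le_mul_of_nonneg_left _ (by positivity)
    apply mul_le_mul_of_nonneg_left _ (by positivity)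
    exact Real.sum_le_exp_of_nonneg (by positivity) _
  have h2 : (2 : ℝ) ^ k ≤ exp (t / 2 * log 2) := by
    have : (2 : ℝ) ^ k = exp (k * log 2) := by
      rw [mul_comm, Real.exp_mul, Real.exp_log (by norm_num), Real.rpow_natCast]
    rw [this]
    apply Real.exp_le_exp.2
    exact mul_le_mul_of_nonneg_right hk (Real.log_nonneg (by norm_num))
  have h3 : exp (-t) * (2 ^ k * exp (t / 2)) ≤ exp (-(t * (3 / 20))) := by
    calc exp (-t) * (2 ^ k * exp (t / 2)) ≤ exp (-t) * (exp (t / 2 * log 2) * exp (t / 2)) := by gcongr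
      _ = exp (-t + (t / 2 * log 2 + t / 2)) := by rw [Real.exp_add, Real.exp_add]
      _ ≤ _ := by
        apply Real.exp_le_exp.2
        have := Real.log_two_lt_d9
        nlinarith
  have h4 : exp (-(t * (3 / 20))) ≤ 7 / t := by
    have h5 := Real.add_one_le_exp (t * (3 / 20))
    rw [Real.exp_neg, inv_eq_one_div, div_le_div_iff₀ (Real.exp_pos _) ht]
    nlinarith
  linarith

theorem poisCdf_large {t : ℝ} (ht : 0 < t) {k : ℕ} (hk : 2 * t ≤ k) :
    1 - poisCdf t (k : ℤ) ≤ 14 / t := by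
  have hM : ∀ s ∈ Icc (0 : ℝ) t, ‖-pois s (k : ℤ)‖ ≤ exp (-(t * (19 / 50))) := by
    intro s hs
    have hs0 : 0 ≤ s := hs.1
    rw [norm_neg, Real.norm_eq_abs, abs_of_nonneg (pois_nonneg hs0 _), pois_nat]
    have h1 : s ^ k / k.factorial ≤ exp (2 * s) * exp (-(2 * t * log 2)) := by
      have h2 := Real.pow_div_factorial_le_exp (x := 2 * s) (by positivity) k
      have h3 : s ^ k / k.factorial = ((2 * s) ^ k / k.factorial) * (1 / 2 ^ k) := by
        rw [mul_pow]; field_simp
      rw [h3]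
      have h4 : 1 / (2 : ℝ) ^ k ≤ exp (-(2 * t * log 2)) := by
        have : (2 : ℝ) ^ k = exp (k * log 2) := by
          rw [mul_comm, Real.exp_mul, Real.exp_log (by norm_num), Real.rpow_natCast]
        rw [this, one_div, ← Real.exp_neg]
        apply Real.exp_le_exp.2
        have := mul_le_mul_of_nonneg_right hk (Real.log_nonneg (by norm_num : (1:ℝ) ≤ 2))
        linarith
      exact mul_le_mul h2 h4 (by positivity) (by positivity)
    calc exp (-s) * s ^ k / k.factorial = exp (-s) * (s ^ k / k.factorial) := by ring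
      _ ≤ exp (-s) * (exp (2 * s) * exp (-(2 * t * log 2))) := by gcongr
      _ = exp (-s + (2 * s + -(2 * t * log 2))) := by rw [Real.exp_add, Real.exp_add]
      _ ≤ _ := by
        apply Real.exp_le_exp.2
        have := Real.log_two_gt_d9
        nlinarith [hs.2]
  have h1 := Convex.norm_image_sub_le_of_norm_hasDerivWithin_le
    (f := fun s => poisCdf s (k : ℤ)) (f' := fun s => -pois s (k : ℤ)) (s := Icc (0 : ℝ) t)
    (fun x _ => (hasDerivAt_poisCdf x (k : ℤ)).hasDerivWithinAt) hM (convex_Icc 0 t)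
    (left_mem_Icc.2 ht.le) (right_mem_Icc.2 ht.le)
  rw [sub_zero, Real.norm_eq_abs, Real.norm_eq_abs, abs_of_pos ht, poisCdf_zero (by positivity),
    abs_sub_comm, abs_of_nonneg (by have := poisCdf_le_one ht.le (k : ℤ); linarith)] at h1
  refine le_trans h1 ?_
  have h5 := Real.quadratic_le_exp_of_nonneg (x := t * (19 / 50)) (by positivity)
  rw [Real.exp_neg, inv_mul_eq_div, div_le_div_iff₀ (Real.exp_pos _) ht]
  nlinarith

theorem inv_le_inv_sqrt {t : ℝ} (ht : 1 ≤ t) : 1 / t ≤ 1 / √t := by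
  have h0 : 0 < t := by linarith
  apply one_div_le_one_div_of_le (Real.sqrt_pos.2 h0)
  rw [Real.sqrt_le_left (by linarith)]
  nlinarith

theorem poisCdf_normal : ∃ C : ℝ, 0 < C ∧ ∀ t : ℝ, 0 < t → ∀ k : ℤ,
    |poisCdf t k - ProbabilityTheory.cdf (gaussianReal 0 1) ((k - t) / √t)| ≤ C / √t := by
  refine ⟨400000, by norm_num, fun t ht k => ?_⟩
  change |poisCdf t k - Phi ((k - t) / √t)| ≤ 400000 / √t
  have hst : 0 < √t := Real.sqrt_pos.2 ht
  have hst2 : √t ^ 2 = t := Real.sq_sqrt ht.le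
  have hst3 : √t * √t = t := Real.mul_self_sqrt ht.le
  have hP0 := Phi_nonneg ((k - t) / √t)
  have hP1 := Phi_le_one ((k - t) / √t)
  have hF0 := poisCdf_nonneg ht.le k
  have hF1 := poisCdf_le_one ht.le k
  have hdiv : (t : ℝ) / √t = √t := by
    rw [div_eq_iff hst.ne']; exact hst3.symm
  rcases lt_or_ge t 4 with h4 | h4
  · have h1 : |poisCdf t k - Phi ((k - t) / √t)| ≤ 1 := by
      rw [abs_le]; constructor <;> linarith
    have h2 : √t ≤ 2 := by
      rw [Real.sqrt_le_left (by norm_num)]; linarith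
    have h3 : 1 ≤ 400000 / √t := by
      rw [le_div_iff₀ hst]; linarith
    linarith
  have hinv : 1 / t ≤ 1 / √t := inv_le_inv_sqrt (by linarith)
  have hconv : ∀ c : ℝ, 0 ≤ c → c ≤ 400000 → c / t ≤ 400000 / √t := by
    intro c hc hc2
    calc c / t = c * (1 / t) := by ring
      _ ≤ 400000 * (1 / √t) := mul_le_mul hc2 hinv (by positivity) (by norm_num)
      _ = _ := by ring
  rcases lt_or_ge k 0 with hk | hk
  · -- negative k
    have hk' : (k : ℝ) ≤ 0 := by exact_mod_cast hk.le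
    rw [poisCdf_of_neg hk, zero_sub, abs_neg, abs_of_nonneg hP0]
    have h1 : ((k : ℝ) - t) / √t ≤ -√t := by
      rw [div_le_iff₀ hst]; nlinarith
    have := Phi_tail_neg hst h1
    rw [hst2] at this
    exact le_trans this (hconv 1 (by norm_num) (by norm_num))
  obtain ⟨n, rfl⟩ : ∃ n : ℕ, k = (n : ℤ) := ⟨k.toNat, by omega⟩
  have hcast : (((n : ℤ)) : ℝ) = (n : ℝ) := by norm_cast
  rw [hcast] at hP0 hP1 ⊢
  rcases le_total (n : ℝ) (t / 2) with hs | hs
  · -- small
    have h1 := poisCdf_small ht hs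
    have h2 : ((n : ℝ) - t) / √t ≤ -(√t / 2) := by
      rw [div_le_iff₀ hst]; nlinarith
    have h3 := Phi_tail_neg (y := √t / 2) (by positivity) h2
    have h4 : 1 / (√t / 2) ^ 2 = 4 / t := by
      rw [div_pow, hst2]; field_simp; norm_num
    rw [h4] at h3
    have h5 : |poisCdf t (n : ℤ) - Phi (((n : ℝ) - t) / √t)| ≤ 11 / t := by
      have e : 11 / t = 7 / t + 4 / t := by ring
      rw [abs_le, e]
      have : 0 ≤ 7 / t := by positivity
      have : 0 ≤ 4 / t := by positivity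
      constructor <;> linarith
    exact le_trans h5 (hconv 11 (by norm_num) (by norm_num))
  rcases le_total (2 * t) (n : ℝ) with hl | hl
  · have h1 := poisCdf_large ht hl
    have h2 : √t ≤ ((n : ℝ) - t) / √t := by
      rw [le_div_iff₀ hst]; nlinarith
    have h3 := Phi_tail_pos hst h2
    rw [hst2] at h3
    have h5 : |poisCdf t (n : ℤ) - Phi (((n : ℝ) - t) / √t)| ≤ 15 / t := by
      have e : 15 / t = 14 / t + 1 / t := by ring
      rw [abs_le, e]
      have : 0 ≤ 14 / t := by positivity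
      have : 0 ≤ 1 / t := by positivity
      constructor <;> linarith
    exact le_trans h5 (hconv 15 (by norm_num) (by norm_num))
  -- middle range
  have hn1 : 1 ≤ n := by
    rcases Nat.eq_zero_or_pos n with h | h
    · subst h; simp at hs; linarith
    · exact h
  have hn0 : (0 : ℝ) < n := by exact_mod_cast hn1
  have hsn : 0 < √(n : ℝ) := Real.sqrt_pos.2 hn0
  have hsn2 : √(n : ℝ) ^ 2 = n := Real.sq_sqrt hn0.le
  have hsn3 : √(n : ℝ) * √(n : ℝ) = n := Real.mul_self_sqrt hn0.le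
  have h1 := poisCdf_normal_k hn1 ht.le
  -- comparisons of square roots
  have hc1 : √t ≤ 3 / 2 * √(n : ℝ) := by
    apply Real.sqrt_le_iff.2
    constructor
    · positivity
    · nlinarith
  have hc2 : √(n : ℝ) ≤ 3 / 2 * √t := by
    apply Real.sqrt_le_iff.2
    constructor
    · positivity
    · nlinarith
  have h2 : 196608 / √(n : ℝ) ≤ 300000 / √t := by
    rw [div_le_div_iff₀ hsn hst]; nlinarith
  have h3 : |Phi (((n : ℝ) - t) / √(n : ℝ)) - Phi (((n : ℝ) - t) / √t)| ≤ 100000 / √t := by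
    rcases eq_or_ne (n : ℝ) t with he | he
    · rw [he, sub_self, abs_zero]; positivity
    set x := (n : ℝ) - t with hx
    have hx0 : x ≠ 0 := sub_ne_zero.2 he
    have hax : 0 < |x| := abs_pos.2 hx0
    -- m = |x| / (3/2 √t)
    set m := |x| / (3 / 2 * √t) with hm
    have hm0 : 0 < m := by positivity
    have hmn : m ≤ |x| / √(n : ℝ) := by
      apply div_le_div_of_nonneg_left hax.le hsn hc2
    have hmt : m ≤ |x| / √t := by
      apply div_le_div_of_nonneg_left hax.le hst (by linarith)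
    have h5 : |Phi (x / √(n : ℝ)) - Phi (x / √t)| ≤ |x / √(n : ℝ) - x / √t| / m ^ 2 := by
      apply Phi_decay_abs hm0
      rcases lt_or_gt_of_ne hx0 with h | h
      · right
        rw [abs_of_neg h] at hmn hmt
        constructor
        · have : -x / √(n : ℝ) = -(x / √(n : ℝ)) := by ring
          rw [this] at hmn; linarith
        · have : -x / √t = -(x / √t) := by ring
          rw [this] at hmt; linarith
      · left
        rw [abs_of_pos h] at hmn hmt
        exact ⟨hmn, hmt⟩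
    have h6 : |x / √(n : ℝ) - x / √t| ≤ x ^ 2 / (√(n : ℝ) * √t * √t) := by
      have e : x / √(n : ℝ) - x / √t = x * (√t - √(n : ℝ)) / (√(n : ℝ) * √t) := by
        field_simp
      have e2 : (√t - √(n : ℝ)) * (√t + √(n : ℝ)) = -x := by
        rw [hx]; nlinarith
      have e3 : |√t - √(n : ℝ)| ≤ |x| / √t := by
        rw [le_div_iff₀ hst]
        have : |x| = |√t - √(n : ℝ)| * (√t + √(n : ℝ)) := by
          rw [← abs_neg x, ← e2, abs_mul, abs_of_pos (by positivity : 0 < √t + √(n : ℝ))]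
        rw [this]
        apply mul_le_mul_of_nonneg_left (by linarith) (abs_nonneg _)
      rw [e, abs_div, abs_mul, abs_of_pos (by positivity : 0 < √(n : ℝ) * √t)]
      calc |x| * |√t - √(n : ℝ)| / (√(n : ℝ) * √t) ≤ |x| * (|x| / √t) / (√(n : ℝ) * √t) := by gcongr
        _ = x ^ 2 / (√(n : ℝ) * √t * √t) := by
          rw [← sq_abs x]; field_simp
    calc |Phi (x / √(n : ℝ)) - Phi (x / √t)| ≤ |x / √(n : ℝ) - x / √t| / m ^ 2 := h5
      _ ≤ (x ^ 2 / (√(n : ℝ) * √t * √t)) / m ^ 2 := by gcongr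
      _ = (9 / 4) / √(n : ℝ) := by
        rw [hm, div_pow, sq_abs]
        field_simp
        norm_num
      _ ≤ 100000 / √t := by
        rw [div_le_div_iff₀ hsn hst]; nlinarith
  have h7 : 400000 / √t = 300000 / √t + 100000 / √t := by ring
  rw [h7]
  calc |poisCdf t (n : ℤ) - Phi (((n : ℝ) - t) / √t)|
      ≤ |poisCdf t (n : ℤ) - Phi (((n : ℝ) - t) / √(n : ℝ))|
        + |Phi (((n : ℝ) - t) / √(n : ℝ)) - Phi (((n : ℝ) - t) / √t)| := abs_sub_le _ _ _
    _ ≤ _ := by linarith

end EK
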