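import Pool.Agent.EK.Assembly3
import Pool.Agent.EK.PoisNormal

/-!
# MODULE Z4: the Erdős–Kac theorem for Beatty sequences with the optimal rate
-/

namespace EK

open Finset

/-- The standard normal distribution function. -/
noncomputable abbrev NCdf (x : ℝ) : ℝ :=
  ProbabilityTheory.cdf (ProbabilityTheory.gaussianReal 0 1) x

theorem NCdf_mono {x y : ℝ} (h : x ≤ y) : NCdf x ≤ NCdf y :=
  ProbabilityTheory.monotone_cdf _ h

theorem NCdf_lip (x y : ℝ) : |NCdf x - NCdf y| ≤ |x - y| := gauss_lip x y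

/-- The number of prime factors which are at least `2^(2^J)` is bounded. -/
theorem card_primeFactors_le_U {J n : ℕ} (hn : 0 < n) (h : n < 2 ^ 2 ^ (J + 16)) :
    U (AP J) n ≤ n.primeFactors.card ∧ n.primeFactors.card ≤ U (AP J) n + 2 ^ 16 := by
  have h1 : (AP J).filter (fun p => p ∣ n) = n.primeFactors.filter (fun p => p < 2 ^ 2 ^ J) := by
    ext p
    simp only [AP, Finset.mem_filter, Finset.mem_range, Nat.mem_primeFactors]
    constructor
    · rintro ⟨⟨h1, h2⟩, h3⟩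
      exact ⟨⟨h2, h3, hn.ne'⟩, h1⟩
    · rintro ⟨⟨h2, h3, _⟩, h1⟩
      exact ⟨⟨h1, h2⟩, h3⟩
  have h2 : U (AP J) n = (n.primeFactors.filter (fun p => p < 2 ^ 2 ^ J)).card := by
    unfold U; rw [h1]
  have h3 := Finset.card_filter_add_card_filter_not (s := n.primeFactors) (fun p => p < 2 ^ 2 ^ J)
  have h4 : (n.primeFactors.filter (fun p => ¬ p < 2 ^ 2 ^ J)).card ≤ 2 ^ 16 := by
    set c := (n.primeFactors.filter (fun p => ¬ p < 2 ^ 2 ^ J)).card with hc
    have h5 : (2 ^ 2 ^ J) ^ c ≤ ∏ p ∈ n.primeFactors.filter (fun p => ¬ p < 2 ^ 2 ^ J), p := by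
      apply Finset.pow_card_le_prod
      intro p hp
      exact not_lt.mp (Finset.mem_filter.mp hp).2
    have h6 : ∏ p ∈ n.primeFactors.filter (fun p => ¬ p < 2 ^ 2 ^ J), p ∣ n := by
      apply Finset.prod_primes_dvd
      · intro p hp
        exact Nat.prime_iff.mp (Nat.prime_of_mem_primeFactors (Finset.mem_filter.mp hp).1)
      · intro p hp
        exact Nat.dvd_of_mem_primeFactors (Finset.mem_filter.mp hp).1
    have h7 : (2 ^ 2 ^ J) ^ c < 2 ^ 2 ^ (J + 16) :=
      lt_of_le_of_lt (h5.trans (Nat.le_of_dvd hn h6)) h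
    rw [← pow_mul] at h7
    have h8 := (Nat.pow_lt_pow_iff_right (by norm_num : 1 < 2)).mp h7
    have h9 : 2 ^ (J + 16) = 2 ^ J * 2 ^ 16 := by rw [pow_add]
    rw [h9] at h8
    exact (Nat.lt_of_mul_lt_mul_left h8).le
  rw [h2]
  omega

/-- `log log N` against `J log 2`. -/
theorem loglog_bound {J N : ℕ} {M1 M2 : ℕ} (hM1 : M1 = 2 ^ (J + 14)) (hM2 : M2 = 2 ^ (J + 15))
    (h1 : 2 ^ M1 ≤ N) (h2 : N < 2 ^ M2) :
    (J : ℝ) * Real.log 2 ≤ Real.log (Real.log N) ∧
      Real.log (Real.log N) ≤ J * Real.log 2 + 11 := by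
  have hl2 : (0.69 : ℝ) < Real.log 2 := by linarith [Real.log_two_gt_d9]
  have hl2' : Real.log 2 < 0.7 := by linarith [Real.log_two_lt_d9]
  have hl20 : 0 < Real.log 2 := by linarith
  have h1R : ((2 : ℝ) ^ M1) ≤ N := by exact_mod_cast h1
  have h2R : (N : ℝ) < 2 ^ M2 := by exact_mod_cast h2
  have hpos1 : (0 : ℝ) < 2 ^ M1 := by positivity
  have hNpos : (0 : ℝ) < N := lt_of_lt_of_le hpos1 h1R
  have a1 : (M1 : ℝ) * Real.log 2 ≤ Real.log N := by
    rw [← Real.log_pow]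
    exact Real.log_le_log hpos1 h1R
  have a2 : Real.log N ≤ M2 * Real.log 2 := by
    rw [← Real.log_pow]
    exact Real.log_le_log hNpos h2R.le
  have hM1R : (M1 : ℝ) = 2 ^ (J + 14) := by rw [hM1]; push_cast; rfl
  have hM2R : (M2 : ℝ) = 2 ^ (J + 15) := by rw [hM2]; push_cast; rfl
  have hM1pos : (0 : ℝ) < M1 := by rw [hM1R]; positivity
  have hM2pos : (0 : ℝ) < M2 := by rw [hM2R]; positivity
  have b0 : -1 ≤ Real.log (Real.log 2) := by
    rw [Real.le_log_iff_exp_le hl20]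
    have := Real.exp_neg_one_lt_d9
    linarith
  have b1 : Real.log (Real.log 2) ≤ 0 := Real.log_nonpos hl20.le (by linarith)
  have c1 : Real.log (M1 * Real.log 2) = (J + 14) * Real.log 2 + Real.log (Real.log 2) := by
    rw [Real.log_mul hM1pos.ne' hl20.ne', hM1R, Real.log_pow]
    push_cast; ring
  have c2 : Real.log (M2 * Real.log 2) = (J + 15) * Real.log 2 + Real.log (Real.log 2) := by
    rw [Real.log_mul hM2pos.ne' hl20.ne', hM2R, Real.log_pow]
    push_cast; ring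
  have d1 := Real.log_le_log (by positivity) a1
  have d2 := Real.log_le_log (lt_of_lt_of_le (by positivity) a1) a2
  rw [c1] at d1
  rw [c2] at d2
  constructor <;> linarith

/-- The distribution function of the number of small prime factors against the normal law. -/
theorem beatty_normal (α β : ℝ) (hα : 0 < α) : ∃ (C : ℝ) (n0 J0 : ℕ), 0 < C ∧
    (∀ n : ℕ, n0 < n → 0 < ⌊α * n + β⌋) ∧
    ∀ J ≥ J0, ∀ N : ℕ, 2 ^ 2 ^ (J + 14) ≤ N → N < 2 ^ 2 ^ (J + 15) →
      1 ≤ Real.log (Real.log N) ∧ (n0 : ℝ) ≤ N / √(Real.log (Real.log N)) ∧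
      (∀ n ∈ Finset.Ioc n0 N, ⌊α * n + β⌋.toNat < 2 ^ 2 ^ (J + 16)) ∧
      ∀ x : ℤ, |(((Finset.Ioc n0 N).filter
          (fun n : ℕ => (U (AP J) (⌊α * n + β⌋.toNat) : ℤ) ≤ x)).card : ℝ) -
        N * NCdf ((x - Real.log (Real.log N)) / √(Real.log (Real.log N)))| ≤
          C * N / √(Real.log (Real.log N)) := by
  obtain ⟨C, n0, J0, hC, hpos, hmain⟩ := beatty_poisson α β hα
  obtain ⟨CM, hM'⟩ := mertens
  have hM : ∀ J : ℕ, |recip (AP J) - J * Real.log 2| ≤ CM := hM'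
  have hCM : 0 ≤ CM := le_trans (abs_nonneg _) (hM 0)
  obtain ⟨CN, hCN, hnorm⟩ := poisCdf_normal
  obtain ⟨K1, hK1⟩ := exists_nat_gt (4 * CM)
  refine ⟨4 * C + 16 * (CM + 11) + CN, n0, max J0 (max (n0 + 12) K1), by positivity, hpos, ?_⟩
  intro J hJ N hN1 hN2
  have hJ0 : J0 ≤ J := le_trans (le_max_left _ _) hJ
  have hJ1 : n0 + 12 ≤ J := le_trans (le_trans (le_max_left _ _) (le_max_right _ _)) hJ
  have hJ2 : K1 ≤ J := le_trans (le_trans (le_max_right _ _) (le_max_right _ _)) hJ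
  obtain ⟨hmle, hpois⟩ := hmain J hJ0 N hN1 hN2
  obtain ⟨hL1, hL2⟩ := loglog_bound rfl rfl hN1 hN2
  have hJN : J * J ≤ N := by
    refine le_trans ?_ hN1
    exact sq_le_two_pow (two_mul_le_two_pow (by norm_num))
  clear hN1 hN2 hmain
  refine ⟨?_, ?_, hmle, ?_⟩
  all_goals
    set L := Real.log (Real.log N) with hL
    have hl2 : (0.69 : ℝ) < Real.log 2 := by linarith [Real.log_two_gt_d9]
    have hl2' : Real.log 2 < 0.7 := by linarith [Real.log_two_lt_d9]
    have hJR : ((n0 : ℝ) + 12) ≤ J := by exact_mod_cast hJ1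
    have hn0R : (0 : ℝ) ≤ n0 := Nat.cast_nonneg _
    have hJpos : (0 : ℝ) < J := by linarith
    have hCMJ : 4 * CM ≤ J := by
      have : (K1 : ℝ) ≤ J := by exact_mod_cast hJ2
      linarith
    have hLJ1 : 0.69 * (J : ℝ) ≤ L := by nlinarith
    have hLJ2 : L ≤ 4 * (J : ℝ) := by nlinarith
  · linarith
  · have hL0 : 0 < L := by linarith
    have hsL : 0 < √L := Real.sqrt_pos.mpr hL0
    rw [le_div_iff₀ hsL]
    have h1 : √L ≤ J := by
      rw [Real.sqrt_le_left hJpos.le]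
      nlinarith
    have h2 : (J : ℝ) * J ≤ N := by exact_mod_cast hJN
    have h3 : (n0 : ℝ) ≤ J := by linarith
    calc (n0 : ℝ) * √L ≤ J * J := by gcongr
      _ ≤ N := h2
  · intro x
    have hL0 : 0 < L := by linarith
    have hsL : 0 < √L := Real.sqrt_pos.mpr hL0
    have hsJ : 0 < √(J : ℝ) := Real.sqrt_pos.mpr hJpos
    have hN0 : (0 : ℝ) ≤ N := Nat.cast_nonneg _
    have hLJs : √L ≤ 2 * √(J : ℝ) := by
      rw [Real.sqrt_le_left (by positivity), mul_pow, Real.sq_sqrt hJpos.le]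
      linarith
    have hinv : 1 / √(J : ℝ) ≤ 2 / √L := by
      rw [div_le_div_iff₀ hsJ hsL]; linarith
    set μ := recip (AP J) with hμ
    have hμJ := abs_le.mp (hM J)
    have hμ1 : (J : ℝ) / 4 ≤ μ := by nlinarith [hμJ.1]
    have hdiff : |μ - L| ≤ CM + 11 := by
      rw [abs_le]; constructor <;> linarith [hμJ.1, hμJ.2]
    have e1 := hpois x
    have e2 : |poisCdf μ x - poisCdf L x| ≤ 8 * (CM + 11) / √L := by
      have hq : √(J : ℝ) / 2 ≤ √((J : ℝ) / 4) := by
        apply Real.le_sqrt_of_sq_le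
        rw [div_pow, Real.sq_sqrt hJpos.le]; norm_num
      have hgen : ∀ s t : ℝ, (J : ℝ) / 4 ≤ s → s ≤ t → t - s ≤ CM + 11 →
          |poisCdf t x - poisCdf s x| ≤ 8 * (CM + 11) / √L := by
        intro s t hs hst hts
        have hs0 : 0 < s := lt_of_lt_of_le (by positivity) hs
        have h1 := poisCdf_lip hs0 hst x
        have h2 : √(J : ℝ) / 2 ≤ √s := hq.trans (Real.sqrt_le_sqrt hs)
        calc |poisCdf t x - poisCdf s x| ≤ 2 * (t - s) / √s := h1
          _ ≤ 2 * (CM + 11) / (√(J : ℝ) / 2) := by gcongr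
          _ = 4 * (CM + 11) * (1 / √(J : ℝ)) := by field_simp; norm_num
          _ ≤ 4 * (CM + 11) * (2 / √L) := by gcongr
          _ = 8 * (CM + 11) / √L := by ring
      rcases le_total L μ with h | h
      · exact hgen L μ (by linarith) h (by linarith [(abs_le.mp hdiff).2])
      · rw [abs_sub_comm]
        exact hgen μ L hμ1 h (by linarith [(abs_le.mp hdiff).1])
    have e3 := hnorm L hL0 x
    have f1 : C * N / √(J : ℝ) ≤ 2 * C * (N / √L) := by
      calc C * N / √(J : ℝ) = C * N * (1 / √(J : ℝ)) := by ring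
        _ ≤ C * N * (2 / √L) := by gcongr
        _ = 2 * C * (N / √L) := by ring
    have f2 : |(N : ℝ) * poisCdf μ x - N * poisCdf L x| ≤ 8 * (CM + 11) * (N / √L) := by
      rw [← mul_sub, abs_mul, abs_of_nonneg hN0]
      calc (N : ℝ) * |poisCdf μ x - poisCdf L x| ≤ N * (8 * (CM + 11) / √L) := by gcongr
        _ = 8 * (CM + 11) * (N / √L) := by ring
    have f3 : |(N : ℝ) * poisCdf L x - N * NCdf ((x - L) / √L)| ≤ CN * (N / √L) := by
      rw [← mul_sub, abs_mul, abs_of_nonneg hN0]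
      calc (N : ℝ) * |poisCdf L x - NCdf ((x - L) / √L)| ≤ N * (CN / √L) := by gcongr
        _ = CN * (N / √L) := by ring
    have f4 : 0 ≤ N / √L := by positivity
    have hgoal : (4 * C + 16 * (CM + 11) + CN) * N / √L =
        4 * C * (N / √L) + 16 * (CM + 11) * (N / √L) + CN * (N / √L) := by ring
    rw [hgoal]
    have f5 : 0 ≤ C * (N / √L) := by positivity
    have f6 : 0 ≤ (CM + 11) * (N / √L) := by positivity
    rw [abs_le] at e1 f2 f3 ⊢
    constructor <;> linarith [e1.1, e1.2, f2.1, f2.2, f3.1, f3.2]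

end EK
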