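import Pool.Agent.EK.Poisson

/-!
# MODULE B: sums of independent Bernoulli(1/p) variables against the Poisson law

Paper proof of `cdf_sub_poisCdf_le`.  Write `F(t,y) = poisCdf t y` and
`H(T,t) = ex T (fun x => F(t, k - x))`; `H(T,0) = cdf T k` (as `F(0,y) = 1` iff `y ≥ 0`)
and `H(∅, μ) = F(μ, k)`.
By `ex_insert`, with `s = 1/p`,
`H(insert p T, t) - H(T, t + s) = ex T (x ↦ (1-s) F(t,k-x) + s F(t,k-x-1) - F(t+s,k-x))`, and
`(1-s) F(t,y) + s F(t,y-1) - F(t+s,y) = F(t,y) - s * pois t y - F(t+s,y)` (by `poisCdf_sub_one`) is at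
most `s^2` (`poisCdf_step`) and at most `s^2/t` (`poisCdf_step'`) in absolute value.
Put `μ = recip T`.  We may assume `μ ≥ 16` (otherwise the bound is trivial with `C ≥ 4`).
Let `y = ⌈√μ⌉` and split `T = T₁ ∪ T₂`, `T₁ = {p ≤ y}`, `T₂ = {p > y}`.  First replace the elements of `T₂`
one by one (Finset induction, bound `s^2`): total error `∑_{p>y} 1/p^2 ≤ 1/y ≤ 1/√μ`.
Then `t = recip T₂ ≥ μ - ∑_{2≤n≤y} 1/n ≥ μ - log y ≥ μ/2`, and replace the elements of `T₁` one by one
(`t` only grows, bound `s^2/t ≤ 2 s^2/μ`): total error `≤ (2/μ) ∑_{p≥2} 1/p^2 ≤ 2/μ ≤ 2/√μ`.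

`pmf_le`: `pmf T x = cdf T x - cdf T (x-1)`, `pois μ x ≤ 2/√μ`.
-/

namespace EK

open Finset

theorem ex_empty (f : ℤ → ℝ) : ex ∅ f = f 0 := by
  simp [ex]

theorem ex_insert {T : Finset ℕ} {p : ℕ} (hp : p ∉ T) (f : ℤ → ℝ) :
    ex (insert p T) f = (1 - 1 / (p : ℝ)) * ex T f + 1 / (p : ℝ) * ex T (fun x => f (x + 1)) := by
  unfold ex
  rw [Finset.sum_powerset_insert hp, Finset.mul_sum, Finset.mul_sum]
  congr 1
  · refine Finset.sum_congr rfl fun A hA => ?_
    have hpA : p ∉ A := fun h => hp (Finset.mem_powerset.1 hA h)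
    rw [Finset.insert_sdiff_of_notMem _ hpA, Finset.prod_insert (by simp [hp])]
    ring
  · refine Finset.sum_congr rfl fun A hA => ?_
    have hpA : p ∉ A := fun h => hp (Finset.mem_powerset.1 hA h)
    rw [Finset.prod_insert hpA, Finset.insert_sdiff_insert, Finset.sdiff_insert_of_notMem hp,
      Finset.card_insert_of_notMem hpA]
    push_cast
    ring

theorem ex_const (T : Finset ℕ) (c : ℝ) : ex T (fun _ => c) = c := by
  induction T using Finset.induction_on with
  | empty => rw [ex_empty]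
  | insert a s ha ih =>
    rw [ex_insert ha, ih]
    ring

theorem ex_add (T : Finset ℕ) (f g : ℤ → ℝ) : ex T (fun x => f x + g x) = ex T f + ex T g := by
  unfold ex
  rw [← Finset.sum_add_distrib]
  exact Finset.sum_congr rfl fun A _ => by ring

theorem ex_sub (T : Finset ℕ) (f g : ℤ → ℝ) : ex T (fun x => f x - g x) = ex T f - ex T g := by
  unfold ex
  rw [← Finset.sum_sub_distrib]
  exact Finset.sum_congr rfl fun A _ => by ring

theorem ex_mul (T : Finset ℕ) (c : ℝ) (f : ℤ → ℝ) : ex T (fun x => c * f x) = c * ex T f := by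
  unfold ex
  rw [Finset.mul_sum]
  exact Finset.sum_congr rfl fun A _ => by ring

theorem ex_mono {T : Finset ℕ} (hT : ∀ p ∈ T, 1 ≤ p) {f g : ℤ → ℝ} (h : ∀ x, f x ≤ g x) :
    ex T f ≤ ex T g := by
  unfold ex
  refine Finset.sum_le_sum fun A hA => mul_le_mul_of_nonneg_left (h _) ?_
  refine mul_nonneg (Finset.prod_nonneg fun p _ => by positivity)
    (Finset.prod_nonneg fun p hp => ?_)
  have h1 : (1 : ℝ) ≤ p := by exact_mod_cast hT p (Finset.mem_sdiff.1 hp).1
  have : 1 / (p : ℝ) ≤ 1 := by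
    rw [div_le_one (by linarith)]
    exact h1
  linarith

theorem abs_ex_le {T : Finset ℕ} (hT : ∀ p ∈ T, 1 ≤ p) {f : ℤ → ℝ} {c : ℝ} (h : ∀ x, |f x| ≤ c) :
    |ex T f| ≤ c := by
  rw [abs_le]
  constructor
  · have := ex_mono hT (f := fun _ => -c) (g := f) fun x => (abs_le.1 (h x)).1
    rwa [ex_const] at this
  · have := ex_mono hT (f := f) (g := fun _ => c) fun x => (abs_le.1 (h x)).2
    rwa [ex_const] at this

theorem pmf_empty (x : ℤ) : pmf ∅ x = if (0 : ℤ) = x then 1 else 0 := by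
  unfold pmf
  rw [ex_empty]

theorem cdf_empty (x : ℤ) : cdf ∅ x = if (0 : ℤ) ≤ x then 1 else 0 := by
  unfold cdf
  rw [ex_empty]

theorem pmf_insert {T : Finset ℕ} {p : ℕ} (hp : p ∉ T) (x : ℤ) :
    pmf (insert p T) x = pmf T x + 1 / (p : ℝ) * (pmf T (x - 1) - pmf T x) := by
  unfold pmf
  rw [ex_insert hp]
  have : (fun y : ℤ => if y + 1 = x then (1 : ℝ) else 0) = fun y => if y = x - 1 then 1 else 0 := by
    funext y
    simp only [eq_sub_iff_add_eq]
  rw [this]
  ring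

theorem cdf_sub_one (T : Finset ℕ) (x : ℤ) : cdf T x - cdf T (x - 1) = pmf T x := by
  unfold cdf pmf
  rw [← ex_sub]
  congr 1
  funext y
  rcases lt_trichotomy y x with h | h | h
  · rw [if_pos (by omega), if_pos (by omega), if_neg (by omega)]
    ring
  · rw [if_pos (by omega), if_neg (by omega), if_pos h]
    ring
  · rw [if_neg (by omega), if_neg (by omega), if_neg (by omega)]
    ring

theorem cdf_insert {T : Finset ℕ} {p : ℕ} (hp : p ∉ T) (x : ℤ) :
    cdf (insert p T) x = cdf T x - 1 / (p : ℝ) * pmf T x := by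
  rw [← cdf_sub_one T x]
  unfold cdf
  rw [ex_insert hp]
  have : (fun y : ℤ => if y + 1 ≤ x then (1 : ℝ) else 0) = fun y => if y ≤ x - 1 then 1 else 0 := by
    funext y
    simp only [le_sub_iff_add_le]
  rw [this]
  ring

theorem pmf_nonneg {T : Finset ℕ} (hT : ∀ p ∈ T, 1 ≤ p) (x : ℤ) : 0 ≤ pmf T x := by
  have := ex_mono hT (f := fun _ => (0 : ℝ)) (g := fun y => if y = x then 1 else 0)
    fun y => by split_ifs <;> norm_num
  rwa [ex_const] at this

theorem pmf_le_one {T : Finset ℕ} (hT : ∀ p ∈ T, 1 ≤ p) (x : ℤ) : pmf T x ≤ 1 := by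
  have := ex_mono hT (f := fun y => if y = x then 1 else 0) (g := fun _ => (1 : ℝ))
    fun y => by split_ifs <;> norm_num
  rwa [ex_const] at this

theorem cdf_nonneg {T : Finset ℕ} (hT : ∀ p ∈ T, 1 ≤ p) (x : ℤ) : 0 ≤ cdf T x := by
  have := ex_mono hT (f := fun _ => (0 : ℝ)) (g := fun y => if y ≤ x then 1 else 0)
    fun y => by split_ifs <;> norm_num
  rwa [ex_const] at this

theorem cdf_le_one {T : Finset ℕ} (hT : ∀ p ∈ T, 1 ≤ p) (x : ℤ) : cdf T x ≤ 1 := by
  have := ex_mono hT (f := fun y => if y ≤ x then 1 else 0) (g := fun _ => (1 : ℝ))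
    fun y => by split_ifs <;> norm_num
  rwa [ex_const] at this

/-- Adding trials does not increase the maximum of the mass function. -/
theorem pmf_union_le {T S : Finset ℕ} (hS : ∀ p ∈ S, 1 ≤ p) {q : ℝ}
    (hq : ∀ x, pmf T x ≤ q) (x : ℤ) : pmf (T ∪ S) x ≤ q := by
  induction S using Finset.induction_on generalizing x with
  | empty => simpa using hq x
  | insert a s ha ih =>
    have ih' := ih fun p hp => hS p (Finset.mem_insert_of_mem hp)
    rw [Finset.union_insert]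
    by_cases hat : a ∈ T ∪ s
    · rw [Finset.insert_eq_of_mem hat]
      exact ih' x
    · rw [pmf_insert hat]
      have h1 : (1 : ℝ) ≤ a := by exact_mod_cast hS a (Finset.mem_insert_self a s)
      have h2 : 1 / (a : ℝ) ≤ 1 := by
        rw [div_le_one (by linarith)]
        exact h1
      have h3 : 0 ≤ 1 / (a : ℝ) := by positivity
      have e : pmf (T ∪ s) x + 1 / (a : ℝ) * (pmf (T ∪ s) (x - 1) - pmf (T ∪ s) x)
          = (1 - 1 / (a : ℝ)) * pmf (T ∪ s) x + 1 / (a : ℝ) * pmf (T ∪ s) (x - 1) := by ring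
      rw [e]
      calc (1 - 1 / (a : ℝ)) * pmf (T ∪ s) x + 1 / (a : ℝ) * pmf (T ∪ s) (x - 1)
          ≤ (1 - 1 / (a : ℝ)) * q + 1 / (a : ℝ) * q := by
            gcongr
            · exact ih' x
            · exact ih' (x - 1)
        _ = q := by ring

/-- The mixed expectation: `S_T` plus an independent Poisson variable of parameter `t`. -/
private noncomputable def Hm (k : ℤ) (T : Finset ℕ) (t : ℝ) : ℝ :=
  ex T (fun x => poisCdf t (k - x))

private theorem Hm_zero (k : ℤ) (T : Finset ℕ) : Hm k T 0 = cdf T k := by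
  unfold Hm cdf
  congr 1
  funext y
  by_cases h : y ≤ k
  · rw [if_pos h, poisCdf_zero (by omega)]
  · rw [if_neg h, poisCdf_of_neg (by omega)]

private theorem Hm_empty (k : ℤ) (t : ℝ) : Hm k ∅ t = poisCdf t k := by
  unfold Hm
  rw [ex_empty]
  simp

private theorem Hm_step {k : ℤ} {T : Finset ℕ} (hT : ∀ p ∈ T, 1 ≤ p) {p : ℕ} (hp : p ∉ T)
    {t c : ℝ}
    (hc : ∀ y : ℤ, |poisCdf (t + 1 / (p : ℝ)) y - (poisCdf t y - 1 / (p : ℝ) * pois t y)| ≤ c) :
    |Hm k (insert p T) t - Hm k T (t + 1 / (p : ℝ))| ≤ c := by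
  have e : Hm k (insert p T) t - Hm k T (t + 1 / (p : ℝ)) = ex T (fun x =>
      (poisCdf t (k - x) - 1 / (p : ℝ) * pois t (k - x)) - poisCdf (t + 1 / (p : ℝ)) (k - x)) := by
    unfold Hm
    rw [ex_insert hp, ← ex_mul, ← ex_mul, ← ex_add, ← ex_sub]
    congr 1
    funext x
    rw [← poisCdf_sub_one t (k - x)]
    have : k - (x + 1) = k - x - 1 := by ring
    rw [this]
    ring
  rw [e]
  refine abs_ex_le hT fun x => ?_
  rw [abs_sub_comm]
  exact hc (k - x)

private theorem Hm_union {k : ℤ} {T : Finset ℕ} (hT : ∀ p ∈ T, 1 ≤ p) (S : Finset ℕ) :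
    (∀ p ∈ S, 1 ≤ p) → Disjoint S T → ∀ t : ℝ, 0 ≤ t →
    |Hm k (S ∪ T) t - Hm k T (t + recip S)| ≤ ∑ p ∈ S, ((p : ℝ) ^ 2)⁻¹ := by
  induction S using Finset.induction_on with
  | empty =>
    intro _ _ t _
    simp [recip]
  | insert a s ha ih =>
    intro hS hd t ht
    have hd' : Disjoint s T := Finset.disjoint_of_subset_left (Finset.subset_insert a s) hd
    have haT : a ∉ T := Finset.disjoint_left.1 hd (Finset.mem_insert_self a s)
    have hs : ∀ p ∈ s, 1 ≤ p := fun p hp => hS p (Finset.mem_insert_of_mem hp)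
    have h1 : 0 ≤ 1 / (a : ℝ) := by positivity
    have ihh := ih hs hd' (t + 1 / (a : ℝ)) (by positivity)
    have hst : ∀ p ∈ s ∪ T, 1 ≤ p := by
      intro p hp
      rcases Finset.mem_union.1 hp with h | h
      · exact hs p h
      · exact hT p h
    have hst' := Hm_step (k := k) hst (p := a) (by simp [ha, haT]) (t := t)
      (c := ((a : ℝ) ^ 2)⁻¹) fun y => by
        refine (poisCdf_step ht h1 y).trans (le_of_eq ?_)
        rw [one_div, inv_pow]
    rw [Finset.insert_union, Finset.sum_insert ha]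
    have er : t + recip (insert a s) = t + 1 / (a : ℝ) + recip s := by
      unfold recip
      rw [Finset.sum_insert ha]
      ring
    rw [er]
    calc |Hm k (insert a (s ∪ T)) t - Hm k T (t + 1 / (a : ℝ) + recip s)|
        ≤ |Hm k (insert a (s ∪ T)) t - Hm k (s ∪ T) (t + 1 / (a : ℝ))|
          + |Hm k (s ∪ T) (t + 1 / (a : ℝ)) - Hm k T (t + 1 / (a : ℝ) + recip s)| :=
          abs_sub_le _ _ _
      _ ≤ _ := add_le_add hst' ihh

private theorem Hm_union' {k : ℤ} (S : Finset ℕ) :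
    (∀ p ∈ S, 1 ≤ p) → ∀ t₀ t : ℝ, 0 < t₀ → t₀ ≤ t →
    |Hm k S t - Hm k ∅ (t + recip S)| ≤ (∑ p ∈ S, ((p : ℝ) ^ 2)⁻¹) / t₀ := by
  induction S using Finset.induction_on with
  | empty =>
    intro _ t₀ t _ _
    simp [recip]
  | insert a s ha ih =>
    intro hS t₀ t ht₀ ht
    have hs : ∀ p ∈ s, 1 ≤ p := fun p hp => hS p (Finset.mem_insert_of_mem hp)
    have h1 : 0 ≤ 1 / (a : ℝ) := by positivity
    have ihh := ih hs t₀ (t + 1 / (a : ℝ)) ht₀ (by linarith)
    have hst' := Hm_step (k := k) hs (p := a) ha (t := t)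
      (c := ((a : ℝ) ^ 2)⁻¹ / t₀) fun y => by
        refine (poisCdf_step' (ht₀.trans_le ht) h1 y).trans ?_
        rw [one_div, inv_pow]
        gcongr
    rw [Finset.sum_insert ha]
    have er : t + recip (insert a s) = t + 1 / (a : ℝ) + recip s := by
      unfold recip
      rw [Finset.sum_insert ha]
      ring
    rw [er, add_div]
    calc |Hm k (insert a s) t - Hm k ∅ (t + 1 / (a : ℝ) + recip s)|
        ≤ |Hm k (insert a s) t - Hm k s (t + 1 / (a : ℝ))|
          + |Hm k s (t + 1 / (a : ℝ)) - Hm k ∅ (t + 1 / (a : ℝ) + recip s)| :=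
          abs_sub_le _ _ _
      _ ≤ _ := add_le_add hst' ihh

private theorem sum_inv_sq_le {y : ℕ} (hy : y ≠ 0) (T : Finset ℕ) (hT : ∀ p ∈ T, y < p) :
    ∑ p ∈ T, ((p : ℝ) ^ 2)⁻¹ ≤ 1 / (y : ℝ) := by
  have hsub : T ⊆ Finset.Ioc y (y + T.sup id) := by
    intro p hp
    rw [Finset.mem_Ioc]
    exact ⟨hT p hp, (Finset.le_sup (f := id) hp).trans (Nat.le_add_left _ _)⟩
  calc ∑ p ∈ T, ((p : ℝ) ^ 2)⁻¹ ≤ ∑ p ∈ Finset.Ioc y (y + T.sup id), ((p : ℝ) ^ 2)⁻¹ :=
        Finset.sum_le_sum_of_subset_of_nonneg hsub fun _ _ _ => by positivity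
    _ ≤ (y : ℝ)⁻¹ - ((y + T.sup id : ℕ) : ℝ)⁻¹ := sum_Ioc_inv_sq_le_sub hy (Nat.le_add_right _ _)
    _ ≤ 1 / (y : ℝ) := by
        rw [one_div]
        have : 0 ≤ ((y + T.sup id : ℕ) : ℝ)⁻¹ := by positivity
        linarith

private theorem cdf_bound (T : Finset ℕ) (hT : ∀ p ∈ T, 2 ≤ p) (hμ : 0 < recip T) (k : ℤ) :
    |cdf T k - poisCdf (recip T) k| ≤ 4 / √(recip T) := by
  have hT1 : ∀ p ∈ T, 1 ≤ p := fun p hp => (by norm_num : 1 ≤ 2).trans (hT p hp)
  set μ := recip T with hμdef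
  have hsq : 0 < √μ := Real.sqrt_pos.2 hμ
  rcases lt_or_ge μ 16 with h16 | h16
  · -- trivial range
    have h4 : √μ ≤ 4 := by
      rw [Real.sqrt_le_left (by norm_num)]
      linarith
    have h1 : 1 ≤ 4 / √μ := by
      rw [le_div_iff₀ hsq]
      linarith
    refine le_trans ?_ h1
    rw [abs_le]
    have a1 := cdf_nonneg hT1 k
    have a2 := cdf_le_one hT1 k
    have a3 := poisCdf_nonneg hμ.le k
    have a4 := poisCdf_le_one hμ.le k
    constructor <;> linarith
  · set y : ℕ := ⌈√μ⌉₊ with hy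
    have hy0 : 0 < y := Nat.ceil_pos.2 hsq
    have hyge : √μ ≤ y := Nat.le_ceil _
    have hylt : (y : ℝ) < √μ + 1 := Nat.ceil_lt_add_one hsq.le
    set T₁ := T.filter (fun p => ¬ y < p) with hT₁
    set T₂ := T.filter (fun p => y < p) with hT₂
    have hU : T₂ ∪ T₁ = T := Finset.filter_union_filter_not_eq _ _
    have hdis : Disjoint T₂ T₁ := Finset.disjoint_filter_filter_not _ _ _
    have hT₁' : ∀ p ∈ T₁, 1 ≤ p := fun p hp => hT1 p (Finset.mem_filter.1 hp).1
    have hT₂' : ∀ p ∈ T₂, 1 ≤ p := fun p hp => hT1 p (Finset.mem_filter.1 hp).1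
    have hrec : recip T₂ + recip T₁ = μ := by
      rw [hμdef, ← hU]
      unfold recip
      rw [Finset.sum_union hdis]
    have hrec₁ : recip T₁ ≤ √μ / 2 := by
      have hcard : T₁.card ≤ y - 1 := by
        have : T₁ ⊆ Finset.Ioc 1 y := by
          intro p hp
          rw [Finset.mem_Ioc]
          have := Finset.mem_filter.1 hp
          have h2 := hT p this.1
          constructor
          · omega
          · exact not_lt.1 this.2
        have := Finset.card_le_card this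
        rwa [Nat.card_Ioc] at this
      have h1 : recip T₁ ≤ ∑ p ∈ T₁, (1 / 2 : ℝ) := by
        unfold recip
        refine Finset.sum_le_sum fun p hp => ?_
        have h2 : (2 : ℝ) ≤ p := by exact_mod_cast hT p (Finset.mem_filter.1 hp).1
        gcongr
      rw [Finset.sum_const, nsmul_eq_mul] at h1
      have h2 : (T₁.card : ℝ) ≤ (y : ℝ) - 1 := by
        have : T₁.card + 1 ≤ y := by omega
        have : ((T₁.card + 1 : ℕ) : ℝ) ≤ y := by exact_mod_cast this
        push_cast at this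
        linarith
      nlinarith
    have hs4 : √μ ≤ μ / 4 := by
      have h4 : 4 ≤ √μ := by
        rw [Real.le_sqrt (by norm_num) hμ.le]
        linarith
      nlinarith [Real.mul_self_sqrt hμ.le]
    have hrec₂ : μ / 2 ≤ recip T₂ := by linarith
    -- first replacement
    have e1 := Hm_union (k := k) hT₁' T₂ hT₂' hdis 0 le_rfl
    rw [hU, Hm_zero, zero_add] at e1
    have e1' : ∑ p ∈ T₂, ((p : ℝ) ^ 2)⁻¹ ≤ 1 / √μ :=
      (sum_inv_sq_le hy0.ne' T₂ fun p hp => (Finset.mem_filter.1 hp).2).trans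
        (one_div_le_one_div_of_le hsq hyge)
    -- second replacement
    have e2 := Hm_union' (k := k) T₁ hT₁' (μ / 2) (recip T₂) (by linarith) hrec₂
    rw [hrec, Hm_empty] at e2
    have e2' : (∑ p ∈ T₁, ((p : ℝ) ^ 2)⁻¹) / (μ / 2) ≤ 3 / √μ := by
      have h1 := sum_inv_sq_le (y := 1) one_ne_zero T₁ fun p hp => by
        have := hT p (Finset.mem_filter.1 hp).1
        omega
      rw [div_le_div_iff₀ (by linarith) hsq]
      have h0 : 0 ≤ ∑ p ∈ T₁, ((p : ℝ) ^ 2)⁻¹ := Finset.sum_nonneg fun _ _ => by positivity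
      simp only [Nat.cast_one, div_one] at h1
      nlinarith
    calc |cdf T k - poisCdf μ k|
        ≤ |cdf T k - Hm k T₁ (recip T₂)| + |Hm k T₁ (recip T₂) - poisCdf μ k| := abs_sub_le _ _ _
      _ ≤ 1 / √μ + 3 / √μ := add_le_add (e1.trans e1') (e2.trans e2')
      _ = 4 / √μ := by ring

theorem cdf_sub_poisCdf_le : ∃ C : ℝ, 0 < C ∧ ∀ T : Finset ℕ, (∀ p ∈ T, 2 ≤ p) → 0 < recip T →
    ∀ k : ℤ, |cdf T k - poisCdf (recip T) k| ≤ C / √(recip T) :=
  ⟨4, by norm_num, fun T hT hμ k => cdf_bound T hT hμ k⟩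

theorem pmf_le : ∃ C : ℝ, 0 < C ∧ ∀ T : Finset ℕ, (∀ p ∈ T, 2 ≤ p) → 0 < recip T →
    ∀ k : ℤ, pmf T k ≤ C / √(recip T) := by
  refine ⟨10, by norm_num, fun T hT hμ k => ?_⟩
  have h1 := (abs_le.1 (cdf_bound T hT hμ k)).2
  have h2 := (abs_le.1 (cdf_bound T hT hμ (k - 1))).1
  have h3 := pois_le hμ k
  have h4 := poisCdf_sub_one (recip T) k
  rw [← cdf_sub_one]
  have e : 10 / √(recip T) = 4 / √(recip T) + 4 / √(recip T) + 2 / √(recip T) := by ring
  rw [e]
  linarith

end EK
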