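import Pool.Agent.EK.Defs

/-!
# MODULE A: elementary facts on the Poisson law

Paper proofs.

* `abs_pois_sub_le`: for `k < 0` both terms vanish.  For `k ≥ 0`,
  `pois t (k-1) = (k/t) pois t k`, so the difference is `pois t k * (t - k) / t`, and it remains
  to see `pois t k * |t - k| ≤ 1`.  As `pois t j / pois t (j-1) = t / j`, the mass function is
  nondecreasing on `j ≤ t` and nonincreasing on `j ≥ t - 1`; hence `pois t k ≤ pois t j` for all
  integers `j` between `t` and `k`; there are at least `|t - k|` of them (if `k > t`, the integers in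
  `[max 0 (t-1), k]`, at least `k - t`; if `k < t`, the integers in `[k, t]`, at least `t - k`),
  and the masses sum to at most 1.
* `pois_le`: put `M = pois t k`.  By `abs_pois_sub_le`, `pois t (k + j) ≥ M - j / t`.  Sum over
  `j < n` with `n = ⌊M t⌋₊ + 1`: `1 ≥ n M - n (n-1) / (2 t) ≥ n M / 2 ≥ M^2 t / 2`.
  Hence `M ≤ √2 / √t`.
* `poisCdf_lip`: derivative `- pois`, bounded by `2 / √s` on `[s, t]`.
* `poisCdf_step`, `poisCdf_step'`: `g v = poisCdf (t+v) k - poisCdf t k + v * pois t k` has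
  `g 0 = 0`, `g' v = pois t k - pois (t+v) k`, and `|g' v| ≤ v * sup |∂ pois|`, where
  `∂ pois = pois (k-1) - pois k` is at most `1` and at most `1/t` in absolute value.
* `poisCdf_shift`: `poisCdf t (k-j) = poisCdf t k - ∑ i < j, pois t (k-i)` and
  `|pois t (k-i) - pois t k| ≤ i / t`.
-/

namespace EK

open Finset Set

theorem pois_of_neg {t : ℝ} {k : ℤ} (hk : k < 0) : pois t k = 0 := by
  simp [pois, not_le.2 hk]

theorem pois_natCast (t : ℝ) (n : ℕ) : pois t (n : ℤ) = Real.exp (-t) * t ^ n / n.factorial := by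
  simp [pois]

theorem poisCdf_of_neg {t : ℝ} {k : ℤ} (hk : k < 0) : poisCdf t k = 0 := by
  have : (k + 1).toNat = 0 := by omega
  simp [poisCdf, this]

theorem poisCdf_natCast (t : ℝ) (n : ℕ) :
    poisCdf t (n : ℤ) = ∑ j ∈ Finset.range (n + 1), pois t (j : ℤ) := by
  have : ((n : ℤ) + 1).toNat = n + 1 := by omega
  simp [poisCdf, this]

theorem poisCdf_sub_one (t : ℝ) (k : ℤ) : poisCdf t k - poisCdf t (k - 1) = pois t k := by
  rcases lt_or_ge k 0 with hk | hk
  · rw [pois_of_neg hk, poisCdf_of_neg hk, poisCdf_of_neg (by omega)]; simp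
  · obtain ⟨n, rfl⟩ := Int.eq_ofNat_of_zero_le hk
    have h1 : ((n : ℤ) + 1).toNat = n + 1 := by omega
    have h2 : ((n : ℤ) - 1 + 1).toNat = n := by omega
    rw [poisCdf, poisCdf, h1, h2, Finset.sum_range_succ]
    ring

theorem hasDerivAt_pois (t : ℝ) (k : ℤ) :
    HasDerivAt (fun s => pois s k) (pois t (k - 1) - pois t k) t := by
  rcases lt_or_ge k 0 with hk | hk
  · rw [pois_of_neg hk, pois_of_neg (by omega : k - 1 < 0)]
    have : (fun s => pois s k) = fun _ => 0 := by
      funext s; exact pois_of_neg hk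
    rw [this, sub_zero]
    exact hasDerivAt_const _ _
  · obtain ⟨n, rfl⟩ := Int.eq_ofNat_of_zero_le hk
    have hexp : HasDerivAt (fun s : ℝ => Real.exp (-s)) (-Real.exp (-t)) t := by
      have := (hasDerivAt_neg t).exp
      simpa using this
    cases n with
    | zero =>
      have h1 : pois t (((0 : ℕ) : ℤ) - 1) = 0 := pois_of_neg (by simp)
      rw [h1]
      simp only [pois_natCast, pow_zero, mul_one, Nat.factorial_zero, Nat.cast_one, div_one, zero_sub]
      exact hexp
    | succ n =>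
      have h1 : (((n + 1 : ℕ) : ℤ) - 1) = (n : ℤ) := by push_cast; ring
      rw [h1]
      simp only [pois_natCast]
      have h2 := (hexp.mul (hasDerivAt_pow (n + 1) t)).div_const ((n + 1).factorial : ℝ)
      refine h2.congr_deriv ?_
      have h3 : ((n + 1).factorial : ℝ) = (n + 1) * n.factorial := by
        rw [Nat.factorial_succ]; push_cast; ring
      have h4 : (n.factorial : ℝ) ≠ 0 := by positivity
      have h5 : ((n : ℝ) + 1) ≠ 0 := by positivity
      rw [h3]
      simp only [Nat.add_sub_cancel]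
      field_simp
      push_cast
      ring

theorem hasDerivAt_poisCdf (t : ℝ) (k : ℤ) :
    HasDerivAt (fun s => poisCdf s k) (-pois t k) t := by
  rcases lt_or_ge k 0 with hk | hk
  · rw [pois_of_neg hk]
    have : (fun s => poisCdf s k) = fun _ => 0 := by
      funext s; exact poisCdf_of_neg hk
    rw [this, neg_zero]
    exact hasDerivAt_const _ _
  · obtain ⟨n, rfl⟩ := Int.eq_ofNat_of_zero_le hk
    induction n with
    | zero =>
      have h1 := hasDerivAt_pois t ((0 : ℕ) : ℤ)
      have h2 : pois t (((0 : ℕ) : ℤ) - 1) = 0 := pois_of_neg (by simp)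
      rw [h2, zero_sub] at h1
      have h3 : (fun s => poisCdf s ((0 : ℕ) : ℤ)) = fun s => pois s ((0 : ℕ) : ℤ) := by
        funext s; rw [poisCdf_natCast]; simp
      rw [h3]
      exact h1
    | succ n ih =>
      have h1 := hasDerivAt_pois t ((n + 1 : ℕ) : ℤ)
      have h2 : (((n + 1 : ℕ) : ℤ) - 1) = (n : ℤ) := by push_cast; ring
      rw [h2] at h1
      have h3 : (fun s => poisCdf s ((n + 1 : ℕ) : ℤ)) =
          fun s => poisCdf s (n : ℤ) + pois s ((n + 1 : ℕ) : ℤ) := by
        funext s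
        have := poisCdf_sub_one s ((n + 1 : ℕ) : ℤ)
        rw [h2] at this
        linarith
      rw [h3]
      refine ((ih (by omega)).add h1).congr_deriv ?_
      ring

theorem pois_nonneg {t : ℝ} (ht : 0 ≤ t) (k : ℤ) : 0 ≤ pois t k := by
  unfold pois
  split_ifs
  · positivity
  · exact le_rfl

theorem poisCdf_nonneg {t : ℝ} (ht : 0 ≤ t) (k : ℤ) : 0 ≤ poisCdf t k :=
  Finset.sum_nonneg (fun _ _ => pois_nonneg ht _)

theorem poisCdf_le_one {t : ℝ} (ht : 0 ≤ t) (k : ℤ) : poisCdf t k ≤ 1 := by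
  unfold poisCdf
  have h1 := Real.sum_le_exp_of_nonneg ht (k + 1).toNat
  have h2 : ∑ j ∈ Finset.range (k + 1).toNat, pois t (j : ℤ) =
      Real.exp (-t) * ∑ i ∈ Finset.range (k + 1).toNat, t ^ i / i.factorial := by
    rw [Finset.mul_sum]
    refine Finset.sum_congr rfl (fun j _ => ?_)
    rw [pois_natCast]; ring
  rw [h2]
  calc Real.exp (-t) * ∑ i ∈ Finset.range (k + 1).toNat, t ^ i / i.factorial
      ≤ Real.exp (-t) * Real.exp t := mul_le_mul_of_nonneg_left h1 (Real.exp_pos _).le
    _ = 1 := by rw [← Real.exp_add]; simp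

theorem pois_le_one {t : ℝ} (ht : 0 ≤ t) (k : ℤ) : pois t k ≤ 1 := by
  have h1 := poisCdf_sub_one t k
  have h2 := poisCdf_le_one ht k
  have h3 := poisCdf_nonneg ht (k - 1)
  linarith

theorem poisCdf_mono {t : ℝ} (ht : 0 ≤ t) {k l : ℤ} (h : k ≤ l) : poisCdf t k ≤ poisCdf t l := by
  unfold poisCdf
  refine Finset.sum_le_sum_of_subset_of_nonneg ?_ (fun _ _ _ => pois_nonneg ht _)
  exact Finset.range_subset_range.2 (by omega)

theorem poisCdf_zero {k : ℤ} (hk : 0 ≤ k) : poisCdf 0 k = 1 := by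
  obtain ⟨n, rfl⟩ := Int.eq_ofNat_of_zero_le hk
  rw [poisCdf_natCast, Finset.sum_range_succ']
  simp [pois]

theorem pois_succ {t : ℝ} (ht : 0 < t) (n : ℕ) :
    pois t ((n + 1 : ℕ) : ℤ) = pois t (n : ℤ) * (t / (n + 1)) := by
  rw [pois_natCast, pois_natCast, Nat.factorial_succ]
  push_cast
  have h4 : (n.factorial : ℝ) ≠ 0 := by positivity
  have h5 : ((n : ℝ) + 1) ≠ 0 := by positivity
  field_simp
  ring

theorem sum_pois_Icc_le {t : ℝ} (ht : 0 ≤ t) (m n : ℕ) :
    ∑ j ∈ Finset.Icc m n, pois t (j : ℤ) ≤ 1 := by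
  have h1 : Finset.Icc m n ⊆ Finset.range (n + 1) := by
    intro j hj
    rw [Finset.mem_Icc] at hj
    rw [Finset.mem_range]
    omega
  calc ∑ j ∈ Finset.Icc m n, pois t (j : ℤ) ≤ ∑ j ∈ Finset.range (n + 1), pois t (j : ℤ) :=
        Finset.sum_le_sum_of_subset_of_nonneg h1 (fun _ _ _ => pois_nonneg ht _)
    _ = poisCdf t (n : ℤ) := (poisCdf_natCast t n).symm
    _ ≤ 1 := poisCdf_le_one ht _

theorem pois_mul_abs_le {t : ℝ} (ht : 0 < t) (n : ℕ) : pois t (n : ℤ) * |t - n| ≤ 1 := by
  set m := ⌊t⌋₊ with hm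
  have hm1 : (m : ℝ) ≤ t := Nat.floor_le ht.le
  have hm2 : t < m + 1 := Nat.lt_floor_add_one t
  have hp := pois_nonneg ht.le (n : ℤ)
  rcases le_total n m with h | h
  · have hmono : ∀ j, n ≤ j → j ≤ m → pois t (n : ℤ) ≤ pois t (j : ℤ) := by
      intro j hj
      induction j, hj using Nat.le_induction with
      | base => intro _; exact le_rfl
      | succ j hj ih =>
        intro hjm
        refine (ih (by omega)).trans ?_
        rw [pois_succ ht]
        have h1 : (1 : ℝ) ≤ t / (j + 1) := by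
          rw [le_div_iff₀ (by positivity)]
          have : ((j + 1 : ℕ) : ℝ) ≤ m := by exact_mod_cast hjm
          push_cast at this
          linarith
        have h2 := pois_nonneg ht.le (j : ℤ)
        nlinarith
    have hsum : ((m - n + 1 : ℕ) : ℝ) * pois t (n : ℤ) ≤ ∑ j ∈ Finset.Icc n m, pois t (j : ℤ) := by
      have := Finset.card_nsmul_le_sum (Finset.Icc n m) (fun j => pois t (j : ℤ)) (pois t (n : ℤ))
        (fun j hj => hmono j (Finset.mem_Icc.1 hj).1 (Finset.mem_Icc.1 hj).2)
      rw [Nat.card_Icc, nsmul_eq_mul] at this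
      have h3 : m + 1 - n = m - n + 1 := by omega
      rw [h3] at this
      exact this
    have h4 := sum_pois_Icc_le ht.le n m
    have h5 : |t - n| ≤ ((m - n + 1 : ℕ) : ℝ) := by
      have hnm : (n : ℝ) ≤ m := by exact_mod_cast h
      rw [abs_of_nonneg (by linarith)]
      push_cast [Nat.cast_sub h]
      linarith
    calc pois t (n : ℤ) * |t - n| ≤ pois t (n : ℤ) * ((m - n + 1 : ℕ) : ℝ) :=
          mul_le_mul_of_nonneg_left h5 hp
      _ = ((m - n + 1 : ℕ) : ℝ) * pois t (n : ℤ) := mul_comm _ _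
      _ ≤ 1 := hsum.trans h4
  · have hanti : ∀ j, m ≤ j → ∀ i, j ≤ i → pois t (i : ℤ) ≤ pois t (j : ℤ) := by
      intro j hj i hi
      induction i, hi using Nat.le_induction with
      | base => exact le_rfl
      | succ i hi ih =>
        refine le_trans ?_ ih
        rw [pois_succ ht]
        have h1 : t / (i + 1) ≤ 1 := by
          rw [div_le_one (by positivity)]
          have : (m : ℝ) ≤ i := by exact_mod_cast hj.trans hi
          linarith
        have h2 := pois_nonneg ht.le (i : ℤ)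
        nlinarith
    have hsum : ((n - m + 1 : ℕ) : ℝ) * pois t (n : ℤ) ≤ ∑ j ∈ Finset.Icc m n, pois t (j : ℤ) := by
      have := Finset.card_nsmul_le_sum (Finset.Icc m n) (fun j => pois t (j : ℤ)) (pois t (n : ℤ))
        (fun j hj => hanti j (Finset.mem_Icc.1 hj).1 n (Finset.mem_Icc.1 hj).2)
      rw [Nat.card_Icc, nsmul_eq_mul] at this
      have h3 : n + 1 - m = n - m + 1 := by omega
      rw [h3] at this
      exact this
    have h4 := sum_pois_Icc_le ht.le m n
    have h5 : |t - n| ≤ ((n - m + 1 : ℕ) : ℝ) := by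
      have hnm : (m : ℝ) ≤ n := by exact_mod_cast h
      push_cast [Nat.cast_sub h]
      rw [abs_le]
      constructor <;> linarith
    calc pois t (n : ℤ) * |t - n| ≤ pois t (n : ℤ) * ((n - m + 1 : ℕ) : ℝ) :=
          mul_le_mul_of_nonneg_left h5 hp
      _ = ((n - m + 1 : ℕ) : ℝ) * pois t (n : ℤ) := mul_comm _ _
      _ ≤ 1 := hsum.trans h4

theorem abs_pois_sub_le {t : ℝ} (ht : 0 < t) (k : ℤ) :
    |pois t k - pois t (k - 1)| ≤ 1 / t := by
  rcases lt_or_ge k 0 with hk | hk
  · rw [pois_of_neg hk, pois_of_neg (by omega : k - 1 < 0)]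
    simp only [sub_zero, abs_zero]
    positivity
  · obtain ⟨n, rfl⟩ := Int.eq_ofNat_of_zero_le hk
    have key : pois t (n : ℤ) - pois t ((n : ℤ) - 1) = pois t (n : ℤ) * (t - n) / t := by
      cases n with
      | zero =>
        rw [pois_of_neg (by simp : (((0 : ℕ) : ℤ) - 1) < 0)]
        simp only [sub_zero, Nat.cast_zero]
        field_simp
      | succ n =>
        have h1 : (((n + 1 : ℕ) : ℤ) - 1) = (n : ℤ) := by push_cast; ring
        rw [h1, pois_succ ht]
        have h5 : ((n : ℝ) + 1) ≠ 0 := by positivity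
        push_cast
        field_simp
    rw [key, abs_div, abs_mul, abs_of_nonneg (pois_nonneg ht.le _), abs_of_pos ht]
    exact div_le_div_of_nonneg_right (pois_mul_abs_le ht n) ht.le

theorem sum_pois_shift_le {t : ℝ} (ht : 0 ≤ t) (k : ℤ) (n : ℕ) :
    ∑ j ∈ Finset.range n, pois t (k + j) = poisCdf t (k + n - 1) - poisCdf t (k - 1) := by
  induction n with
  | zero => simp
  | succ n ih =>
    rw [Finset.sum_range_succ, ih, ← poisCdf_sub_one t (k + n)]
    have h1 : k + ((n + 1 : ℕ) : ℤ) - 1 = k + n := by push_cast; ring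
    rw [h1]
    ring

theorem abs_pois_shift_le {t : ℝ} (ht : 0 < t) (k : ℤ) (j : ℕ) :
    |pois t (k + j) - pois t k| ≤ j / t := by
  induction j with
  | zero => simp
  | succ j ih =>
    have h1 := abs_pois_sub_le ht (k + ((j + 1 : ℕ) : ℤ))
    have h2 : k + ((j + 1 : ℕ) : ℤ) - 1 = k + j := by push_cast; ring
    rw [h2] at h1
    have h3 : pois t (k + ((j + 1 : ℕ) : ℤ)) - pois t k =
      (pois t (k + ((j + 1 : ℕ) : ℤ)) - pois t (k + j)) + (pois t (k + j) - pois t k) := by ring
    rw [h3]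
    refine (abs_add_le _ _).trans ((add_le_add h1 ih).trans ?_)
    push_cast
    rw [← add_div]
    apply le_of_eq
    ring

theorem pois_le {t : ℝ} (ht : 0 < t) (k : ℤ) : pois t k ≤ 2 / √t := by
  set M := pois t k with hM
  have hM0 : 0 ≤ M := pois_nonneg ht.le k
  set n := ⌊M * t⌋₊ with hn
  have hn1 : (n : ℝ) ≤ M * t := Nat.floor_le (by positivity)
  have hn2 : M * t < n + 1 := Nat.lt_floor_add_one _
  have hsum : ∑ j ∈ Finset.range (n + 1), pois t (k + j) ≤ 1 := by
    rw [sum_pois_shift_le ht.le]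
    have h1 := poisCdf_le_one ht.le (k + ((n + 1 : ℕ) : ℤ) - 1)
    have h2 := poisCdf_nonneg ht.le (k - 1)
    linarith
  have hlow : ∀ j ∈ Finset.range (n + 1), M - j / t ≤ pois t (k + j) := by
    intro j _
    have := (abs_le.1 (abs_pois_shift_le ht k j)).1
    linarith
  have hsum2 := Finset.sum_le_sum hlow
  have hid : (∑ j ∈ Finset.range (n + 1), (j : ℝ)) * 2 = (n + 1) * n := by
    have := Finset.sum_range_id_mul_two (n + 1)
    have h := congrArg (fun x : ℕ => (x : ℝ)) this
    push_cast at h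
    simpa using h
  have hsum3 : ∑ j ∈ Finset.range (n + 1), (M - j / t) = (n + 1) * M - (n + 1) * n / (2 * t) := by
    rw [Finset.sum_sub_distrib, ← Finset.sum_div]
    simp only [Finset.sum_const, Finset.card_range, nsmul_eq_mul]
    push_cast
    have : (∑ j ∈ Finset.range (n + 1), (j : ℝ)) = (n + 1) * n / 2 := by linarith
    rw [this]
    field_simp
  rw [hsum3] at hsum2
  have h4 : ((n : ℝ) + 1) * n / (2 * t) ≤ (n + 1) * M / 2 := by
    rw [div_le_div_iff₀ (by positivity) (by positivity)]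
    have : ((n : ℝ) + 1) * n ≤ (n + 1) * (M * t) := mul_le_mul_of_nonneg_left hn1 (by positivity)
    nlinarith
  have h5 : ((n : ℝ) + 1) * M ≤ 2 := by linarith
  have h6 : M * M * t ≤ 2 := by nlinarith
  rw [le_div_iff₀ (Real.sqrt_pos.2 ht)]
  have h7 : (M * √t) ^ 2 ≤ 2 ^ 2 := by
    rw [mul_pow, Real.sq_sqrt ht.le]
    nlinarith
  exact le_of_sq_le_sq h7 (by norm_num) |>.trans le_rfl

theorem poisCdf_lip {s t : ℝ} (hs : 0 < s) (hst : s ≤ t) (k : ℤ) :
    |poisCdf t k - poisCdf s k| ≤ 2 * (t - s) / √s := by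
  have h := (convex_Icc s t).norm_image_sub_le_of_norm_hasDerivWithin_le
    (f := fun v => poisCdf v k) (f' := fun v => -pois v k) (C := 2 / √s)
    (fun v _ => (hasDerivAt_poisCdf v k).hasDerivWithinAt)
    (fun v hv => by
      have hv0 : 0 < v := hs.trans_le hv.1
      rw [norm_neg, Real.norm_eq_abs, abs_of_nonneg (pois_nonneg hv0.le k)]
      refine (pois_le hv0 k).trans ?_
      exact div_le_div_of_nonneg_left (by norm_num) (Real.sqrt_pos.2 hs) (Real.sqrt_le_sqrt hv.1))
    (left_mem_Icc.2 hst) (right_mem_Icc.2 hst)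
  rw [Real.norm_eq_abs, Real.norm_eq_abs, abs_of_nonneg (by linarith : (0 : ℝ) ≤ t - s)] at h
  refine h.trans (le_of_eq ?_)
  ring

/-- a general second-order bound -/
theorem poisCdf_step_aux {t s c : ℝ} (hs : 0 ≤ s) (k : ℤ)
    (hc : ∀ v, t ≤ v → |pois v (k - 1) - pois v k| ≤ c) :
    |poisCdf (t + s) k - (poisCdf t k - s * pois t k)| ≤ c * s ^ 2 := by
  have hc0 : 0 ≤ c := (abs_nonneg _).trans (hc t le_rfl)
  have hp : ∀ v, 0 ≤ v → v ≤ s → |pois (t + v) k - pois t k| ≤ c * s := by
    intro v h0 h1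
    have h := (convex_Icc t (t + v)).norm_image_sub_le_of_norm_hasDerivWithin_le
      (f := fun v => pois v k) (f' := fun v => pois v (k - 1) - pois v k) (C := c)
      (fun u _ => (hasDerivAt_pois u k).hasDerivWithinAt)
      (fun u hu => by rw [Real.norm_eq_abs]; exact hc u hu.1)
      (left_mem_Icc.2 (by linarith)) (right_mem_Icc.2 (by linarith))
    rw [Real.norm_eq_abs, Real.norm_eq_abs, add_sub_cancel_left, abs_of_nonneg h0] at h
    exact h.trans (mul_le_mul_of_nonneg_left h1 hc0)
  have hg : ∀ v : ℝ, HasDerivAt (fun v => poisCdf (t + v) k + v * pois t k)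
      (-pois (t + v) k + pois t k) v := by
    intro v
    have h1 : HasDerivAt (fun v => poisCdf (t + v) k) (-pois (t + v) k) v := by
      have := (hasDerivAt_poisCdf (t + v) k).comp_const_add t v
      exact this
    have h2 : HasDerivAt (fun v => v * pois t k) (pois t k) v := by
      simpa using (hasDerivAt_id v).mul_const (pois t k)
    exact h1.add h2
  have h := (convex_Icc 0 s).norm_image_sub_le_of_norm_hasDerivWithin_le
    (f := fun v => poisCdf (t + v) k + v * pois t k)
    (f' := fun v => -pois (t + v) k + pois t k) (C := c * s)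
    (fun v _ => (hg v).hasDerivWithinAt)
    (fun v hv => by
      rw [Real.norm_eq_abs, neg_add_eq_sub, abs_sub_comm]
      exact hp v hv.1 hv.2)
    (left_mem_Icc.2 hs) (right_mem_Icc.2 hs)
  rw [Real.norm_eq_abs, Real.norm_eq_abs, sub_zero, abs_of_nonneg hs] at h
  have h5 : poisCdf (t + s) k - (poisCdf t k - s * pois t k) =
      poisCdf (t + s) k + s * pois t k - (poisCdf (t + 0) k + 0 * pois t k) := by
    simp only [add_zero, zero_mul]; ring
  rw [h5]
  refine h.trans (le_of_eq ?_)
  ring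

theorem poisCdf_step {t s : ℝ} (ht : 0 ≤ t) (hs : 0 ≤ s) (k : ℤ) :
    |poisCdf (t + s) k - (poisCdf t k - s * pois t k)| ≤ s ^ 2 := by
  have := poisCdf_step_aux (t := t) (c := 1) hs k (fun v hv => by
    have h0 := ht.trans hv
    have h1 := pois_nonneg h0 k
    have h2 := pois_le_one h0 k
    have h3 := pois_nonneg h0 (k - 1)
    have h4 := pois_le_one h0 (k - 1)
    rw [abs_le]
    constructor <;> linarith)
  simpa using this

theorem poisCdf_step' {t s : ℝ} (ht : 0 < t) (hs : 0 ≤ s) (k : ℤ) :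
    |poisCdf (t + s) k - (poisCdf t k - s * pois t k)| ≤ s ^ 2 / t := by
  have := poisCdf_step_aux (t := t) (c := 1 / t) hs k (fun v hv => by
    rw [abs_sub_comm]
    refine (abs_pois_sub_le (ht.trans_le hv) k).trans ?_
    exact one_div_le_one_div_of_le ht hv)
  refine this.trans (le_of_eq ?_)
  ring

theorem poisCdf_shift {t : ℝ} (ht : 0 < t) (k : ℤ) (j : ℕ) :
    |poisCdf t (k - j) - (poisCdf t k - j * pois t k)| ≤ (j : ℝ) ^ 2 / t := by
  induction j with
  | zero => simp
  | succ j ih =>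
    have h1 := abs_pois_shift_le ht (k - j) j
    have h2 : k - (j : ℤ) + j = k := by ring
    rw [h2] at h1
    have h3 := poisCdf_sub_one t (k - j)
    have h4 : k - ((j + 1 : ℕ) : ℤ) = k - j - 1 := by push_cast; ring
    rw [h4]
    have h5 : poisCdf t (k - j - 1) - (poisCdf t k - ((j + 1 : ℕ) : ℝ) * pois t k) =
        (poisCdf t (k - j) - (poisCdf t k - j * pois t k)) + (pois t k - pois t (k - j)) := by
      push_cast
      linarith
    rw [h5]
    refine (abs_add_le _ _).trans ((add_le_add ih h1).trans ?_)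
    rw [← add_div]
    refine div_le_div_of_nonneg_right ?_ ht.le
    push_cast
    nlinarith [Nat.cast_nonneg (α := ℝ) j]

end EK
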