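import Pool.Agent.EK.PB
import Pool.Agent.EK.Mertens

/-!
# MODULE S: the sieve recursion
-/

namespace EK

open Finset

variable {ι : Type*}

/-- Weighted count of the `n ∈ Ω` such that all elements of `E` divide `m n` and exactly `x`
elements of `T` divide `m n`. -/
noncomputable def pm (Ω : Finset ι) (m : ι → ℕ) (T E : Finset ℕ) (x : ℤ) : ℝ :=
  (∏ p ∈ E, (p : ℝ)) * ∑ n ∈ Ω, (if ∀ p ∈ E, p ∣ m n then (1 : ℝ) else 0) *
    (if (U T (m n) : ℤ) = x then 1 else 0)

/-- The number of `n ∈ Ω` such that at most `x` elements of `T` divide `m n`. -/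
noncomputable def cm (Ω : Finset ι) (m : ι → ℕ) (T : Finset ℕ) (x : ℤ) : ℝ :=
  ∑ n ∈ Ω, (if (U T (m n) : ℤ) ≤ x then (1 : ℝ) else 0)

theorem U_insert {T : Finset ℕ} {p : ℕ} (hp : p ∉ T) (n : ℕ) :
    U (insert p T) n = U T n + (if p ∣ n then 1 else 0) := by
  unfold U
  rw [Finset.filter_insert]
  split_ifs with h
  · rw [Finset.card_insert_of_notMem]
    simp [hp]
  · simp

theorem U_union {T S : Finset ℕ} (h : Disjoint T S) (n : ℕ) :
    U (T ∪ S) n = U T n + U S n := by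
  unfold U
  rw [Finset.filter_union, Finset.card_union_of_disjoint]
  exact Finset.disjoint_filter_filter h

theorem U_mono {T S : Finset ℕ} (h : T ⊆ S) (n : ℕ) : U T n ≤ U S n :=
  Finset.card_le_card (Finset.filter_subset_filter _ h)

theorem U_empty (n : ℕ) : U ∅ n = 0 := by simp [U]

theorem pm_nonneg (Ω : Finset ι) (m : ι → ℕ) (T E : Finset ℕ) (x : ℤ) : 0 ≤ pm Ω m T E x := by
  unfold pm
  apply mul_nonneg
  · exact Finset.prod_nonneg fun _ _ => Nat.cast_nonneg _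
  · apply Finset.sum_nonneg
    intro n _
    split_ifs <;> simp

theorem pm_insert (Ω : Finset ι) (m : ι → ℕ) {T E : Finset ℕ} {p : ℕ} (hT : p ∉ T) (hE : p ∉ E)
    (hp : p ≠ 0) (x : ℤ) :
    pm Ω m (insert p T) E x = pm Ω m T E x +
      1 / (p : ℝ) * (pm Ω m T (insert p E) (x - 1) - pm Ω m T (insert p E) x) := by
  have hp' : (p : ℝ) ≠ 0 := Nat.cast_ne_zero.mpr hp
  have key : ∀ y : ℤ, 1 / (p : ℝ) * pm Ω m T (insert p E) y =
      (∏ p ∈ E, (p : ℝ)) * ∑ n ∈ Ω, (if p ∣ m n then (1 : ℝ) else 0) *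
        ((if ∀ p ∈ E, p ∣ m n then (1 : ℝ) else 0) * (if (U T (m n) : ℤ) = y then 1 else 0)) := by
    intro y
    unfold pm
    rw [Finset.prod_insert hE]
    have : ∀ n ∈ Ω, (if ∀ q ∈ insert p E, q ∣ m n then (1 : ℝ) else 0) *
        (if (U T (m n) : ℤ) = y then 1 else 0) = (if p ∣ m n then (1 : ℝ) else 0) *
        ((if ∀ p ∈ E, p ∣ m n then (1 : ℝ) else 0) * (if (U T (m n) : ℤ) = y then 1 else 0)) := by
      intro n _
      simp only [Finset.forall_mem_insert]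
      by_cases h1 : p ∣ m n <;> by_cases h2 : ∀ p ∈ E, p ∣ m n <;> simp [h1, h2]
    rw [Finset.sum_congr rfl this]
    field_simp
  rw [mul_sub, key, key, ← mul_sub, ← Finset.sum_sub_distrib]
  unfold pm
  rw [← mul_add, ← Finset.sum_add_distrib]
  congr 1
  apply Finset.sum_congr rfl
  intro n _
  rw [U_insert hT]
  by_cases h1 : p ∣ m n
  · have e1 : ((U T (m n) + 1 : ℕ) : ℤ) = x ↔ (U T (m n) : ℤ) = x - 1 := by
      push_cast
      constructor <;> intro h <;> linarith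
    simp only [h1, if_true, e1]
    ring
  · simp only [h1, if_false, Nat.add_zero]
    ring

theorem cm_insert (Ω : Finset ι) (m : ι → ℕ) {T : Finset ℕ} {p : ℕ} (hT : p ∉ T)
    (hp : p ≠ 0) (x : ℤ) :
    cm Ω m (insert p T) x = cm Ω m T x - 1 / (p : ℝ) * pm Ω m T {p} x := by
  have hp' : (p : ℝ) ≠ 0 := Nat.cast_ne_zero.mpr hp
  unfold cm pm
  rw [Finset.prod_singleton, ← mul_assoc, one_div, inv_mul_cancel₀ hp', one_mul,
    ← Finset.sum_sub_distrib]
  apply Finset.sum_congr rfl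
  intro n _
  rw [U_insert hT]
  by_cases h1 : p ∣ m n
  · simp only [h1, if_true, Finset.mem_singleton, forall_eq, one_mul]
    push_cast
    rcases lt_trichotomy (U T (m n) : ℤ) x with h | h | h
    · rw [if_pos (by omega), if_pos (by omega), if_neg (by omega)]; ring
    · rw [if_neg (by omega), if_pos (by omega), if_pos (by omega)]; ring
    · rw [if_neg (by omega), if_neg (by omega), if_neg (by omega)]; ring
  · simp [h1]

/-- Trivial bound after adding a set `S` of which at most `D` elements divide any `m n`. -/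
theorem pm_union_le (Ω : Finset ι) (m : ι → ℕ) {T S E : Finset ℕ} (h : Disjoint T S) {D : ℕ}
    (hD : ∀ n ∈ Ω, U S (m n) ≤ D) {K : ℝ} (hK : ∀ x, pm Ω m T E x ≤ K) (x : ℤ) :
    pm Ω m (T ∪ S) E x ≤ (D + 1) * K := by
  have h1 : pm Ω m (T ∪ S) E x ≤ ∑ v ∈ Finset.range (D + 1), pm Ω m T E (x - v) := by
    unfold pm
    rw [← Finset.mul_sum]
    apply mul_le_mul_of_nonneg_left _ (Finset.prod_nonneg fun _ _ => Nat.cast_nonneg _)
    rw [Finset.sum_comm]
    apply Finset.sum_le_sum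
    intro n hn
    rw [← Finset.mul_sum]
    apply mul_le_mul_of_nonneg_left _ (by split_ifs <;> simp)
    rw [U_union h]
    by_cases hx : ((U T (m n) + U S (m n) : ℕ) : ℤ) = x
    · rw [if_pos hx]
      have hmem : U S (m n) ∈ Finset.range (D + 1) := by
        rw [Finset.mem_range]; have := hD n hn; omega
      have := Finset.single_le_sum (f := fun v : ℕ => if (U T (m n) : ℤ) = x - v then (1 : ℝ) else 0)
        (fun v _ => by split_ifs <;> simp) hmem
      refine le_trans ?_ this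
      rw [if_pos (by push_cast at hx; omega)]
    · rw [if_neg hx]
      apply Finset.sum_nonneg
      intro v _
      split_ifs <;> simp
  calc pm Ω m (T ∪ S) E x ≤ ∑ v ∈ Finset.range (D + 1), pm Ω m T E (x - v) := h1
    _ ≤ ∑ v ∈ Finset.range (D + 1), K := Finset.sum_le_sum fun v _ => hK _
    _ = (D + 1) * K := by simp

/-- The error inside one group. -/
theorem group_step (Ω : Finset ι) (m : ι → ℕ) {G T E : Finset ℕ} {X Λ q : ℝ} {b D : ℕ}
    (hG : ∀ p ∈ G, 2 ≤ p) (hT : ∀ p ∈ T, 1 ≤ p) (hTG : Disjoint T G) (hEG : Disjoint E G)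
    (hX : 0 ≤ X) (hΛ : 0 ≤ Λ)
    (H1 : ∀ E' ⊆ G, E'.card ≤ b → ∀ x, |pm Ω m T (E ∪ E') x - X * pmf T x| ≤ Λ)
    (H2 : ∀ n ∈ Ω, U G (m n) ≤ D) (H3 : ∀ x, pmf T x ≤ q) (S : Finset ℕ) :
    S ⊆ G → ∀ E' ⊆ G \ S, E'.card ≤ b → ∀ x,
      |pm Ω m (T ∪ S) (E ∪ E') x - X * pmf (T ∪ S) x| ≤
        (∏ p ∈ S, (1 + 2 / (p : ℝ))) * Λ +
        (∏ p ∈ S, (1 + 4 / (p : ℝ))) * ((D + 2) * (Λ + X * q)) / 2 ^ (b - E'.card) := by
  have hq : 0 ≤ q := le_trans (pmf_nonneg hT 0) (H3 0)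
  have hM : 0 ≤ ((D : ℝ) + 2) * (Λ + X * q) := by positivity
  have hA1 : ∀ S : Finset ℕ, 1 ≤ ∏ p ∈ S, (1 + 2 / (p : ℝ)) := by
    intro S
    apply Finset.one_le_prod
    intro p _
    have : (0 : ℝ) ≤ 2 / (p : ℝ) := by positivity
    linarith
  have hB1 : ∀ S : Finset ℕ, 1 ≤ ∏ p ∈ S, (1 + 4 / (p : ℝ)) := by
    intro S
    apply Finset.one_le_prod
    intro p _
    have : (0 : ℝ) ≤ 4 / (p : ℝ) := by positivity
    linarith
  have hpmfU : ∀ S ⊆ G, ∀ x, pmf (T ∪ S) x ≤ q := fun S hS x =>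
    pmf_union_le (fun p hp => le_trans (by norm_num) (hG p (hS hp))) H3 x
  -- trivial bound
  have htriv : ∀ S ⊆ G, ∀ E' ⊆ G \ S, E'.card ≤ b → ∀ x,
      |pm Ω m (T ∪ S) (E ∪ E') x - X * pmf (T ∪ S) x| ≤ (D + 2) * (Λ + X * q) := by
    intro S hS E' hE' hb x
    have hK : ∀ x, pm Ω m T (E ∪ E') x ≤ Λ + X * q := by
      intro y
      have h1 := H1 E' (hE'.trans Finset.sdiff_subset) hb y
      have h2 := (abs_le.mp h1).2
      have h3 : X * pmf T y ≤ X * q := mul_le_mul_of_nonneg_left (H3 y) hX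
      linarith
    have h1 := pm_union_le Ω m (E := E ∪ E') (Finset.disjoint_of_subset_right hS hTG)
      (fun n hn => le_trans (U_mono hS _) (H2 n hn)) hK x
    have h2 := pm_nonneg Ω m (T ∪ S) (E ∪ E') x
    have h3 : 0 ≤ pmf (T ∪ S) x := pmf_nonneg (fun p hp => by
      rcases Finset.mem_union.mp hp with h | h
      · exact hT p h
      · exact le_trans (by norm_num) (hG p (hS h))) x
    have h4 : X * pmf (T ∪ S) x ≤ X * q := mul_le_mul_of_nonneg_left (hpmfU S hS x) hX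
    have h5 : 0 ≤ X * pmf (T ∪ S) x := mul_nonneg hX h3
    have h6 : 0 ≤ Λ + X * q := by positivity
    have h7 : 0 ≤ (D : ℝ) * (Λ + X * q) := by positivity
    rw [abs_le]
    constructor
    · nlinarith
    · nlinarith
  induction S using Finset.induction_on with
  | empty =>
    intro _ E' hE' hb x
    have h1 := H1 E' (hE'.trans Finset.sdiff_subset) hb x
    simp only [Finset.union_empty, Finset.prod_empty, one_mul]
    have : 0 ≤ ((D : ℝ) + 2) * (Λ + X * q) / 2 ^ (b - E'.card) := by positivity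
    linarith
  | @insert p S hpS ih =>
    intro hSG E' hE' hb x
    have hSG' : S ⊆ G := (Finset.subset_insert p S).trans hSG
    have hpG : p ∈ G := hSG (Finset.mem_insert_self p S)
    have hp2 : 2 ≤ p := hG p hpG
    have hp0 : p ≠ 0 := by omega
    have hpR : (0 : ℝ) < p := by exact_mod_cast Nat.pos_of_ne_zero hp0
    have hpT : p ∉ T := fun h => (Finset.disjoint_left.mp hTG h) hpG
    have hpTS : p ∉ T ∪ S := by
      rw [Finset.mem_union]; push Not; exact ⟨hpT, hpS⟩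
    have hpE' : p ∉ E' := by
      intro h
      have := hE' h
      rw [Finset.mem_sdiff] at this
      exact this.2 (Finset.mem_insert_self p S)
    have hpE : p ∉ E := fun h => (Finset.disjoint_left.mp hEG h) hpG
    have hpEE : p ∉ E ∪ E' := by
      rw [Finset.mem_union]; push Not; exact ⟨hpE, hpE'⟩
    have hE'2 : E' ⊆ G \ S := hE'.trans (Finset.sdiff_subset_sdiff (le_refl _) (Finset.subset_insert p S))
    rcases Nat.lt_or_ge E'.card b with hlt | hge
    · have hins : insert p E' ⊆ G \ S := by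
        intro y hy
        rcases Finset.mem_insert.mp hy with h | h
        · subst h; exact Finset.mem_sdiff.mpr ⟨hpG, hpS⟩
        · exact hE'2 h
      have hcard : (insert p E').card = E'.card + 1 := Finset.card_insert_of_notMem hpE'
      have i1 := ih hSG' E' hE'2 hb x
      have i2 := ih hSG' (insert p E') hins (by omega) (x - 1)
      have i3 := ih hSG' (insert p E') hins (by omega) x
      have hun : T ∪ insert p S = insert p (T ∪ S) := Finset.union_insert p T S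
      have hun2 : E ∪ insert p E' = insert p (E ∪ E') := Finset.union_insert p E E'
      rw [hun, pm_insert Ω m hpTS hpEE hp0, pmf_insert hpTS]
      rw [hun2] at i2 i3
      rw [Finset.prod_insert hpS, Finset.prod_insert hpS]
      set A := ∏ p ∈ S, (1 + 2 / (p : ℝ)) with hA
      set B := ∏ p ∈ S, (1 + 4 / (p : ℝ)) with hB
      set M := ((D : ℝ) + 2) * (Λ + X * q) with hMdef
      have hpow : (2 : ℝ) ^ (b - E'.card) = 2 * 2 ^ (b - (insert p E').card) := by
        rw [hcard, ← pow_succ']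
        congr 1
        omega
      have e1 : B * M / 2 ^ (b - (insert p E').card) = 2 * (B * M / 2 ^ (b - E'.card)) := by
        rw [hpow]; field_simp
      rw [e1] at i2 i3
      set V := B * M / 2 ^ (b - E'.card) with hV
      have e2 : (1 + 4 / (p : ℝ)) * B * M / 2 ^ (b - E'.card) = (1 + 4 / (p : ℝ)) * V := by
        rw [hV]; ring
      rw [e2]
      have hsplit : pm Ω m (T ∪ S) (E ∪ E') x + 1 / (p : ℝ) *
            (pm Ω m (T ∪ S) (insert p (E ∪ E')) (x - 1) - pm Ω m (T ∪ S) (insert p (E ∪ E')) x) -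
            X * (pmf (T ∪ S) x + 1 / (p : ℝ) * (pmf (T ∪ S) (x - 1) - pmf (T ∪ S) x)) =
          (pm Ω m (T ∪ S) (E ∪ E') x - X * pmf (T ∪ S) x) + 1 / (p : ℝ) *
            ((pm Ω m (T ∪ S) (insert p (E ∪ E')) (x - 1) - X * pmf (T ∪ S) (x - 1)) -
              (pm Ω m (T ∪ S) (insert p (E ∪ E')) x - X * pmf (T ∪ S) x)) := by ring
      rw [hsplit]
      have hinv : (0 : ℝ) ≤ 1 / (p : ℝ) := by positivity
      calc |(pm Ω m (T ∪ S) (E ∪ E') x - X * pmf (T ∪ S) x) + 1 / (p : ℝ) *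
            ((pm Ω m (T ∪ S) (insert p (E ∪ E')) (x - 1) - X * pmf (T ∪ S) (x - 1)) -
              (pm Ω m (T ∪ S) (insert p (E ∪ E')) x - X * pmf (T ∪ S) x))|
          ≤ |pm Ω m (T ∪ S) (E ∪ E') x - X * pmf (T ∪ S) x| + |1 / (p : ℝ) *
            ((pm Ω m (T ∪ S) (insert p (E ∪ E')) (x - 1) - X * pmf (T ∪ S) (x - 1)) -
              (pm Ω m (T ∪ S) (insert p (E ∪ E')) x - X * pmf (T ∪ S) x))| := abs_add_le _ _
        _ ≤ (A * Λ + V) + 1 / (p : ℝ) * ((A * Λ + 2 * V) + (A * Λ + 2 * V)) := by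
            gcongr
            rw [abs_mul, abs_of_nonneg hinv]
            gcongr
            exact (abs_sub _ _).trans (add_le_add i2 i3)
        _ = (1 + 2 / (p : ℝ)) * A * Λ + (1 + 4 / (p : ℝ)) * V := by
            field_simp
            ring
    · have hbe : b - E'.card = 0 := by omega
      have h1 := htriv (insert p S) hSG E' hE' hb x
      rw [hbe, pow_zero, div_one]
      have h2 : (1 : ℝ) * (((D : ℝ) + 2) * (Λ + X * q)) ≤
          (∏ p ∈ insert p S, (1 + 4 / (p : ℝ))) * (((D : ℝ) + 2) * (Λ + X * q)) :=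
        mul_le_mul_of_nonneg_right (hB1 _) hM
      have h3 : 0 ≤ (∏ p ∈ insert p S, (1 + 2 / (p : ℝ))) * Λ :=
        mul_nonneg (le_trans zero_le_one (hA1 _)) hΛ
      linarith

/-- The error of the distribution function inside one group. -/
theorem group_cdf (Ω : Finset ι) (m : ι → ℕ) {G T : Finset ℕ} {X Λ q : ℝ} {b D : ℕ}
    (hG : ∀ p ∈ G, 2 ≤ p) (hT : ∀ p ∈ T, 1 ≤ p) (hTG : Disjoint T G)
    (hX : 0 ≤ X) (hΛ : 0 ≤ Λ) (hb : 1 ≤ b)
    (H1 : ∀ E' ⊆ G, E'.card ≤ b → ∀ x, |pm Ω m T E' x - X * pmf T x| ≤ Λ)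
    (H2 : ∀ n ∈ Ω, U G (m n) ≤ D) (H3 : ∀ x, pmf T x ≤ q) {A B K : ℝ}
    (hA : ∏ p ∈ G, (1 + 2 / (p : ℝ)) ≤ A) (hB : ∏ p ∈ G, (1 + 4 / (p : ℝ)) ≤ B)
    (hK : ∀ x, |cm Ω m T x - X * cdf T x| ≤ K) (S : Finset ℕ) :
    S ⊆ G → ∀ x, |cm Ω m (T ∪ S) x - X * cdf (T ∪ S) x| ≤
      K + recip S * (A * Λ + B * ((D + 2) * (Λ + X * q)) / 2 ^ (b - 1)) := by
  have hq : 0 ≤ q := le_trans (pmf_nonneg hT 0) (H3 0)
  have hM : 0 ≤ ((D : ℝ) + 2) * (Λ + X * q) := by positivity
  have hmonoA : ∀ S ⊆ G, ∏ p ∈ S, (1 + 2 / (p : ℝ)) ≤ A := by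
    intro S hS
    refine le_trans ?_ hA
    apply Finset.prod_le_prod_of_subset_of_one_le hS
    · intro p _; positivity
    · intro p _ _
      have : (0 : ℝ) ≤ 2 / (p : ℝ) := by positivity
      linarith
  have hmonoB : ∀ S ⊆ G, ∏ p ∈ S, (1 + 4 / (p : ℝ)) ≤ B := by
    intro S hS
    refine le_trans ?_ hB
    apply Finset.prod_le_prod_of_subset_of_one_le hS
    · intro p _; positivity
    · intro p _ _
      have : (0 : ℝ) ≤ 4 / (p : ℝ) := by positivity
      linarith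
  induction S using Finset.induction_on with
  | empty =>
    intro _ x
    simp only [Finset.union_empty, recip, Finset.sum_empty, zero_mul, add_zero]
    exact hK x
  | @insert p S hpS ih =>
    intro hSG x
    have hSG' : S ⊆ G := (Finset.subset_insert p S).trans hSG
    have hpG : p ∈ G := hSG (Finset.mem_insert_self p S)
    have hp2 : 2 ≤ p := hG p hpG
    have hp0 : p ≠ 0 := by omega
    have hpR : (0 : ℝ) < p := by exact_mod_cast Nat.pos_of_ne_zero hp0
    have hpT : p ∉ T := fun h => (Finset.disjoint_left.mp hTG h) hpG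
    have hpTS : p ∉ T ∪ S := by
      rw [Finset.mem_union]; push Not; exact ⟨hpT, hpS⟩
    have hun : T ∪ insert p S = insert p (T ∪ S) := Finset.union_insert p T S
    have i1 := ih hSG' x
    have i2 := group_step Ω m (E := ∅) hG hT hTG (Finset.disjoint_empty_left G) hX hΛ
      (b := b) (D := D) (q := q)
      (fun E' hE' hb x => by rw [Finset.empty_union]; exact H1 E' hE' hb x) H2 H3 S hSG' {p}
      (by
        intro y hy
        rw [Finset.mem_singleton] at hy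
        subst hy
        exact Finset.mem_sdiff.mpr ⟨hpG, hpS⟩)
      (by rw [Finset.card_singleton]; exact hb) x
    rw [Finset.empty_union, Finset.card_singleton] at i2
    have i3 : |pm Ω m (T ∪ S) {p} x - X * pmf (T ∪ S) x| ≤
        A * Λ + B * ((D + 2) * (Λ + X * q)) / 2 ^ (b - 1) := by
      refine i2.trans ?_
      have := hmonoA S hSG'
      have := hmonoB S hSG'
      gcongr
    rw [hun, cm_insert Ω m hpTS hp0, cdf_insert hpTS]
    have hr : recip (insert p S) = 1 / (p : ℝ) + recip S := by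
      unfold recip; rw [Finset.sum_insert hpS]
    rw [hr]
    set Z := A * Λ + B * ((D + 2) * (Λ + X * q)) / 2 ^ (b - 1) with hZ
    have hinv : (0 : ℝ) ≤ 1 / (p : ℝ) := by positivity
    have hsplit : cm Ω m (T ∪ S) x - 1 / (p : ℝ) * pm Ω m (T ∪ S) {p} x -
        X * (cdf (T ∪ S) x - 1 / (p : ℝ) * pmf (T ∪ S) x) =
        (cm Ω m (T ∪ S) x - X * cdf (T ∪ S) x) -
          1 / (p : ℝ) * (pm Ω m (T ∪ S) {p} x - X * pmf (T ∪ S) x) := by ring
    rw [hsplit]
    calc |(cm Ω m (T ∪ S) x - X * cdf (T ∪ S) x) -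
          1 / (p : ℝ) * (pm Ω m (T ∪ S) {p} x - X * pmf (T ∪ S) x)|
        ≤ |cm Ω m (T ∪ S) x - X * cdf (T ∪ S) x| +
          |1 / (p : ℝ) * (pm Ω m (T ∪ S) {p} x - X * pmf (T ∪ S) x)| := abs_sub _ _
      _ ≤ (K + recip S * Z) + 1 / (p : ℝ) * Z := by
          rw [abs_mul, abs_of_nonneg hinv]
          gcongr
      _ = K + (1 / (p : ℝ) + recip S) * Z := by ring

/-! ### The groups -/

/-- The `i`-th group of primes. -/
def GT (a i : ℕ) : Finset ℕ := PT a (i + 1) \ PT a i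

theorem mem_PT {a i p : ℕ} : p ∈ PT a i ↔ p < 2 ^ 2 ^ i ∧ p.Prime ∧ ¬ p ∣ a := by
  simp [PT]

theorem PT_mono (a : ℕ) {i j : ℕ} (h : i ≤ j) : PT a i ⊆ PT a j := by
  intro p hp
  rw [mem_PT] at hp ⊢
  refine ⟨lt_of_lt_of_le hp.1 ?_, hp.2⟩
  exact Nat.pow_le_pow_right (by norm_num) (Nat.pow_le_pow_right (by norm_num) h)

theorem mem_GT {a i p : ℕ} :
    p ∈ GT a i ↔ 2 ^ 2 ^ i ≤ p ∧ p < 2 ^ 2 ^ (i + 1) ∧ p.Prime ∧ ¬ p ∣ a := by
  rw [GT, Finset.mem_sdiff, mem_PT, mem_PT]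
  constructor
  · rintro ⟨⟨h1, h2, h3⟩, h4⟩
    refine ⟨?_, h1, h2, h3⟩
    by_contra h5
    exact h4 ⟨not_le.mp h5, h2, h3⟩
  · rintro ⟨h0, h1, h2, h3⟩
    exact ⟨⟨h1, h2, h3⟩, fun h => absurd h.1 (not_lt.mpr h0)⟩

theorem PT_succ (a i : ℕ) : PT a (i + 1) = PT a i ∪ GT a i := by
  rw [GT, Finset.union_sdiff_of_subset (PT_mono a (Nat.le_succ i))]

theorem PT_zero (a : ℕ) : PT a 0 = ∅ := by
  rw [Finset.eq_empty_iff_forall_notMem]
  intro p hp
  rw [mem_PT] at hp
  have := hp.2.1.two_le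
  simp at hp
  omega

theorem U_GT_le {a i J c n : ℕ} (hi : i ≤ J) (hn : 0 < n) (hn2 : n < 2 ^ 2 ^ (J + c)) :
    U (GT a i) n ≤ 2 ^ (J - i + c) := by
  have h1 : ∏ p ∈ (GT a i).filter (fun p => p ∣ n), p ∣ n := by
    apply Finset.prod_primes_dvd
    · intro p hp
      exact Nat.prime_iff.mp (mem_GT.mp (Finset.mem_filter.mp hp).1).2.2.1
    · intro p hp
      exact (Finset.mem_filter.mp hp).2
  have h2 : (2 ^ 2 ^ i) ^ (U (GT a i) n) ≤ ∏ p ∈ (GT a i).filter (fun p => p ∣ n), p := by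
    unfold U
    apply Finset.pow_card_le_prod
    intro p hp
    exact (mem_GT.mp (Finset.mem_filter.mp hp).1).1
  have h3 : (2 ^ 2 ^ i) ^ (U (GT a i) n) < 2 ^ 2 ^ (J + c) :=
    lt_of_le_of_lt (h2.trans (Nat.le_of_dvd hn h1)) hn2
  rw [← pow_mul] at h3
  have h4 := (Nat.pow_lt_pow_iff_right (by norm_num : 1 < 2)).mp h3
  have h5 : 2 ^ (J + c) = 2 ^ i * 2 ^ (J - i + c) := by
    rw [← pow_add]; congr 1; omega
  rw [h5] at h4
  exact (Nat.lt_of_mul_lt_mul_left h4).le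

/-- Exponent of the level of distribution used from the group `i` on. -/
def lev (B J i : ℕ) : ℕ := ∑ k ∈ Finset.Ico i J, 2 ^ (k + 1) * (B * (J - k))

theorem lev_succ {B J i : ℕ} (hi : i < J) :
    lev B J i = 2 ^ (i + 1) * (B * (J - i)) + lev B J (i + 1) :=
  Finset.sum_eq_sum_Ico_succ_bot hi _

theorem lev_anti {B J i : ℕ} : lev B J i ≤ lev B J 0 := by
  unfold lev
  apply Finset.sum_le_sum_of_subset
  intro k hk
  rw [Finset.mem_Ico] at hk ⊢
  exact ⟨Nat.zero_le _, hk.2⟩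

theorem lev_zero_le (B J : ℕ) : lev B J 0 ≤ 4 * B * 2 ^ J := by
  have key : ∀ J : ℕ, (∑ k ∈ Finset.range J, 2 ^ (k + 1) * (J - k)) + 2 * J + 4 = 4 * 2 ^ J := by
    intro J
    induction J with
    | zero => simp
    | succ J ih =>
      have e1 : ∑ k ∈ Finset.range (J + 1), 2 ^ (k + 1) * (J + 1 - k) =
          ∑ k ∈ Finset.range (J + 1), (2 ^ (k + 1) * (J - k) + 2 ^ (k + 1)) := by
        apply Finset.sum_congr rfl
        intro k hk
        rw [Finset.mem_range] at hk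
        have : J + 1 - k = (J - k) + 1 := by omega
        rw [this, mul_add, mul_one]
      rw [e1, Finset.sum_add_distrib, Finset.sum_range_succ (fun k => 2 ^ (k + 1) * (J - k)) J,
        Nat.sub_self, mul_zero, add_zero]
      have e2 : ∀ J : ℕ, (∑ k ∈ Finset.range (J + 1), 2 ^ (k + 1)) + 2 = 4 * 2 ^ J := by
        intro J
        induction J with
        | zero => simp
        | succ J ih => rw [Finset.sum_range_succ, add_right_comm, ih]; ring
      have e3 := e2 J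
      rw [pow_succ]
      omega
  unfold lev
  rw [← Finset.range_eq_Ico]
  have e : ∑ k ∈ Finset.range J, 2 ^ (k + 1) * (B * (J - k)) =
      B * ∑ k ∈ Finset.range J, 2 ^ (k + 1) * (J - k) := by
    rw [Finset.mul_sum]
    apply Finset.sum_congr rfl
    intro k _
    ring
  rw [e]
  calc B * ∑ k ∈ Finset.range J, 2 ^ (k + 1) * (J - k) ≤ B * (4 * 2 ^ J) := by
        apply Nat.mul_le_mul_left
        have := key J
        omega
    _ = 4 * B * 2 ^ J := by ring

theorem num1 (s c : ℕ) (hs : 1 ≤ s) :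
    (2 ^ (s + c) + 2) * 2 ^ 24 * 2 ^ (40 * s) ≤ 2 ^ ((66 + c) * s) := by
  have h1 : 2 ^ (s + c) + 2 ≤ 2 ^ (s + c + 1) := by
    have : 2 ^ 1 ≤ 2 ^ (s + c) := Nat.pow_le_pow_right (by norm_num) (by omega)
    rw [pow_succ]
    omega
  calc (2 ^ (s + c) + 2) * 2 ^ 24 * 2 ^ (40 * s) ≤ 2 ^ (s + c + 1) * 2 ^ 24 * 2 ^ (40 * s) := by
        gcongr
    _ = 2 ^ (s + c + 1 + 24 + 40 * s) := by rw [← pow_add, ← pow_add]
    _ ≤ 2 ^ ((66 + c) * s) := by
        apply Nat.pow_le_pow_right (by norm_num)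
        nlinarith [Nat.mul_le_mul_left c hs]

theorem num1R (s c : ℕ) (hs : 1 ≤ s) :
    (2 : ℝ) ^ 24 * ((2 : ℝ) ^ (s + c) + 2) / 2 ^ ((66 + c) * s) ≤ (1 / 2) ^ (40 * s) := by
  have h := num1 s c hs
  have h' : ((2 : ℝ) ^ (s + c) + 2) * 2 ^ 24 * 2 ^ (40 * s) ≤ 2 ^ ((66 + c) * s) := by
    exact_mod_cast h
  rw [one_div, inv_pow, div_le_iff₀ (by positivity), inv_mul_eq_div, le_div_iff₀ (by positivity)]
  linarith

theorem prod_le_exp (S : Finset ℕ) (κ : ℝ) (hκ : 0 ≤ κ) :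
    ∏ p ∈ S, (1 + κ / (p : ℝ)) ≤ Real.exp (κ * recip S) := by
  unfold recip
  rw [Finset.mul_sum, Real.exp_sum]
  apply Finset.prod_le_prod
  · intro p _; positivity
  · intro p _
    have := Real.add_one_le_exp (κ * (1 / (p : ℝ)))
    have e : κ / (p : ℝ) = κ * (1 / (p : ℝ)) := by ring
    rw [e]
    linarith

theorem exp8 : Real.exp 8 ≤ 2 ^ 12 := by
  have h := Real.exp_one_lt_d9
  have h0 := Real.exp_pos 1
  have : Real.exp 8 = (Real.exp 1) ^ 8 := by
    rw [← Real.exp_nat_mul]; norm_num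
  rw [this]
  calc (Real.exp 1) ^ 8 ≤ (2.7182818286 : ℝ) ^ 8 := by gcongr
    _ ≤ 2 ^ 12 := by norm_num

theorem exp16 : Real.exp 16 ≤ 2 ^ 24 := by
  have h := exp8
  have h0 := Real.exp_pos 8
  have : Real.exp 16 = (Real.exp 8) ^ 2 := by
    rw [← Real.exp_nat_mul]; norm_num
  rw [this]
  calc (Real.exp 8) ^ 2 ≤ (2 ^ 12 : ℝ) ^ 2 := by gcongr
    _ ≤ 2 ^ 24 := by norm_num

/-- The base case. -/
theorem pm_empty_sub (Ω : Finset ι) (m : ι → ℕ) {a : ℕ} {R : ℝ}
    (hd : ∀ d : ℕ, 0 < d → Nat.Coprime d a →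
      |((Ω.filter (fun n => d ∣ m n)).card : ℝ) - (Ω.card : ℝ) / d| ≤ R)
    (E : Finset ℕ) (hE : ∀ p ∈ E, p.Prime ∧ ¬ p ∣ a) (x : ℤ) :
    |pm Ω m ∅ E x - Ω.card * pmf ∅ x| ≤ (∏ p ∈ E, (p : ℝ)) * R := by
  have hprod : (0 : ℝ) < ∏ p ∈ E, (p : ℝ) :=
    Finset.prod_pos fun p hp => by exact_mod_cast (hE p hp).1.pos
  have hdiv : ∀ n : ℕ, (∀ p ∈ E, p ∣ n) ↔ (∏ p ∈ E, p) ∣ n := by
    intro n
    constructor
    · intro h
      exact Finset.prod_primes_dvd n (fun p hp => Nat.prime_iff.mp (hE p hp).1) h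
    · intro h p hp
      exact (Finset.dvd_prod_of_mem _ hp).trans h
  have hcop : Nat.Coprime (∏ p ∈ E, p) a := by
    apply Nat.Coprime.prod_left
    intro p hp
    exact (Nat.Prime.coprime_iff_not_dvd (hE p hp).1).mpr (hE p hp).2
  have hpos : 0 < ∏ p ∈ E, p := Finset.prod_pos fun p hp => (hE p hp).1.pos
  have h1 := hd (∏ p ∈ E, p) hpos hcop
  have hR : 0 ≤ R := le_trans (abs_nonneg _) h1
  have e1 : pm Ω m ∅ E x = (∏ p ∈ E, (p : ℝ)) *
      (((Ω.filter (fun n => (∏ p ∈ E, p) ∣ m n)).card : ℝ) * (if (0 : ℤ) = x then 1 else 0)) := by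
    unfold pm
    congr 1
    rw [Finset.card_filter, Nat.cast_sum, Finset.sum_mul]
    apply Finset.sum_congr rfl
    intro n _
    rw [U_empty]
    simp only [hdiv, Nat.cast_zero]
    congr 1
    split_ifs <;> simp
  rw [e1, pmf_empty]
  by_cases hx : (0 : ℤ) = x
  · rw [if_pos hx, mul_one, mul_one]
    have e2 : (∏ p ∈ E, (p : ℝ)) * ((Ω.filter (fun n => (∏ p ∈ E, p) ∣ m n)).card : ℝ) - Ω.card =
        (∏ p ∈ E, (p : ℝ)) * (((Ω.filter (fun n => (∏ p ∈ E, p) ∣ m n)).card : ℝ) -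
          (Ω.card : ℝ) / ((∏ p ∈ E, p : ℕ) : ℝ)) := by
      push_cast
      field_simp
    rw [e2, abs_mul, abs_of_pos hprod]
    exact mul_le_mul_of_nonneg_left h1 hprod.le
  · rw [if_neg hx]
    simp only [mul_zero, sub_zero, abs_zero]
    positivity


/-! ### The recursion over the groups -/

theorem GT_disjoint (a i : ℕ) : Disjoint (PT a i) (GT a i) := Finset.disjoint_sdiff

theorem two_le_of_mem_GT {a i p : ℕ} (h : p ∈ GT a i) : 2 ≤ p := (mem_GT.mp h).2.2.1.two_le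

theorem one_le_of_mem_PT {a i p : ℕ} (h : p ∈ PT a i) : 1 ≤ p := (mem_PT.mp h).2.1.one_lt.le

theorem GT_sum_le (a i : ℕ) : recip (GT a i) ≤ 4 := by
  refine le_trans ?_ (group_bound i)
  unfold recip
  apply Finset.sum_le_sum_of_subset_of_nonneg
  · intro p hp
    rw [mem_GT] at hp
    rw [Finset.mem_filter, Finset.mem_range]
    exact ⟨hp.2.1, hp.2.2.1, hp.1⟩
  · intro p _ _
    positivity

/-- Numerical step for the recursion. -/
theorem num_step (s i c : ℕ) (hs : 1 ≤ s) {W X η D : ℝ} (hW : 0 ≤ W) (hX : 0 ≤ X) (hη : 0 ≤ η)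
    {Λ : ℝ} (hΛ : Λ = 2 ^ (13 * i) * W + X * η * (1 / 2) ^ (15 * s))
    (hD : D = 2 ^ (s + c)) :
    2 ^ 12 * Λ + 2 ^ 24 * ((D + 2) * (Λ + X * (η * 2 ^ (20 * s)))) / 2 ^ ((66 + c) * s - 1) ≤
      2 ^ (13 * (i + 1)) * W + X * η * (2 ^ 14 * (1 / 2) ^ (15 * s)) := by
  have h1 := num1R s c hs
  have hpow : (2 : ℝ) ^ ((66 + c) * s) = 2 * 2 ^ ((66 + c) * s - 1) := by
    rw [← pow_succ']
    congr 1
    have : 1 ≤ (66 + c) * s := by nlinarith
    omega
  set b : ℝ := 2 ^ ((66 + c) * s - 1) with hb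
  have hb0 : 0 < b := by positivity
  rw [hpow, ← hD] at h1
  have hΛ0 : 0 ≤ Λ := by rw [hΛ]; positivity
  set Y := Λ + X * (η * 2 ^ (20 * s)) with hY
  have hY0 : 0 ≤ Y := by positivity
  have e1 : 2 ^ 24 * ((D + 2) * Y) / b = 2 * (2 ^ 24 * (D + 2) / (2 * b)) * Y := by
    field_simp
  rw [e1]
  have h2 : 2 * (2 ^ 24 * (D + 2) / (2 * b)) * Y ≤ 2 * (1 / 2) ^ (40 * s) * Y := by gcongr
  have h3 : (1 / 2 : ℝ) ^ (40 * s) = (1 / 2) ^ (20 * s) * (1 / 2) ^ (20 * s) := by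
    rw [← pow_add]; congr 1; ring
  have h4 : (1 / 2 : ℝ) ^ (20 * s) * 2 ^ (20 * s) = 1 := by
    rw [← mul_pow]; norm_num
  have h5 : (1 / 2 : ℝ) ^ (20 * s) = (1 / 2) ^ (5 * s) * (1 / 2) ^ (15 * s) := by
    rw [← pow_add]; congr 1; ring
  have h6 : (1 / 2 : ℝ) ^ (5 * s) ≤ 1 := pow_le_one₀ (by norm_num) (by norm_num)
  have h7 : (1 / 2 : ℝ) ^ (40 * s) ≤ 1 := pow_le_one₀ (by norm_num) (by norm_num)
  set v : ℝ := (1 / 2) ^ (15 * s) with hv
  have hv0 : 0 < v := by positivity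
  have h8 : 2 * (1 / 2 : ℝ) ^ (40 * s) * Y ≤ 2 * Λ + 2 * (X * η * v) := by
    have e2 : 2 * (1 / 2 : ℝ) ^ (40 * s) * Y = 2 * ((1 / 2) ^ (40 * s) * Λ) +
        2 * (X * η * ((1 / 2) ^ (20 * s) * ((1 / 2 : ℝ) ^ (20 * s) * 2 ^ (20 * s)))) := by
      rw [hY]; rw [h3]; ring
    rw [e2, h4, mul_one, h5]
    have h9 : (1 / 2 : ℝ) ^ (40 * s) * Λ ≤ Λ := mul_le_of_le_one_left hΛ0 h7
    have h10 : (1 / 2 : ℝ) ^ (5 * s) * v ≤ v := mul_le_of_le_one_left hv0.le h6
    have h11 : X * η * ((1 / 2 : ℝ) ^ (5 * s) * v) ≤ X * η * v :=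
      mul_le_mul_of_nonneg_left h10 (by positivity)
    linarith
  have h12 : (2 : ℝ) ^ (13 * (i + 1)) = 2 ^ 13 * 2 ^ (13 * i) := by
    rw [← pow_add]; congr 1; ring
  rw [h12]
  have h13 : 0 ≤ 2 ^ (13 * i) * W := by positivity
  have h14 : 0 ≤ X * η * v := by positivity
  have h15 : X * η * (2 ^ 14 * v) = 2 ^ 14 * (X * η * v) := by ring
  rw [h15]
  have h16 : Λ = 2 ^ (13 * i) * W + X * η * v := hΛ
  have h17 : (2 : ℝ) ^ 13 * 2 ^ (13 * i) * W = 2 ^ 13 * (2 ^ (13 * i) * W) := by ring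
  rw [h17]
  nlinarith

set_option maxHeartbeats 4000000 in
theorem sieve_main (Ω : Finset ι) (m : ι → ℕ) {a c J : ℕ} {R η : ℝ} (hη : 0 ≤ η)
    (hm : ∀ n ∈ Ω, 0 < m n ∧ m n < 2 ^ 2 ^ (J + c))
    (hd : ∀ d : ℕ, 0 < d → Nat.Coprime d a →
      |((Ω.filter (fun n => d ∣ m n)).card : ℝ) - (Ω.card : ℝ) / d| ≤ R)
    (hq : ∀ i < J, ∀ x, pmf (PT a i) x ≤ η * 2 ^ (20 * (J - i))) (x : ℤ) :
    |cm Ω m (PT a J) x - Ω.card * cdf (PT a J) x| ≤
      2 ^ (13 * J + 3) * 2 ^ (4 * (66 + c) * 2 ^ J) * R + 2 ^ 17 * Ω.card * η := by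
  have hR : 0 ≤ R := le_trans (abs_nonneg _) (hd 1 one_pos (Nat.coprime_one_left a))
  set X : ℝ := (Ω.card : ℝ) with hX
  have hX0 : 0 ≤ X := Nat.cast_nonneg _
  set W : ℝ := 2 ^ lev (66 + c) J 0 * R with hW
  have hW0 : 0 ≤ W := by positivity
  have hA : ∀ i, ∏ p ∈ GT a i, (1 + 2 / (p : ℝ)) ≤ 2 ^ 12 := by
    intro i
    refine (prod_le_exp _ 2 (by norm_num)).trans (le_trans ?_ exp8)
    apply Real.exp_le_exp.mpr
    have := GT_sum_le a i
    linarith
  have hB : ∀ i, ∏ p ∈ GT a i, (1 + 4 / (p : ℝ)) ≤ 2 ^ 24 := by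
    intro i
    refine (prod_le_exp _ 4 (by norm_num)).trans (le_trans ?_ exp16)
    apply Real.exp_le_exp.mpr
    have := GT_sum_le a i
    linarith
  -- mass functions
  have claim1 : ∀ i, i ≤ J → ∀ E : Finset ℕ, (∀ p ∈ E, p.Prime ∧ ¬ p ∣ a ∧ 2 ^ 2 ^ i ≤ p) →
      ∏ p ∈ E, p ≤ 2 ^ lev (66 + c) J i → ∀ x, |pm Ω m (PT a i) E x - X * pmf (PT a i) x| ≤
        2 ^ (13 * i) * W + X * η * (1 / 2) ^ (15 * (J - i)) := by
    intro i
    induction i with
    | zero =>
      intro _ E hE hlev x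
      rw [PT_zero]
      refine (pm_empty_sub Ω m hd E (fun p hp => ⟨(hE p hp).1, (hE p hp).2.1⟩) x).trans ?_
      have h1 : (∏ p ∈ E, (p : ℝ)) ≤ 2 ^ lev (66 + c) J 0 := by
        have h := (Nat.cast_le (α := ℝ)).mpr hlev
        push_cast at h
        exact h
      have h2 : (∏ p ∈ E, (p : ℝ)) * R ≤ W := by
        rw [hW]; gcongr
      have h3 : 0 ≤ X * η * (1 / 2) ^ (15 * (J - 0)) := by positivity
      rw [Nat.mul_zero, pow_zero, one_mul]
      linarith
    | succ i ih =>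
      intro hi E hE hlev x
      have hiJ : i < J := hi
      have IH := ih hiJ.le
      have hlevs := lev_succ (B := 66 + c) hiJ
      have H1 : ∀ E' ⊆ GT a i, E'.card ≤ (66 + c) * (J - i) → ∀ x,
          |pm Ω m (PT a i) (E ∪ E') x - X * pmf (PT a i) x| ≤
            2 ^ (13 * i) * W + X * η * (1 / 2) ^ (15 * (J - i)) := by
        intro E' hE' hcard y
        apply IH
        · intro p hp
          rcases Finset.mem_union.mp hp with h | h
          · have := hE p h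
            refine ⟨this.1, this.2.1, le_trans ?_ this.2.2⟩
            exact Nat.pow_le_pow_right (by norm_num)
              (Nat.pow_le_pow_right (by norm_num) (Nat.le_succ i))
          · have := mem_GT.mp (hE' h)
            exact ⟨this.2.2.1, this.2.2.2, this.1⟩
        · have hdisj : Disjoint E E' := by
            rw [Finset.disjoint_left]
            intro p hp hp'
            have h1 := (hE p hp).2.2
            have h2 := (mem_GT.mp (hE' hp')).2.1
            omega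
          rw [Finset.prod_union hdisj]
          have h1 : ∏ p ∈ E', p ≤ (2 ^ 2 ^ (i + 1)) ^ E'.card := by
            apply Finset.prod_le_pow_card
            intro p hp
            exact (mem_GT.mp (hE' hp)).2.1.le
          have h2 : (2 ^ 2 ^ (i + 1)) ^ E'.card ≤ 2 ^ (2 ^ (i + 1) * ((66 + c) * (J - i))) := by
            rw [← pow_mul]
            apply Nat.pow_le_pow_right (by norm_num)
            exact Nat.mul_le_mul_left _ hcard
          rw [hlevs, pow_add, mul_comm]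
          exact Nat.mul_le_mul (h1.trans h2) hlev
      have H2 : ∀ n ∈ Ω, U (GT a i) (m n) ≤ 2 ^ (J - i + c) :=
        fun n hn => U_GT_le hiJ.le (hm n hn).1 (hm n hn).2
      have hEG : Disjoint E (GT a i) := by
        rw [Finset.disjoint_left]
        intro p hp hp'
        have h1 := (hE p hp).2.2
        have h2 := (mem_GT.mp hp').2.1
        omega
      have g := group_step Ω m (E := E) (fun p hp => two_le_of_mem_GT hp)
        (fun p hp => one_le_of_mem_PT hp) (GT_disjoint a i) hEG hX0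
        (by positivity) H1 H2 (hq i hiJ) (GT a i) (le_refl _) ∅ (Finset.empty_subset _)
        (by simp) x
      rw [Finset.union_empty, Finset.card_empty, Nat.sub_zero, ← PT_succ] at g
      refine g.trans ?_
      have hs : 1 ≤ J - i := by omega
      have hns := num_step (J - i) i c hs (D := ((2 ^ (J - i + c) : ℕ) : ℝ)) hW0 hX0 hη rfl
        (by push_cast; rfl)
      have hAi := hA i
      have hBi := hB i
      set Λ := 2 ^ (13 * i) * W + X * η * (1 / 2) ^ (15 * (J - i)) with hΛ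
      have hΛ0 : 0 ≤ Λ := by positivity
      set M := (((2 ^ (J - i + c) : ℕ) : ℝ) + 2) * (Λ + X * (η * 2 ^ (20 * (J - i)))) with hM
      have hM0 : 0 ≤ M := by positivity
      have hp1 : (0 : ℝ) < 2 ^ ((66 + c) * (J - i) - 1) := by positivity
      have hp2 : (2 : ℝ) ^ ((66 + c) * (J - i) - 1) ≤ 2 ^ ((66 + c) * (J - i)) :=
        pow_le_pow_right₀ (by norm_num) (Nat.sub_le _ _)
      have t1 : (∏ p ∈ GT a i, (1 + 2 / (p : ℝ))) * Λ ≤ 2 ^ 12 * Λ := by gcongr
      have t2 : (∏ p ∈ GT a i, (1 + 4 / (p : ℝ))) * M / 2 ^ ((66 + c) * (J - i)) ≤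
          2 ^ 24 * M / 2 ^ ((66 + c) * (J - i) - 1) := by gcongr
      have t3 : X * η * (2 ^ 14 * (1 / 2) ^ (15 * (J - i))) ≤
          X * η * (1 / 2) ^ (15 * (J - (i + 1))) := by
        have e : 15 * (J - i) = 15 * (J - (i + 1)) + 15 := by omega
        rw [e, pow_add]
        have : (0 : ℝ) ≤ X * η * (1 / 2) ^ (15 * (J - (i + 1))) := by positivity
        nlinarith
      linarith
  -- distribution functions
  have claim2 : ∀ i, i ≤ J → ∀ x, |cm Ω m (PT a i) x - X * cdf (PT a i) x| ≤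
      2 ^ (13 * i + 3) * W + 2 ^ 17 * X * η * (1 / 2) ^ (J - i) := by
    intro i
    induction i with
    | zero =>
      intro _ x
      rw [PT_zero, cdf_empty]
      have e : cm Ω m ∅ x = X * (if (0 : ℤ) ≤ x then 1 else 0) := by
        unfold cm
        simp only [U_empty, Nat.cast_zero]
        rw [Finset.sum_const, nsmul_eq_mul]
      rw [e, sub_self, abs_zero]
      positivity
    | succ i ih =>
      intro hi x
      have hiJ : i < J := hi
      have hs : 1 ≤ J - i := by omega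
      have hlevs := lev_succ (B := 66 + c) hiJ
      have H1 : ∀ E' ⊆ GT a i, E'.card ≤ (66 + c) * (J - i) → ∀ x,
          |pm Ω m (PT a i) E' x - X * pmf (PT a i) x| ≤
            2 ^ (13 * i) * W + X * η * (1 / 2) ^ (15 * (J - i)) := by
        intro E' hE' hcard y
        apply claim1 i hiJ.le
        · intro p hp
          have := mem_GT.mp (hE' hp)
          exact ⟨this.2.2.1, this.2.2.2, this.1⟩
        · have h1 : ∏ p ∈ E', p ≤ (2 ^ 2 ^ (i + 1)) ^ E'.card := by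
            apply Finset.prod_le_pow_card
            intro p hp
            exact (mem_GT.mp (hE' hp)).2.1.le
          have h2 : (2 ^ 2 ^ (i + 1)) ^ E'.card ≤ 2 ^ (2 ^ (i + 1) * ((66 + c) * (J - i))) := by
            rw [← pow_mul]
            apply Nat.pow_le_pow_right (by norm_num)
            exact Nat.mul_le_mul_left _ hcard
          refine (h1.trans h2).trans ?_
          rw [hlevs]
          exact Nat.pow_le_pow_right (by norm_num) (Nat.le_add_right _ _)
      have H2 : ∀ n ∈ Ω, U (GT a i) (m n) ≤ 2 ^ (J - i + c) :=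
        fun n hn => U_GT_le hiJ.le (hm n hn).1 (hm n hn).2
      have hb1 : 1 ≤ (66 + c) * (J - i) := by nlinarith
      have g := group_cdf Ω m (fun p hp => two_le_of_mem_GT hp)
        (fun p hp => one_le_of_mem_PT hp) (GT_disjoint a i) hX0
        (by positivity) hb1 H1 H2 (hq i hiJ) (hA i) (hB i) (ih hiJ.le) (GT a i) (le_refl _) x
      rw [← PT_succ] at g
      refine g.trans ?_
      have hns := num_step (J - i) i c hs (D := ((2 ^ (J - i + c) : ℕ) : ℝ)) hW0 hX0 hη rfl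
        (by push_cast; rfl)
      have hrec := GT_sum_le a i
      have hrec0 : 0 ≤ recip (GT a i) := by
        unfold recip; positivity
      set Λ := 2 ^ (13 * i) * W + X * η * (1 / 2) ^ (15 * (J - i)) with hΛ
      have hΛ0 : 0 ≤ Λ := by positivity
      set Z := 2 ^ 12 * Λ + 2 ^ 24 * ((((2 ^ (J - i + c) : ℕ) : ℝ) + 2) *
        (Λ + X * (η * 2 ^ (20 * (J - i))))) / 2 ^ ((66 + c) * (J - i) - 1) with hZ
      have hZ0 : 0 ≤ Z := by positivity
      have t1 : recip (GT a i) * Z ≤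
          4 * (2 ^ (13 * (i + 1)) * W + X * η * (2 ^ 14 * (1 / 2) ^ (15 * (J - i)))) := by
        calc recip (GT a i) * Z ≤ 4 * Z := by gcongr
          _ ≤ _ := by gcongr
      have t2 : (2 : ℝ) ^ (13 * i + 3) * W ≤ 4 * (2 ^ (13 * (i + 1)) * W) := by
        have e : (2 : ℝ) ^ (13 * (i + 1)) = 2 ^ 10 * 2 ^ (13 * i + 3) := by
          rw [← pow_add]; congr 1; ring
        rw [e]
        have : 0 ≤ (2 : ℝ) ^ (13 * i + 3) * W := by positivity
        nlinarith
      have t3 : (2 : ℝ) ^ (13 * (i + 1) + 3) * W = 8 * (2 ^ (13 * (i + 1)) * W) := by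
        rw [pow_add]; ring
      have t4 : (1 / 2 : ℝ) ^ (15 * (J - i)) ≤ (1 / 2) ^ (J - i) :=
        pow_le_pow_of_le_one (by norm_num) (by norm_num) (by omega)
      have t5 : (1 / 2 : ℝ) ^ (J - (i + 1)) = 2 * (1 / 2) ^ (J - i) := by
        have e : J - i = J - (i + 1) + 1 := by omega
        rw [e, pow_succ]; ring
      rw [t3, t5]
      have t6 : X * η * (2 ^ 14 * (1 / 2) ^ (15 * (J - i))) ≤
          X * η * (2 ^ 14 * (1 / 2) ^ (J - i)) := by gcongr
      have t7 : (0 : ℝ) ≤ X * η * (1 / 2) ^ (J - i) := by positivity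
      nlinarith
  have hfin := claim2 J (le_refl _) x
  rw [Nat.sub_self, pow_zero, mul_one] at hfin
  refine hfin.trans ?_
  have h1 : W ≤ 2 ^ (4 * (66 + c) * 2 ^ J) * R := by
    rw [hW]
    gcongr
    · norm_num
    · exact lev_zero_le (66 + c) J
  have h2 : (2 : ℝ) ^ (13 * J + 3) * W ≤ 2 ^ (13 * J + 3) * 2 ^ (4 * (66 + c) * 2 ^ J) * R := by
    rw [mul_assoc]
    gcongr
  linarith

end EK
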